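import Pool.Agent.W5h43.NA.Pet
import Pool.Agent.TH635.AA.Cnv

/-!
# Averages of products of characters along polynomial sequences in nilpotent groups of
affine maps
-/

set_option autoImplicit false
set_option linter.unusedSectionVars false

open Filter Topology MeasureTheory

namespace Pool.Agent.W5h43.NA

open Pool.Agent.TH635.AA (Pol Pol_const Pol_zero_fun AltB sep_isPoly conv_gen cnt_fiber)
open Pool.Agent.TH784.AA (BB KK pbk qbk IsAC IsAff fb nz mix sub FewB cnt vol vol_nonneg
  conv_of_residues cnt_nonneg)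
open Pool.Agent.Helper294.HallC (FGM Stb)
open Pool.Agent.W742.CU (IsPoly)
open Pool.Agent.W761.Box (bxc)

noncomputable section

section any

variable {G Q : Type} [Group G] [AddCommGroup Q] [DistribMulAction G Q] {ι : Type} {T : ι → G}
  {n : ℕ}

theorem lift_list (B : AddSubgroup Q) (hB : Stb G B) (L : List (PS T n × Q))
    (hL : ∀ x ∈ L, x.2 ∈ B) :
    ∃ L' : List (PS T n × B), ∀ t, ((@psi G B _ _ (subAct B hB) ι T n L' t : B) : Q) =
      psi L t := by
  let _ : DistribMulAction G B := subAct B hB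
  induction L with
  | nil => exact ⟨[], fun t => rfl⟩
  | cons x L ih =>
    obtain ⟨L', hL'⟩ := ih fun y hy => hL y (List.mem_cons_of_mem _ hy)
    refine ⟨(x.1, ⟨x.2, hL x List.mem_cons_self⟩) :: L', fun t => ?_⟩
    rw [psi_cons, psi_cons, ← hL' t]
    rfl

/-- the values, in any module -/
theorem values_any [Finite ι] [Group.IsNilpotent G] (hn : 1 ≤ n)
    (hT : Subgroup.closure (Set.range T) = ⊤) (L : List (PS T n × Q)) :
    ∃ q : ℕ, 1 ≤ q ∧ ∃ C δ : ℝ, 0 < C ∧ 0 < δ ∧ δ ≤ 1 ∧ ∀ r : ℤ,
      (∀ t : ℤ, psi L (r + q * t) = psi L r) ∨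
        ∀ w : Q, ZB (fun t => psi L (r + q * t) - w) C δ := by
  classical
  let S : Finset Q := (L.map Prod.snd).toFinset
  have hmem : ∀ x ∈ L, x.2 ∈ gsp G (S : Set Q) := by
    intro x hx
    apply mem_gsp
    rw [Finset.mem_coe, List.mem_toFinset]
    exact List.mem_map.2 ⟨x, hx, rfl⟩
  let _ : DistribMulAction G (gsp G (S : Set Q)) := subAct _ (gsp_stb _)
  obtain ⟨L', hL'⟩ := lift_list (gsp G (S : Set Q)) (gsp_stb _) L hmem
  obtain ⟨q, hq, C, δ, hC, hδ, hδ1, h⟩ := values (T := T) (M := gsp G (S : Set Q)) hn hT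
    (gsp_fgm S) L'
  refine ⟨q, hq, C, δ, hC, hδ, hδ1, fun r => ?_⟩
  rcases h r with h1 | h1
  · left
    intro t
    rw [← hL', ← hL', h1]
  · right
    intro w
    by_cases hw : w ∈ gsp G (S : Set Q)
    · intro N hN Z hZ
      refine h1 ⟨w, hw⟩ N hN Z fun t ht => ⟨(hZ t ht).1, ?_⟩
      have h2 := (hZ t ht).2
      simp only at h2 ⊢
      rw [← hL'] at h2
      apply Subtype.ext
      exact h2
    · intro N hN Z hZ
      have hZe : Z = ∅ := by
        by_contra hne
        obtain ⟨t, ht⟩ := Finset.nonempty_iff_ne_empty.mpr hne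
        have h2 := (hZ t ht).2
        simp only at h2
        rw [← hL', sub_eq_zero] at h2
        apply hw
        rw [← h2]
        exact Subtype.property _
      rw [hZe, Finset.card_empty, Nat.cast_zero]
      positivity

end any

section act

variable {X : Type} {Γ : Subgroup (Equiv.Perm X)}

instance actB : DistribMulAction Γ (BB X) where
  smul g f := pbk (((g⁻¹ : Γ) : Equiv.Perm X) : X → X) f
  one_smul f := rfl
  mul_smul g h f := by
    show pbk ((((g * h)⁻¹ : Γ) : Equiv.Perm X) : X → X) f =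
      pbk (((g⁻¹ : Γ) : Equiv.Perm X) : X → X) (pbk (((h⁻¹ : Γ) : Equiv.Perm X) : X → X) f)
    rw [mul_inv_rev]
    rfl
  smul_zero g := map_zero _
  smul_add g f f' := map_add _ f f'

theorem smulB (g : Γ) (f : BB X) : g • f = pbk (((g⁻¹ : Γ) : Equiv.Perm X) : X → X) f := rfl

instance actQ : DistribMulAction Γ (BB X ⧸ KK X) where
  smul g f := qbk (((g⁻¹ : Γ) : Equiv.Perm X) : X → X) f
  one_smul f := by
    induction f using QuotientAddGroup.induction_on with
    | H f => rfl
  mul_smul g h f := by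
    induction f using QuotientAddGroup.induction_on with
    | H f =>
      show QuotientAddGroup.mk' (KK X) ((g * h) • f) = QuotientAddGroup.mk' (KK X) (g • h • f)
      rw [mul_smul]
  smul_zero g := map_zero _
  smul_add g f f' := map_add _ f f'

theorem mk_smul (g : Γ) (f : BB X) :
    QuotientAddGroup.mk' (KK X) (g • f) = g • QuotientAddGroup.mk' (KK X) f := rfl

variable {ι : Type} {T : ι → Γ} {n : ℕ}

/-- labels -/
def labL (L : List (PS T n × BB X)) : List (PS T n × (BB X ⧸ KK X)) :=
  L.map fun x => (x.1, QuotientAddGroup.mk' (KK X) x.2)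

theorem psi_labL (L : List (PS T n × BB X)) (t : ℤ) :
    psi (labL L) t = QuotientAddGroup.mk' (KK X) (psi L t) := by
  induction L with
  | nil => rfl
  | cons x L ih =>
    have e : labL (x :: L) = (x.1, QuotientAddGroup.mk' (KK X) x.2) :: labL L := rfl
    rw [e, psi_cons, psi_cons, ih, map_add, mk_smul]

end act

section conv

variable {X : Type} [CommGroup X] [TopologicalSpace X] [IsTopologicalGroup X] [CompactSpace X]
  [MeasurableSpace X] [BorelSpace X] {μ : Measure X} [IsProbabilityMeasure μ]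
  [μ.IsMulLeftInvariant] {Γ : Subgroup (Equiv.Perm X)} {ι : Type} {T : ι → Γ} {n : ℕ}

theorem fin1 (l : Fin 1) : l = 0 := Subsingleton.elim _ _

theorem upd1 {α : Type*} (m : Fin 1 → α) (l : Fin 1) (t : α) :
    Function.update m l t = fun _ => t := by
  funext j
  rw [fin1 l, fin1 j, Function.update_self]

/-- convergence of averages on a residue class -/
theorem conv_class (L : List (PS T n × BB X)) (hac : ∀ t, IsAC (psi L t).toMul) (q : ℕ) (r : ℤ)
    {C δ : ℝ} (hC : 0 < C) (hδ : 0 < δ)
    (h : (∀ t : ℤ, psi (labL L) (r + q * t) = psi (labL L) r) ∨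
        ∀ w, ZB (fun t => psi (labL L) (r + q * t) - w) C δ)
    (hfl : Nonempty (Flt T n)) :
    ∀ᵐ x ∂μ, ∃ c : ℂ, Tendsto (fun N => bxc 1 N fun m => fb (psi L (r + q * (m 0 : ℕ))) x)
      atTop (𝓝 c) := by
  classical
  obtain ⟨𝓕⟩ := hfl
  have key := conv_gen (μ := μ) (k := 1) (fun m => psi L (r + q * m 0)) (fun m => hac _) ?_ ?_
  · exact key
  · intro l
    rcases h with h | h
    · left
      intro m t
      show QuotientAddGroup.mk' (KK X) (psi L (r + q * Function.update m l t 0)) =
        QuotientAddGroup.mk' (KK X) (psi L (r + q * m 0))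
      rw [← psi_labL, ← psi_labL, h, h]
    · right
      refine ⟨Set.univ, C, δ, hC.le, hδ, ?_, ?_⟩
      · intro c N hN
        apply cnt_fiber hN l
        intro m Z hZ
        have h1 := h c (N l) (hN l) Z fun t ht => ⟨(hZ t ht).1, by
          have h2 := (hZ t ht).2.2
          simp only [upd1] at h2
          show psi (labL L) (r + q * (t : ℤ)) - c = 0
          rw [psi_labL, sub_eq_zero]
          exact h2⟩
        exact h1
      · intro N hN
        have h0 : cnt N (fun m => m ∉ (Set.univ : Set (Fin 1 → ℕ))) = 0 := by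
          simp [cnt]
        rw [h0]
        have h1 := vol_nonneg N
        have h2 : 0 ≤ ∑ j, (N j : ℝ) ^ (-δ) :=
          Finset.sum_nonneg fun j _ => Real.rpow_nonneg (Nat.cast_nonneg _) _
        positivity
  · intro D hD
    by_cases h0 : (0 : Fin 1) ∈ D
    · refine ⟨0, ?_⟩
      have e : ∀ m : Fin 1 → ℤ, mix D m 0 = m := by
        intro m
        funext l
        unfold Pool.Agent.TH784.AA.mix
        rw [fin1 l, if_pos h0]
      simp only [e, sub_self]
      intro m
      rfl
    · have e : ∀ m : Fin 1 → ℤ, mix D m 0 = 0 := by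
        intro m
        funext l
        unfold Pool.Agent.TH784.AA.mix
        rw [fin1 l, if_neg h0]
      simp only [e] at hD ⊢
      let L₂ : List (PS T n × BB X) := dilL r q L ++ [(1, -psi L r)]
      have hL₂ : ∀ t, psi L₂ t = psi L (r + q * t) - psi L r := by
        intro t
        rw [psi_append, psi_dilL, psi_cons, psi_nil, add_zero]
        show psi L (r + q * t) + (1 : Γ) • (-psi L r) = _
        rw [one_smul, sub_eq_add_neg]
      have hz : r + (q : ℤ) * (0 : Fin 1 → ℤ) 0 = r := by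
        rw [Pi.zero_apply, mul_zero, add_zero]
      obtain ⟨k, hk⟩ := phase (𝓕 := 𝓕) (K := KK X) (fun g x hx => Pool.Agent.TH784.AA.pbk_KK _ hx)
        _ L₂ rfl (by
          intro t
          rw [hL₂]
          have := hD fun _ => t
          simp only [hz] at this
          exact this)
      refine ⟨1 * k, sep_isPoly fun m l => ?_⟩
      have e2 : (fun t => psi L (r + q * Function.update m l t 0) -
          psi L (r + q * (0 : Fin 1 → ℤ) 0)) = psi L₂ := by
        funext t
        rw [hL₂, upd1, hz]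
      rw [e2]
      exact hk

theorem bxc_one (a : ℕ → ℂ) (N : ℕ) :
    bxc 1 (fun _ => N) (fun m => a (m 0)) = (N : ℂ)⁻¹ * ∑ m ∈ Finset.range N, a m := by
  unfold bxc
  rw [Fin.prod_univ_one]
  congr 1
  refine Finset.sum_bij (fun m _ => m 0) ?_ ?_ ?_ ?_
  · intro m hm
    rw [Fintype.mem_piFinset] at hm
    exact hm 0
  · intro m _ m' _ h
    funext l
    rw [fin1 l]
    exact h
  · intro m hm
    exact ⟨fun _ => m, by rw [Fintype.mem_piFinset]; exact fun _ => hm, rfl⟩
  · intro m _
    rfl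

/-- **One-sided averages.** -/
theorem conv_one [Finite ι] [Group.IsNilpotent Γ] (hn : 1 ≤ n)
    (hT : Subgroup.closure (Set.range T) = ⊤) (L : List (PS T n × BB X))
    (hac : ∀ t, IsAC (psi L t).toMul) :
    ∀ᵐ x ∂μ, ∃ c : ℂ, Tendsto (fun N : ℕ => (N : ℂ)⁻¹ *
      ∑ m ∈ Finset.range N, fb (psi L (m : ℤ)) x) atTop (𝓝 c) := by
  classical
  obtain ⟨q, hq, C, δ, hC, hδ, hδ1, h⟩ := values_any hn hT (labL L)
  have hfl : Nonempty (Flt T n) := exists_flt
  have hall : ∀ᵐ x ∂μ, ∀ r : Fin 1 → ℕ, ∃ c : ℂ, Tendsto (fun N => bxc 1 N fun m =>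
      fb (psi L ((r 0 : ℤ) + q * (m 0 : ℕ))) x) atTop (𝓝 c) := by
    rw [ae_all_iff]
    intro r
    exact conv_class L hac q (r 0) hC hδ (h _) hfl
  filter_upwards [hall] with x hx
  have h1 : ∃ c : ℂ, Tendsto (fun N => bxc 1 N fun m : Fin 1 → ℕ =>
      fb (psi L ((m 0 : ℕ) : ℤ)) x) atTop (𝓝 c) := by
    apply conv_of_residues hq
    intro r hr
    obtain ⟨c, hc⟩ := hx r
    refine ⟨c, hc.congr fun N => ?_⟩
    congr 1
  obtain ⟨c, hc⟩ := h1
  refine ⟨c, ?_⟩
  have h2 : Tendsto (fun N : ℕ => (fun _ => N : Fin 1 → ℕ)) atTop atTop := by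
    refine tendsto_atTop_atTop.2 fun b => ⟨b 0, fun N hN j => ?_⟩
    rw [fin1 j]
    exact hN
  refine (hc.comp h2).congr fun N => ?_
  exact bxc_one (fun m => fb (psi L (m : ℤ)) x) N

end conv

end

end Pool.Agent.W5h43.NA
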