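import Pool.Agent.W5h43.NA.Few

/-!
# Characters as a module over a group of automorphisms
-/

set_option autoImplicit false
set_option linter.unusedSectionVars false

open Filter Topology MeasureTheory
open scoped ComplexConjugate

namespace Pool.Agent.W5h43.NA

open Pool.Agent.Helper28.LCN (TorsionFree)
open Pool.Agent.TH784.AA (BB pbk IsAC fb int_ac)
open Pool.Agent.Helper294.HallC (Stb)

noncomputable section

section psi

variable {G M : Type} [Group G] [AddCommGroup M] [DistribMulAction G M] {ι : Type} {T : ι → G}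
  {n : ℕ}

theorem coe_psi (B : AddSubgroup M) (hB : Stb G B) (L : List (PS T n × B)) (t : ℤ) :
    ((@psi G B _ _ (subAct B hB) ι T n L t : B) : M) =
      psi (L.map fun x => (x.1, (x.2 : M))) t := by
  let _ : DistribMulAction G B := subAct B hB
  induction L with
  | nil => rfl
  | cons x L ih =>
    rw [psi_cons, List.map_cons, psi_cons, ← ih]
    rfl

theorem psi_filter [DecidablePred fun x : PS T n × M => x.2 ≠ 0] (L : List (PS T n × M))
    (t : ℤ) :
    psi (L.filter fun x => decide (x.2 ≠ 0)) t = psi L t := by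
  induction L with
  | nil => rfl
  | cons x L ih =>
    by_cases hx : x.2 = 0
    · rw [List.filter_cons_of_neg (by simpa using hx), ih, psi_cons, hx, smul_zero, zero_add]
    · rw [List.filter_cons_of_pos (by simpa using hx), psi_cons, psi_cons, ih]

end psi

section chr

variable {X : Type} [CommGroup X] [TopologicalSpace X]

/-- automorphisms -/
def IsAut (g : Equiv.Perm X) : Prop := (∀ x y, g (x * y) = g x * g y) ∧ Continuous g

theorem IsAut.one : IsAut (1 : Equiv.Perm X) := ⟨fun _ _ => rfl, continuous_id⟩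

theorem IsAut.mul {g h : Equiv.Perm X} (hg : IsAut g) (hh : IsAut h) : IsAut (g * h) :=
  ⟨fun x y => by rw [Equiv.Perm.mul_apply, Equiv.Perm.mul_apply, Equiv.Perm.mul_apply, hh.1, hg.1],
    hg.2.comp hh.2⟩

theorem IsAut.inv [CompactSpace X] [T2Space X] {g : Equiv.Perm X} (hg : IsAut g) :
    IsAut g⁻¹ := by
  refine ⟨fun x y => ?_, ?_⟩
  · apply g.injective
    have h : ∀ z, g (g⁻¹ z) = z := fun z => Equiv.apply_symm_apply g z
    rw [hg.1, h, h, h]
  · exact (Continuous.homeoOfEquivCompactToT2 (f := (g : X ≃ X)) hg.2).symm.continuous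

theorem IsAut.map_one {g : Equiv.Perm X} (hg : IsAut g) : g 1 = 1 := by
  have h := hg.1 1 1
  rw [mul_one] at h
  exact (mul_eq_left.1 h.symm)

theorem IsAut.map_inv {g : Equiv.Perm X} (hg : IsAut g) (x : X) : g x⁻¹ = (g x)⁻¹ := by
  rw [eq_inv_iff_mul_eq_one, ← hg.1, inv_mul_cancel, hg.map_one]

theorem IsAut.pow {g : Equiv.Perm X} (hg : IsAut g) (k : ℕ) : IsAut (g ^ k) := by
  induction k with
  | zero =>
    rw [pow_zero]
    exact IsAut.one
  | succ k ih =>
    rw [pow_succ]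
    exact ih.mul hg

/-- composition of a character with an automorphism -/
def chc {g : Equiv.Perm X} (hg : IsAut g) (χ : X →ₜ* Circle) : X →ₜ* Circle :=
  ⟨MonoidHom.mk' (fun x => χ (g x)) fun x y => by rw [hg.1, map_mul],
    χ.continuous_toFun.comp hg.2⟩

theorem chc_apply {g : Equiv.Perm X} (hg : IsAut g) (χ : X →ₜ* Circle) (x : X) :
    chc hg χ x = χ (g x) := rfl

theorem chB_inj {χ χ' : X →ₜ* Circle} (h : chB χ = chB χ') : χ = χ' := by
  ext x
  exact congrArg Subtype.val (congrFun (congrArg Additive.toMul h) x)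

/-- the characters -/
def Chr (X : Type) [CommGroup X] [TopologicalSpace X] : AddSubgroup (BB X) where
  carrier := {u | ∃ χ : X →ₜ* Circle, u = chB χ}
  zero_mem' := ⟨1, rfl⟩
  add_mem' := by
    rintro _ _ ⟨χ, rfl⟩ ⟨χ', rfl⟩
    exact ⟨χ * χ', rfl⟩
  neg_mem' := by
    rintro _ ⟨χ, rfl⟩
    exact ⟨χ⁻¹, rfl⟩

variable {Γ : Subgroup (Equiv.Perm X)}

theorem chr_stb (hΓ : ∀ g ∈ Γ, IsAut g) : Stb Γ (Chr X) := by
  rintro g _ ⟨χ, rfl⟩
  exact ⟨chc (hΓ _ (g⁻¹).2) χ, rfl⟩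

theorem chr_free (hΓ : ∀ g ∈ Γ, IsAut g) (hfree : ∀ g : Γ, g ≠ 1 → ∀ χ : X →ₜ* Circle,
      (∀ x, χ ((g : Equiv.Perm X) x) = χ x) → χ = 1) (g : Γ) (hg : g ≠ 1) (u : Chr X)
    (hu : @HSMul.hSMul Γ (Chr X) (Chr X) (@instHSMul _ _ (subAct _ (chr_stb hΓ)).toSMul) g u = u) :
    u = 0 := by
  obtain ⟨_, χ, rfl⟩ := u
  have h1 : ∀ x, χ (((g⁻¹ : Γ) : Equiv.Perm X) x) = χ x := by
    intro x
    have h2 := congrArg Subtype.val hu
    exact congrFun (congrArg Additive.toMul h2) x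
  have h2 : χ = 1 := hfree g⁻¹ (inv_ne_one.2 hg) χ h1
  apply Subtype.ext
  show chB χ = 0
  rw [h2]
  rfl

variable [IsTopologicalGroup X] [CompactSpace X] [T2Space X] {ι : Type} {T : ι → Γ} {D : ℕ}
  [Finite ι] [Group.IsNilpotent Γ]

/-- few coincidences for products of characters -/
theorem few_chr (hΓ : ∀ g ∈ Γ, IsAut g) (hD : 1 ≤ D)
    (hT : Subgroup.closure (Set.range T) = ⊤) (hG : TorsionFree Γ)
    (hfree : ∀ g : Γ, g ≠ 1 → ∀ χ : X →ₜ* Circle,
      (∀ x, χ ((g : Equiv.Perm X) x) = χ x) → χ = 1) {m : ℕ} {b : Fin m → PS T D}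
    {𝓕 : Flt T D} (hb : ∀ j, b j ∉ 𝓕.H 0) (hbb : ∀ i j, i ≠ j → (b i)⁻¹ * b j ∉ 𝓕.H 0)
    {χ : Fin m → X →ₜ* Circle} (hχ : ∃ j, χ j ≠ 1) :
    (∃ C δ : ℝ, 0 < C ∧ 0 < δ ∧ ∀ w : BB X,
      ZB (fun t => psi (List.ofFn fun j => (b j, chB (χ j))) t - w) C δ) ∧
    ∃ C δ : ℝ, 0 < C ∧ 0 < δ ∧ ∀ w : BB X,
      ZB (fun t => psi (List.ofFn fun j => (b j, chB (χ j))) (-t) - w) C δ := by
  classical
  let _ : DistribMulAction Γ (Chr X) := subAct _ (chr_stb hΓ)
  let L₀ : List (PS T D × Chr X) := List.ofFn fun j => (b j, ⟨chB (χ j), χ j, rfl⟩)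
  let L : List (PS T D × Chr X) := L₀.filter fun x => decide (x.2 ≠ 0)
  have hval : ∀ t, ((psi L t : Chr X) : BB X) =
      psi (List.ofFn fun j => (b j, chB (χ j))) t := by
    intro t
    have h1 : psi L t = psi L₀ t := psi_filter L₀ t
    rw [h1, coe_psi (Chr X) (chr_stb hΓ)]
    congr 1
    rw [List.map_ofFn]
    rfl
  have hmem : ∀ x ∈ L₀, ∃ j, x.1 = b j := by
    intro x hx
    rw [List.mem_ofFn] at hx
    obtain ⟨j, rfl⟩ := hx
    exact ⟨j, rfl⟩
  have hR : Red 𝓕 L := by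
    refine ⟨?_, ?_⟩
    · intro x hx
      have := (List.mem_filter.1 hx).2
      simpa using this
    · apply List.Pairwise.filter
      rw [List.pairwise_ofFn]
      intro i j hij
      exact hbb i j hij.ne
  have hL : L ≠ [] := by
    obtain ⟨j, hj⟩ := hχ
    apply List.ne_nil_of_mem (a := (b j, ⟨chB (χ j), χ j, rfl⟩))
    rw [List.mem_filter]
    refine ⟨?_, ?_⟩
    · rw [List.mem_ofFn]
      exact ⟨j, rfl⟩
    · rw [decide_eq_true_iff]
      intro h
      apply hj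
      apply chB_inj
      have h1 := congrArg Subtype.val h
      exact h1
  have h0 : ∀ x ∈ L, x.1 ∉ 𝓕.H 0 := by
    intro x hx
    obtain ⟨j, hj⟩ := hmem x (List.mem_filter.1 hx).1
    rw [hj]
    exact hb j
  have hfr := chr_free hΓ hfree
  have key : ∀ (f : ℤ → Chr X) (f' : ℤ → BB X), (∀ t, (f t : BB X) = f' t) →
      (∃ C δ : ℝ, 0 < C ∧ 0 < δ ∧ ∀ w : Chr X, ZB (fun t => f t - w) C δ) →
      ∃ C δ : ℝ, 0 < C ∧ 0 < δ ∧ ∀ w : BB X, ZB (fun t => f' t - w) C δ := by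
    rintro f f' hff ⟨C, δ, hC, hδ, h⟩
    refine ⟨C, δ, hC, hδ, fun w N hN Z hZ => ?_⟩
    by_cases hZe : Z = ∅
    · rw [hZe, Finset.card_empty, Nat.cast_zero]
      positivity
    · obtain ⟨t₀, ht₀⟩ := Finset.nonempty_iff_ne_empty.mpr hZe
      have h1 : (f (t₀ : ℤ) : BB X) = w := by
        rw [hff]
        exact sub_eq_zero.1 (hZ t₀ ht₀).2
      refine h (f (t₀ : ℤ)) N hN Z fun t ht => ⟨(hZ t ht).1, ?_⟩
      have h2 : f' (t : ℤ) = w := sub_eq_zero.1 (hZ t ht).2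
      show f (t : ℤ) - f (t₀ : ℤ) = 0
      rw [sub_eq_zero]
      apply Subtype.ext
      rw [h1, hff, h2]
  refine ⟨key (psi L) _ hval (few hD hT hG hfr hR hL h0), ?_⟩
  refine key (fun t => psi L (-t)) _ (fun t => hval (-t)) ?_
  have hL' : dilL 0 (-1) L ≠ [] := fun h => hL (List.map_eq_nil_iff.1 h)
  obtain ⟨C, δ, hC, hδ, h⟩ := few hD hT hG hfr (red_dilL' hR) hL' (by
    intro x hx
    obtain ⟨y, hy, rfl⟩ := List.mem_map.1 hx
    exact dil_H0' (h0 y hy))
  refine ⟨C, δ, hC, hδ, fun w => ?_⟩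
  have e : (fun t => psi L (-t) - w) = fun t => psi (dilL 0 (-1) L) t - w := by
    funext t
    rw [psi_dilL]
    congr 2
    ring
  rw [e]
  exact h w

end chr

section erg

variable {X : Type} [CommGroup X] [TopologicalSpace X] [IsTopologicalGroup X] [CompactSpace X]
  [T2Space X] [MeasurableSpace X] [BorelSpace X] {μ : Measure X} [μ.IsHaarMeasure]
  [IsProbabilityMeasure μ]

theorem chr_orth {χ χ' : X →ₜ* Circle} (h : χ ≠ χ') : ∫ x, (χ x : ℂ) * conj (χ' x : ℂ) ∂μ = 0 := by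
  refine int_ac (f := χ) (g := χ') ⟨χ, 1, fun x => (one_mul _).symm⟩
    ⟨χ', 1, fun x => (one_mul _).symm⟩ ?_
  rintro ⟨c, hc⟩
  apply h
  have h1 := hc 1
  rw [map_one, map_one, mul_one] at h1
  ext x
  rw [hc x, ← h1, one_mul]

theorem chr_int {χ : X →ₜ* Circle} (h : χ ≠ 1) : ∫ x, (χ x : ℂ) ∂μ = 0 := by
  have h1 := chr_orth (μ := μ) h
  rw [← h1]
  congr 1
  funext x
  have e : ((1 : X →ₜ* Circle) x : ℂ) = 1 := Circle.coe_one
  rw [e, map_one, mul_one]

theorem chr_self (χ : X →ₜ* Circle) : ∫ x, (χ x : ℂ) * conj (χ x : ℂ) ∂μ = 1 := by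
  have e : ∀ x, (χ x : ℂ) * conj (χ x : ℂ) = 1 := by
    intro x
    rw [← Circle.coe_inv_eq_conj, ← Circle.coe_mul, mul_inv_cancel, Circle.coe_one]
  simp [e]

theorem chr_cont (χ : X →ₜ* Circle) : Continuous fun x => (χ x : ℂ) :=
  continuous_subtype_val.comp χ.continuous_toFun

/-- ergodic automorphisms have no periodic characters -/
theorem erg_chr {γ : Equiv.Perm X} (hγ : IsAut γ) (he : Ergodic γ μ) {k : ℕ} (hk : 0 < k)
    (χ : X →ₜ* Circle) (h : ∀ x, χ ((γ ^ k) x) = χ x) : χ = 1 := by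
  classical
  by_contra hχ
  let f : X → ℂ := fun x => ∑ i ∈ Finset.range k, (χ ((γ ^ i) x) : ℂ)
  have hc : ∀ i : ℕ, Continuous fun x => (χ ((γ ^ i) x) : ℂ) := fun i =>
    chr_cont (chc (hγ.pow i) χ)
  have hfc : Continuous f := continuous_finsetSum _ fun i _ => hc i
  have hinv : f ∘ γ = f := by
    funext x
    show ∑ i ∈ Finset.range k, (χ ((γ ^ i) (γ x)) : ℂ) = _
    have e : ∀ i, (γ ^ i) (γ x) = (γ ^ (i + 1)) x := by
      intro i
      rw [pow_succ, Equiv.Perm.mul_apply]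
    simp only [e]
    have h1 := Finset.sum_range_succ' (fun i => (χ ((γ ^ i) x) : ℂ)) k
    have h2 := Finset.sum_range_succ (fun i => (χ ((γ ^ i) x) : ℂ)) k
    rw [h2, h, pow_zero, Equiv.Perm.one_apply] at h1
    exact (add_right_cancel h1).symm
  obtain ⟨c, hc'⟩ := he.ae_eq_const_of_ae_eq_comp_ae hfc.aestronglyMeasurable
    (Eventually.of_forall fun x => congrFun hinv x)
  have hne : ∀ i, chc (hγ.pow i) χ ≠ 1 := by
    intro i h1
    apply hχ
    ext x
    have h2 : chc (hγ.pow i) χ ((γ ^ i)⁻¹ x) = (1 : X →ₜ* Circle) ((γ ^ i)⁻¹ x) := by rw [h1]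
    have h3 : (γ ^ i) ((γ ^ i)⁻¹ x) = x := Equiv.apply_symm_apply (γ ^ i) x
    rw [chc_apply, h3] at h2
    rw [h2]
    rfl
  have hint : ∀ {u : X → ℂ}, Continuous u → Integrable u μ := fun hu =>
    hu.integrable_of_hasCompactSupport (HasCompactSupport.of_compactSpace _)
  have h0 : ∫ x, f x ∂μ = 0 := by
    rw [integral_finsetSum _ fun i _ => hint (hc i)]
    exact Finset.sum_eq_zero fun i _ => chr_int (μ := μ) (hne i)
  have hc0 : c = 0 := by
    have h1 : ∫ x, f x ∂μ = c := by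
      rw [integral_congr_ae hc']
      simp
    rw [← h1, h0]
  have h1 : ∫ x, f x * conj (χ x : ℂ) ∂μ = 0 := by
    have h2 : (fun x => f x * conj (χ x : ℂ)) =ᵐ[μ] fun _ => 0 := by
      filter_upwards [hc'] with x hx
      rw [hx, hc0]
      simp
    rw [integral_congr_ae h2]
    simp
  have h2 : ∫ x, f x * conj (χ x : ℂ) ∂μ =
      ((((Finset.range k).filter fun i => chc (hγ.pow i) χ = χ).card : ℕ) : ℂ) := by
    have e : (fun x => f x * conj (χ x : ℂ)) = fun x =>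
        ∑ i ∈ Finset.range k, (χ ((γ ^ i) x) : ℂ) * conj (χ x : ℂ) := by
      funext x
      rw [Finset.sum_mul]
    have hcc : Continuous fun x => conj (χ x : ℂ) := Complex.continuous_conj.comp (chr_cont χ)
    have hii : ∀ i ∈ Finset.range k, Integrable (fun x => (χ ((γ ^ i) x) : ℂ) * conj (χ x : ℂ)) μ :=
      fun i _ => hint ((hc i).mul hcc)
    rw [e, integral_finsetSum _ hii, Finset.card_filter]
    rw [Nat.cast_sum]
    refine Finset.sum_congr rfl fun i _ => ?_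
    rw [Nat.cast_ite, Nat.cast_one, Nat.cast_zero]
    by_cases hi : chc (hγ.pow i) χ = χ
    · rw [if_pos hi]
      have h3 := chr_self (μ := μ) χ
      rw [← h3]
      congr 1
      funext x
      have h4 : chc (hγ.pow i) χ x = χ x := by rw [hi]
      have h5 : ((χ ((γ ^ i) x) : Circle) : ℂ) = (χ x : ℂ) := congrArg _ h4
      exact congrArg (fun c : ℂ => c * conj (χ x : ℂ)) h5
    · rw [if_neg hi]
      exact chr_orth (μ := μ) hi
  rw [h1] at h2
  have h3 : ((Finset.range k).filter fun i => chc (hγ.pow i) χ = χ).card = 0 := by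
    exact_mod_cast h2.symm
  rw [Finset.card_eq_zero] at h3
  have h4 : 0 ∈ (Finset.range k).filter fun i => chc (hγ.pow i) χ = χ := by
    rw [Finset.mem_filter]
    refine ⟨Finset.mem_range.2 hk, ?_⟩
    ext x
    rw [chc_apply, pow_zero, Equiv.Perm.one_apply]
  rw [h3] at h4
  exact absurd h4 (Finset.notMem_empty _)

variable {Γ : Subgroup (Equiv.Perm X)}

theorem erg_free (hΓ : ∀ g ∈ Γ, IsAut g) (he : ∀ g ∈ Γ, g ≠ 1 → Ergodic g μ) (g : Γ) (hg : g ≠ 1)
    (χ : X →ₜ* Circle) (h : ∀ x, χ ((g : Equiv.Perm X) x) = χ x) : χ = 1 := by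
  refine erg_chr (μ := μ) (hΓ g g.2) (he g g.2 fun h1 => hg (Subtype.ext h1)) one_pos χ ?_
  intro x
  rw [pow_one]
  exact h x

theorem erg_tf (hΓ : ∀ g ∈ Γ, IsAut g) (he : ∀ g ∈ Γ, g ≠ 1 → Ergodic g μ) : TorsionFree Γ := by
  intro g k hk hgk
  by_contra hg
  apply hg
  apply Subtype.ext
  apply Equiv.ext
  intro x
  have hX : ∀ y : X, y = 1 := by
    intro y
    by_contra hy
    obtain ⟨χ, hχ⟩ := Pool.LatH472.chars y hy
    apply hχ
    have h1 : χ = 1 := by
      refine erg_chr (μ := μ) (hΓ g g.2) (he g g.2 fun h1 => hg (Subtype.ext h1)) hk χ ?_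
      intro x
      have h2 : ((g : Equiv.Perm X) ^ k) = 1 := by
        have := congrArg Subtype.val hgk
        exact this
      rw [h2, Equiv.Perm.one_apply]
    rw [h1]
    rfl
  rw [hX x, hX ((g : Equiv.Perm X) 1)]
  rfl

end erg

end

end Pool.Agent.W5h43.NA
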