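import Pool.Agent.TH739.PA.Act

/-!
# Closure properties in one slot
(adapted from `Pool/Agent/TH739/PA/Base.lean`)
-/

set_option autoImplicit false
set_option linter.unusedSectionVars false

open Filter Topology MeasureTheory Set

noncomputable section

namespace Pool.Agent.W5h43.NA

open Pool.Agent.TH739.PA (avr avr_add avr_sub avr_mul avr_mono avr_nonneg avr_const_le
  avr_abs avr_bound av_norm Cls Cls_zero Good closed_slot bar bar_norm bar_BM bar_add bar_mul
  pr pr_update bar_update PZ int_fst int_snd sec_int)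
open Pool.Agent.W761.Gauss (BM)

section clo

variable {X Y : Type} [MeasurableSpace X] [MeasurableSpace Y]
  {μ : Measure X} {ν : Measure Y} {m : ℕ} {I ι : Type*} {𝔣 : Filter I} {Bx : I → Finset ι}

/-- a bound for the other factors -/
theorem exists_bd {g : Fin m → ι → X × Y → X × Y} {F : Fin m → X × Y → ℂ} (hF : ∀ j, BM (F j))
    [IsProbabilityMeasure ν] (k : Fin m) : ∃ D : ℝ, 0 ≤ D ∧
      (∀ (n : ι) (z : X × Y), ‖∏ l ∈ Finset.univ.erase k, F l (g l n z)‖ ≤ D) ∧
      (∀ (n : ι) (z : X × Y), ‖∏ l ∈ Finset.univ.erase k, bar ν (F l) (g l n z)‖ ≤ D) := by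
  choose hFm CF hCF using hF
  refine ⟨∏ l ∈ Finset.univ.erase k, (|CF l| + 1), Finset.prod_nonneg fun l _ => by positivity,
    ?_, ?_⟩
  · intro n z
    rw [norm_prod]
    refine Finset.prod_le_prod (fun l _ => norm_nonneg _) fun l _ => ?_
    exact ((hCF l _).trans (le_abs_self _)).trans (by linarith)
  · intro n z
    rw [norm_prod]
    refine Finset.prod_le_prod (fun l _ => norm_nonneg _) fun l _ => ?_
    exact ((bar_norm (hCF l) _).trans (le_abs_self _)).trans (by linarith)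

theorem PZ_add [IsProbabilityMeasure ν] {g : Fin m → ι → X × Y → X × Y} {F : Fin m → X × Y → ℂ}
    {k : Fin m} {f f' : X × Y → ℂ} (hf : BM f) (hf' : BM f')
    (h1 : PZ 𝔣 Bx μ ν g (Function.update F k f)) (h2 : PZ 𝔣 Bx μ ν g (Function.update F k f')) :
    PZ 𝔣 Bx μ ν g (Function.update F k (f + f')) := by
  filter_upwards [h1, h2] with z hz hz'
  have h3 := hz.add hz'
  rw [add_zero] at h3
  refine h3.congr fun N => ?_
  rw [← Pool.Agent.TH739.PA.av_add]
  congr 1
  funext n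
  rw [bar_update, bar_update, bar_update, pr_update, pr_update, pr_update, pr_update,
    pr_update, pr_update, Pi.add_apply, bar_add hf hf']
  ring

theorem PZ_smul {g : Fin m → ι → X × Y → X × Y} {F : Fin m → X × Y → ℂ}
    {k : Fin m} (c : ℂ) {f : X × Y → ℂ}
    (h1 : PZ 𝔣 Bx μ ν g (Function.update F k f)) :
    PZ 𝔣 Bx μ ν g (Function.update F k (fun z => c * f z)) := by
  filter_upwards [h1] with z hz
  have h3 := hz.const_mul c
  rw [mul_zero] at h3
  refine h3.congr fun N => ?_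
  rw [← Pool.Agent.TH739.PA.av_mul]
  congr 1
  funext n
  rw [bar_update, bar_update, pr_update, pr_update, pr_update, pr_update, bar_mul]
  ring

theorem PZ_closed1 [𝔣.NeBot] [𝔣.IsCountablyGenerated] [IsProbabilityMeasure μ] [IsProbabilityMeasure ν]
    {g : Fin m → ι → X × Y → X × Y}
    (hg : ∀ j n, MeasurePreserving (g j n) (μ.prod ν) (μ.prod ν))
    
    {F : Fin m → X × Y → ℂ} (hF : ∀ j, BM (F j)) (k : Fin m)
    (hgood : Good 𝔣 Bx (μ.prod ν) (g k)) {h : X × Y → ℂ} (hh : BM h)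
    (H : ∀ ε : ℝ, 0 < ε → ∃ h' : X × Y → ℂ, BM h' ∧ ∫ z, ‖h z - h' z‖ ∂(μ.prod ν) ≤ ε ∧
      PZ 𝔣 Bx μ ν g (Function.update F k h')) : PZ 𝔣 Bx μ ν g (Function.update F k h) := by
  choose hFm CF hCF using hF
  set D : ℝ := ∏ l ∈ Finset.univ.erase k, (|CF l| + 1) with hD
  have hD0 : 0 ≤ D := Finset.prod_nonneg fun l _ => by positivity
  have hR : ∀ (n : ι) (z : X × Y), ‖∏ l ∈ Finset.univ.erase k, F l (g l n z)‖ ≤ D := by
    intro n z
    rw [norm_prod]
    refine Finset.prod_le_prod (fun l _ => norm_nonneg _) fun l _ => ?_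
    exact ((hCF l _).trans (le_abs_self _)).trans (by linarith)
  have hR' : ∀ (n : ι) (z : X × Y), ‖∏ l ∈ Finset.univ.erase k, bar ν (F l) (g l n z)‖ ≤ D := by
    intro n z
    rw [norm_prod]
    refine Finset.prod_le_prod (fun l _ => norm_nonneg _) fun l _ => ?_
    exact ((bar_norm (hCF l) _).trans (le_abs_self _)).trans (by linarith)
  let Λ : (X × Y → ℂ) → I → X × Y → ℂ := fun h N z => Pool.Agent.TH739.PA.av (Bx N) fun n =>
    h (g k n z) * ∏ l ∈ Finset.univ.erase k, F l (g l n z) -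
      bar ν h (g k n z) * ∏ l ∈ Finset.univ.erase k, bar ν (F l) (g l n z)
  have hΛ : ∀ h z, (fun N : I => Pool.Agent.TH739.PA.av (Bx N) fun n =>
      pr g (Function.update F k h) n z - pr g (fun l => bar ν (Function.update F k h l)) n z) =
      fun N => Λ h N z := by
    intro h z
    funext N
    show _ = Pool.Agent.TH739.PA.av _ _
    congr 1
    funext n
    rw [bar_update, pr_update, pr_update]
  have hmain := closed_slot (μ := μ.prod ν) (Cls_zero 𝔣)
    (B := Bx) (g := g k) (hg k) hgood (Λ := Λ) hD0 (h := h)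
    (fun ε hε => by
      obtain ⟨h', hB, hi, hP⟩ := H ε hε
      refine ⟨h', hB, hi, ?_⟩
      filter_upwards [hP] with z hz
      rw [hΛ] at hz
      exact hz) ?_
  · filter_upwards [hmain] with z hz
    rw [hΛ]
    exact hz
  intro h' hh'
  obtain ⟨hhm, Ch, hCh⟩ := id hh
  obtain ⟨hhm', Ch', hCh'⟩ := id hh'
  let φ : X × Y → ℝ := fun z => ‖h z - h' z‖
  have hφm : Measurable φ := (hhm.sub hhm').norm
  have hφ0 : ∀ z, 0 ≤ φ z := fun z => norm_nonneg _
  have hφC : ∀ z, φ z ≤ Ch + Ch' := fun z => (norm_sub_le _ _).trans (add_le_add (hCh z) (hCh' z))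
  have hC0 : ∀ z : X × Y, 0 ≤ Ch + Ch' := fun z => (hφ0 z).trans (hφC z)
  let ψ : X → ℝ := fun x => ∫ y, φ (x, y) ∂ν
  have hψm : Measurable ψ :=
    (StronglyMeasurable.integral_prod_right' (ν := ν) hφm.stronglyMeasurable).measurable
  have hψ0 : ∀ x, 0 ≤ ψ x := fun x => integral_nonneg fun y => hφ0 _
  have hψC : ∀ z : X × Y, ψ z.1 ≤ Ch + Ch' := by
    intro z
    have h1 := norm_integral_le_of_norm_le_const (μ := ν) (f := fun y => φ (z.1, y))
      (C := Ch + Ch') (Eventually.of_forall fun y => by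
        rw [Real.norm_of_nonneg (hφ0 _)]
        exact hφC _)
    rw [Real.norm_of_nonneg (integral_nonneg fun y => hφ0 _)] at h1
    simpa [ψ] using h1
  have hφi : Integrable φ (μ.prod ν) := Integrable.of_bound hφm.aestronglyMeasurable (Ch + Ch')
    (Eventually.of_forall fun z => by
      rw [Real.norm_of_nonneg (hφ0 _)]
      exact hφC _)
  have hψi : Integrable (fun z : X × Y => ψ z.1) (μ.prod ν) :=
    Integrable.of_bound (hψm.comp measurable_fst).aestronglyMeasurable (Ch + Ch')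
    (Eventually.of_forall fun z => by
      rw [Real.norm_of_nonneg (hψ0 _)]
      exact hψC _)
  refine ⟨fun z => φ z + ψ z.1, hφm.add (hψm.comp measurable_fst),
    ⟨(Ch + Ch') + (Ch + Ch'), fun z => ?_⟩, fun z => add_nonneg (hφ0 _) (hψ0 _), ?_, ?_⟩
  · rw [abs_of_nonneg (add_nonneg (hφ0 _) (hψ0 _))]
    exact add_le_add (hφC z) (hψC z)
  · have e1 : ∫ z, (φ z + ψ z.1) ∂(μ.prod ν) = ∫ z, φ z ∂(μ.prod ν) + ∫ z, ψ z.1 ∂(μ.prod ν) :=
      integral_add hφi hψi
    rw [e1, int_fst, integral_prod φ hφi]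
    show ∫ x, ψ x ∂μ + ∫ x, ψ x ∂μ ≤ 2 * ∫ x, ψ x ∂μ
    linarith
  · intro N z
    show ‖Pool.Agent.TH739.PA.av _ _ - Pool.Agent.TH739.PA.av _ _‖ ≤ _
    rw [← Pool.Agent.TH739.PA.av_sub, ← avr_mul]
    refine (av_norm _ _).trans (avr_mono fun n _ => ?_)
    have e2 : h (g k n z) * ∏ l ∈ Finset.univ.erase k, F l (g l n z) -
        bar ν h (g k n z) * ∏ l ∈ Finset.univ.erase k, bar ν (F l) (g l n z) -
        (h' (g k n z) * ∏ l ∈ Finset.univ.erase k, F l (g l n z) -
        bar ν h' (g k n z) * ∏ l ∈ Finset.univ.erase k, bar ν (F l) (g l n z)) =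
        (h (g k n z) - h' (g k n z)) * (∏ l ∈ Finset.univ.erase k, F l (g l n z)) -
        (bar ν h (g k n z) - bar ν h' (g k n z)) *
          ∏ l ∈ Finset.univ.erase k, bar ν (F l) (g l n z) := by ring
    rw [e2]
    refine (norm_sub_le _ _).trans ?_
    rw [norm_mul, norm_mul, mul_add]
    refine add_le_add ?_ ?_
    · rw [mul_comm]
      exact mul_le_mul_of_nonneg_right (hR n z) (norm_nonneg _)
    · have h5 : ‖bar ν h (g k n z) - bar ν h' (g k n z)‖ ≤ ψ (g k n z).1 := by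
        unfold bar
        rw [← integral_sub (sec_int hh _) (sec_int hh' _)]
        exact norm_integral_le_integral_norm _
      rw [mul_comm]
      exact mul_le_mul (hR' n z) h5 (norm_nonneg _) hD0

/-- Closure in one slot with a majorant. -/
theorem PZ_maj [Countable ι] [IsProbabilityMeasure μ] [IsProbabilityMeasure ν]
    {g : Fin m → ι → X × Y → X × Y}
    (hg : ∀ j n, MeasurePreserving (g j n) (μ.prod ν) (μ.prod ν))
    {F : Fin m → X × Y → ℂ} (hF : ∀ j, BM (F j)) (k : Fin m) {h : X × Y → ℂ} (hh : BM h)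
    (H : ∀ ε : ℝ, 0 < ε → ∃ (h' : X × Y → ℂ) (K : X × Y → ℝ), BM h' ∧ Measurable K ∧
      (∃ C : ℝ, ∀ z, |K z| ≤ C) ∧ (∀ᵐ z ∂(μ.prod ν), ‖h z - h' z‖ ≤ K z) ∧
      (∀ᵐ x ∂μ, ∫ y, K (x, y) ∂ν ≤ ε) ∧
      (∀ᵐ z ∂(μ.prod ν), Tendsto (fun N => avr (Bx N) fun n =>
        K (g k n z) - ∫ y, K ((g k n z).1, y) ∂ν) 𝔣 (𝓝 0)) ∧
      PZ 𝔣 Bx μ ν g (Function.update F k h')) : PZ 𝔣 Bx μ ν g (Function.update F k h) := by
  obtain ⟨D, hD0, hR, hR'⟩ := exists_bd (g := g) hF (ν := ν) k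
  have hε : ∀ i : ℕ, (0 : ℝ) < 1 / ((i : ℝ) + 1) := fun i => by positivity
  choose h' K hB hKm hKb hK hKi hKc hP using fun i : ℕ => H (1 / ((i : ℝ) + 1)) (hε i)
  have a1 : ∀ᵐ z ∂(μ.prod ν), ∀ (i : ℕ) (n : ι), ‖h (g k n z) - h' i (g k n z)‖ ≤ K i (g k n z) := by
    rw [ae_all_iff]
    intro i
    rw [ae_all_iff]
    intro n
    exact (hg k n).quasiMeasurePreserving.ae (hK i)
  have a2 : ∀ i : ℕ, ∀ᵐ x ∂μ, (∫ y, K i (x, y) ∂ν ≤ 1 / ((i : ℝ) + 1)) ∧
      ∀ᵐ y ∂ν, ‖h (x, y) - h' i (x, y)‖ ≤ K i (x, y) := fun i =>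
    (hKi i).and (Measure.ae_ae_of_ae_prod (hK i))
  have a3 : ∀ᵐ z ∂(μ.prod ν), ∀ (i : ℕ) (n : ι),
      (∫ y, K i ((g k n z).1, y) ∂ν ≤ 1 / ((i : ℝ) + 1)) ∧
      ∀ᵐ y ∂ν, ‖h ((g k n z).1, y) - h' i ((g k n z).1, y)‖ ≤ K i ((g k n z).1, y) := by
    rw [ae_all_iff]
    intro i
    rw [ae_all_iff]
    intro n
    exact (hg k n).quasiMeasurePreserving.ae (Measure.quasiMeasurePreserving_fst.ae (a2 i))
  have a4 : ∀ᵐ z ∂(μ.prod ν), ∀ i : ℕ, Tendsto (fun N => avr (Bx N) fun n =>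
        K i (g k n z) - ∫ y, K i ((g k n z).1, y) ∂ν) 𝔣 (𝓝 0) := by
    rw [ae_all_iff]
    exact hKc
  have a5 : ∀ᵐ z ∂(μ.prod ν), ∀ i : ℕ, Tendsto (fun N : I => Pool.Agent.TH739.PA.av (Bx N) fun n =>
      h' i (g k n z) * ∏ l ∈ Finset.univ.erase k, F l (g l n z) -
      bar ν (h' i) (g k n z) * ∏ l ∈ Finset.univ.erase k, bar ν (F l) (g l n z)) 𝔣 (𝓝 0) := by
    rw [ae_all_iff]
    intro i
    filter_upwards [hP i] with z hz
    refine hz.congr fun N => ?_
    congr 1
    funext n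
    rw [bar_update, pr_update, pr_update]
  filter_upwards [a1, a3, a4, a5] with z h1 h3 h4 h5
  have hS := Cls_zero 𝔣
  have goal : (fun N : I => Pool.Agent.TH739.PA.av (Bx N) fun n =>
      h (g k n z) * ∏ l ∈ Finset.univ.erase k, F l (g l n z) -
      bar ν h (g k n z) * ∏ l ∈ Finset.univ.erase k, bar ν (F l) (g l n z)) ∈
      {u : I → ℂ | Tendsto u 𝔣 (𝓝 0)} := by
    refine hS.closed _ fun ε hε0 => ?_
    obtain ⟨i, hi⟩ := exists_nat_one_div_lt (show (0 : ℝ) < ε / (3 * D + 1) by positivity)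
    refine ⟨_, h5 i, ?_⟩
    have hi0 := hε i
    set δ : ℝ := 1 / ((i : ℝ) + 1) with hδ
    have hint : ∀ x : X, Integrable (fun y => K i (x, y)) ν := by
      intro x
      obtain ⟨C, hC⟩ := hKb i
      exact Integrable.of_bound ((hKm i).comp measurable_prodMk_left).aestronglyMeasurable C
        (Eventually.of_forall fun y => hC _)
    filter_upwards [(tendsto_order.mp (h4 i)).2 _ hi0] with N hN
    rw [← Pool.Agent.TH739.PA.av_sub]
    refine (av_norm _ _).trans ?_
    have key : ∀ n ∈ Bx N, ‖h (g k n z) * ∏ l ∈ Finset.univ.erase k, F l (g l n z) -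
        bar ν h (g k n z) * ∏ l ∈ Finset.univ.erase k, bar ν (F l) (g l n z) -
        (h' i (g k n z) * ∏ l ∈ Finset.univ.erase k, F l (g l n z) -
        bar ν (h' i) (g k n z) * ∏ l ∈ Finset.univ.erase k, bar ν (F l) (g l n z))‖ ≤
        D * (K i (g k n z) - ∫ y, K i ((g k n z).1, y) ∂ν) + 2 * D * δ := by
      intro n _
      have e2 : h (g k n z) * ∏ l ∈ Finset.univ.erase k, F l (g l n z) -
          bar ν h (g k n z) * ∏ l ∈ Finset.univ.erase k, bar ν (F l) (g l n z) -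
          (h' i (g k n z) * ∏ l ∈ Finset.univ.erase k, F l (g l n z) -
          bar ν (h' i) (g k n z) * ∏ l ∈ Finset.univ.erase k, bar ν (F l) (g l n z)) =
          (h (g k n z) - h' i (g k n z)) * (∏ l ∈ Finset.univ.erase k, F l (g l n z)) -
          (bar ν h (g k n z) - bar ν (h' i) (g k n z)) *
            ∏ l ∈ Finset.univ.erase k, bar ν (F l) (g l n z) := by ring
      rw [e2]
      refine (norm_sub_le _ _).trans ?_
      rw [norm_mul, norm_mul]
      have b1 : ‖bar ν h (g k n z) - bar ν (h' i) (g k n z)‖ ≤ ∫ y, K i ((g k n z).1, y) ∂ν := by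
        unfold bar
        rw [← integral_sub (sec_int hh _) (sec_int (hB i) _)]
        refine (norm_integral_le_integral_norm _).trans ?_
        exact integral_mono_ae ((sec_int hh _).sub (sec_int (hB i) _)).norm (hint _) (h3 i n).2
      have b2 : ‖h (g k n z) - h' i (g k n z)‖ * ‖∏ l ∈ Finset.univ.erase k, F l (g l n z)‖ ≤
          K i (g k n z) * D :=
        mul_le_mul (h1 i n) (hR n z) (norm_nonneg _) ((norm_nonneg _).trans (h1 i n))
      have b3 : ‖bar ν h (g k n z) - bar ν (h' i) (g k n z)‖ *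
          ‖∏ l ∈ Finset.univ.erase k, bar ν (F l) (g l n z)‖ ≤ δ * D :=
        mul_le_mul (b1.trans (h3 i n).1) (hR' n z) (norm_nonneg _) hi0.le
      have b4 : (∫ y, K i ((g k n z).1, y) ∂ν) * D ≤ δ * D :=
        mul_le_mul_of_nonneg_right (h3 i n).1 hD0
      nlinarith
    refine (avr_mono key).trans ?_
    rw [avr_add, avr_mul]
    have c1 : avr (Bx N) (fun _ => 2 * D * δ) ≤ 2 * D * δ :=
      avr_const_le (by positivity)
    have c2 : D * avr (Bx N) (fun n => K i (g k n z) - ∫ y, K i ((g k n z).1, y) ∂ν) ≤ D * δ :=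
      mul_le_mul_of_nonneg_left hN.le hD0
    have c3 : 3 * D * δ ≤ ε := by
      have h9 := (lt_div_iff₀ (by positivity : (0 : ℝ) < 3 * D + 1)).1 hi
      nlinarith
    linarith
  have goal' : Tendsto (fun N : I => Pool.Agent.TH739.PA.av (Bx N) fun n =>
      h (g k n z) * ∏ l ∈ Finset.univ.erase k, F l (g l n z) -
      bar ν h (g k n z) * ∏ l ∈ Finset.univ.erase k, bar ν (F l) (g l n z)) 𝔣 (𝓝 0) := goal
  refine goal'.congr fun N => ?_
  congr 1
  funext n
  rw [bar_update, pr_update, pr_update]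

/-- Uniform limits in one slot. -/
theorem PZ_unif [Countable ι] [IsProbabilityMeasure μ] [IsProbabilityMeasure ν]
    {g : Fin m → ι → X × Y → X × Y}
    (hg : ∀ j n, MeasurePreserving (g j n) (μ.prod ν) (μ.prod ν))
    {F : Fin m → X × Y → ℂ} (hF : ∀ j, BM (F j)) (k : Fin m) {h : X × Y → ℂ} (hh : BM h)
    (H : ∀ ε : ℝ, 0 < ε → ∃ (h' : X × Y → ℂ), BM h' ∧ (∀ z, ‖h z - h' z‖ ≤ ε) ∧
      PZ 𝔣 Bx μ ν g (Function.update F k h')) : PZ 𝔣 Bx μ ν g (Function.update F k h) := by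
  refine PZ_maj hg hF k hh fun ε hε => ?_
  obtain ⟨h', h1, h2, h3⟩ := H ε hε
  refine ⟨h', fun _ => ε, h1, measurable_const, ⟨|ε|, fun _ => le_rfl⟩, Eventually.of_forall h2,
    Eventually.of_forall fun x => ?_, Eventually.of_forall fun z => ?_, h3⟩
  · simp
  · simp [avr, tendsto_const_nhds]

/-- Induction over the slots. -/
theorem ext_slots {P : (Fin m → X → ℂ) → Prop} {𝒬 : Set (X → ℂ)} {𝒜 : Fin m → Set (X → ℂ)}
    (h𝒬 : ∀ f ∈ 𝒬, BM f) (h𝒜 : ∀ k, ∀ f ∈ 𝒜 k, BM f)
    (hstep : ∀ (f : Fin m → X → ℂ) (k : Fin m), (∀ j, BM (f j)) →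
      (∀ e ∈ 𝒬, P (Function.update f k e)) → ∀ h ∈ 𝒜 k, P (Function.update f k h))
    (hbase : ∀ f : Fin m → X → ℂ, (∀ j, f j ∈ 𝒬) → P f) {f : Fin m → X → ℂ}
    (hf : ∀ j, f j ∈ 𝒜 j) : P f := by
  classical
  have key : ∀ S : Finset (Fin m), ∀ f : Fin m → X → ℂ, (∀ j ∈ S, f j ∈ 𝒜 j) →
      (∀ j ∉ S, f j ∈ 𝒬) → P f := by
    intro S
    induction S using Finset.induction_on with
    | empty =>
      intro f _ h2
      exact hbase f fun j => h2 j (Finset.notMem_empty j)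
    | insert j S hj ih =>
      intro f h1 h2
      have hb : ∀ l, BM (f l) := by
        intro l
        by_cases hl : l ∈ insert j S
        · exact h𝒜 l _ (h1 l hl)
        · exact h𝒬 _ (h2 l hl)
      have h3 := hstep f j hb (fun e he => ih _ (fun l hl => ?_) fun l hl => ?_) (f j)
        (h1 j (Finset.mem_insert_self j S))
      · rwa [Function.update_eq_self] at h3
      · have hlj : l ≠ j := fun e => hj (e ▸ hl)
        rw [Function.update_of_ne hlj]
        exact h1 l (Finset.mem_insert_of_mem hl)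
      · by_cases hlj : l = j
        · subst hlj
          rw [Function.update_self]
          exact he
        · rw [Function.update_of_ne hlj]
          apply h2
          intro hmem
          rcases Finset.mem_insert.mp hmem with h5 | h5
          · exact hlj h5
          · exact hl h5
  exact key Finset.univ f (fun j _ => hf j) fun j hj => absurd (Finset.mem_univ j) hj

end clo

end Pool.Agent.W5h43.NA
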