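import Pool.Agent.W5h43.NA.Chr
import Pool.Agent.W5h43.NA.Clo

/-!
# Algebraic extensions of arbitrary systems: the base is characteristic
-/

set_option autoImplicit false
set_option linter.unusedSectionVars false

open Filter Topology MeasureTheory
open scoped ComplexConjugate ENNReal symmDiff

namespace Pool.Agent.W5h43.NA

open Pool.Agent.Helper28.LCN (TorsionFree)
open Pool.Agent.TH784.AA (BB pbk IsAC fb fb_add norm_fb TP TP_dense TP_dense_L1 chi_mem BM_of_TP)
open Pool.Agent.TH739.PA (avr Good bar bar_norm bar_BM pr PZ int_fst int_snd Icc_card ext_one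
  ind_BM BM_smul)
open Pool.Agent.W761.Gauss (BM)
open Pool.Agent.TH635.FB (av_of_sides)

noncomputable section

section sp

variable {X Y : Type} [CommGroup X] [TopologicalSpace X] [MeasurableSpace X] [MeasurableSpace Y]

/-- finite sums of products `h(y) u(x)` -/
def Sp (Y X : Type) [TopologicalSpace X] [MeasurableSpace Y] : Submodule ℂ (Y × X → ℂ) :=
  Submodule.span ℂ {f | ∃ (h : Y → ℂ) (u : X → ℂ), BM h ∧ Continuous u ∧
    f = fun z => h z.1 * u z.2}

/-- products `h(y) χ(x)` -/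
def Qc (Y X : Type) [CommGroup X] [TopologicalSpace X] [MeasurableSpace Y] :
    Set (Y × X → ℂ) :=
  {f | ∃ (h : Y → ℂ) (χ : X →ₜ* Circle), BM h ∧ f = fun z => h z.1 * (χ z.2 : ℂ)}

theorem BM_tens {h : Y → ℂ} {u : X → ℂ} (hh : BM h) (hu : BM u) :
    BM (fun z : Y × X => h z.1 * u z.2) := by
  obtain ⟨h1, c, hc⟩ := hh
  obtain ⟨h2, d, hd⟩ := hu
  refine ⟨(h1.comp measurable_fst).mul (h2.comp measurable_snd), |c| * |d|, fun z => ?_⟩
  rw [norm_mul]
  exact mul_le_mul ((hc _).trans (le_abs_self _)) ((hd _).trans (le_abs_self _)) (norm_nonneg _)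
    (abs_nonneg _)

variable [CompactSpace X] [BorelSpace X] [IsTopologicalGroup X] [T2Space X]

theorem BM_cont' {u : X → ℂ} (hu : Continuous u) : BM u :=
  ⟨hu.measurable, ‖(⟨u, hu⟩ : C(X, ℂ))‖, fun x =>
    ContinuousMap.norm_coe_le_norm (⟨u, hu⟩ : C(X, ℂ)) x⟩

theorem BM_Sp {f : Y × X → ℂ} (hf : f ∈ Sp Y X) : BM f := by
  refine Submodule.span_induction (p := fun f _ => BM f) ?_ ?_ ?_ ?_ hf
  · rintro _ ⟨h, u, hh, hu, rfl⟩
    exact BM_tens hh (BM_cont' hu)
  · exact ⟨measurable_const, 0, fun x => by simp⟩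
  · rintro f g _ _ hf hg
    exact Pool.Agent.TH739.PA.BM_add hf hg
  · rintro c f _ hf
    exact BM_smul c hf

theorem Qc_Sp {f : Y × X → ℂ} (hf : f ∈ Qc Y X) : f ∈ Sp Y X := by
  obtain ⟨h, χ, hh, rfl⟩ := hf
  exact Submodule.subset_span ⟨h, _, hh, chr_cont χ, rfl⟩

end sp

section base

variable {X Y : Type} [CommGroup X] [TopologicalSpace X] [IsTopologicalGroup X] [CompactSpace X]
  [T2Space X] [MeasurableSpace X] [BorelSpace X] {μ : Measure X} [μ.IsHaarMeasure]
  [IsProbabilityMeasure μ] [MeasurableSpace Y] {ν : Measure Y} [IsProbabilityMeasure ν]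
  {Γ : Subgroup (Equiv.Perm X)} {ι : Type} {T : ι → Γ} {D : ℕ} [Finite ι]
  [Group.IsNilpotent Γ]

/-- symmetric intervals -/
def BI (N : ℕ) : Finset ℤ := Finset.Icc (-(N : ℤ)) N

variable (μ ν) in
/-- the standing assumptions -/
structure Sk (T : ι → Γ) (𝓕 : Flt T D) {m : ℕ} (b : Fin m → PS T D)
    (g : Fin m → ℤ → Y × X → Y × X) : Prop where
  aut : ∀ g ∈ Γ, IsAut g
  pos : 1 ≤ D
  top : Subgroup.closure (Set.range T) = ⊤
  tf : TorsionFree Γ
  free : ∀ g : Γ, g ≠ 1 → ∀ χ : X →ₜ* Circle,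
      (∀ x, χ ((g : Equiv.Perm X) x) = χ x) → χ = 1
  ne : ∀ j, b j ∉ 𝓕.H 0
  ne2 : ∀ i j, i ≠ j → (b i)⁻¹ * b j ∉ 𝓕.H 0
  mp : ∀ j n, MeasurePreserving (g j n) (ν.prod μ) (ν.prod μ)
  sk : ∀ j n, ∃ s : Y → Y, ∃ w : Y → X, ∀ y x, g j n (y, x) = (s y, orb (b j) n x * w y)

variable {𝓕 : Flt T D} {m : ℕ} {b : Fin m → PS T D} {g : Fin m → ℤ → Y × X → Y × X}

theorem Sk.base (H : Sk μ ν T 𝓕 b g) {h : Fin m → Y → ℂ} (hh : ∀ j, BM (h j))
    (χ : Fin m → X →ₜ* Circle) :
    PZ atTop BI ν μ g (fun j z => h j z.1 * (χ j z.2 : ℂ)) := by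
  classical
  by_cases hχ : ∃ j, χ j ≠ 1
  · have hbar : ∀ n z, pr g (fun l => bar μ (fun z : Y × X => h l z.1 * (χ l z.2 : ℂ))) n z =
        0 := by
      intro n z
      obtain ⟨j₀, hj₀⟩ := hχ
      unfold pr
      apply Finset.prod_eq_zero (Finset.mem_univ j₀)
      show ∫ x, h j₀ (g j₀ n z).1 * (χ j₀ x : ℂ) ∂μ = 0
      rw [integral_const_mul, chr_int hj₀, mul_zero]
    obtain ⟨⟨C, δ, hC, hδ, hz1⟩, C', δ', hC', hδ', hz2⟩ :=
      few_chr H.aut H.pos H.top H.tf H.free H.ne H.ne2 hχ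
    have hFj : ∀ j, BM (fun z : Y × X => h j z.1 * (χ j z.2 : ℂ)) := fun j =>
      BM_tens (hh j) (BM_cont' (chr_cont (χ j)))
    choose hm c hc using hFj
    set K : ℝ := ∏ j, (|c j| + 1) with hK
    have hK0 : 0 < K := Finset.prod_pos fun j _ => by positivity
    let F : ℤ → Y × X → ℂ := fun n z =>
      (K : ℂ)⁻¹ * pr g (fun j z => h j z.1 * (χ j z.2 : ℂ)) n z
    have hFm : ∀ n, Measurable (F n) := fun n =>
      (Finset.measurable_fun_prod _ fun j _ => (hm j).comp (H.mp j n).measurable).const_mul _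
    have hF1 : ∀ n z, ‖F n z‖ ≤ 1 := by
      intro n z
      show ‖(K : ℂ)⁻¹ * _‖ ≤ 1
      rw [norm_mul, norm_inv, Complex.norm_real, Real.norm_of_nonneg hK0.le,
        inv_mul_le_iff₀ hK0, mul_one]
      unfold pr
      rw [norm_prod]
      refine Finset.prod_le_prod (fun j _ => norm_nonneg _) fun j _ => ?_
      exact ((hc j _).trans (le_abs_self _)).trans (by linarith)
    set Lf : List (PS T D × BB X) := List.ofFn fun j => (b j, chB (χ j)) with hLf
    have hform : ∀ n, ∃ W : Y → ℂ, ∀ y x, F n (y, x) = W y * fb (psi Lf n) x := by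
      intro n
      choose s w hsw using fun j => H.sk j n
      refine ⟨fun y => (K : ℂ)⁻¹ * ∏ j, (h j (s j y) * (χ j (w j y) : ℂ)), fun y x => ?_⟩
      rw [hLf, ← prod_chars, mul_assoc, ← Finset.prod_mul_distrib]
      show (K : ℂ)⁻¹ * ∏ j, h j (g j n (y, x)).1 * (χ j (g j n (y, x)).2 : ℂ) = _
      congr 1
      refine Finset.prod_congr rfl fun j _ => ?_
      rw [hsw]
      show h j (s j y) * (χ j (orb (b j) n x * w j y) : ℂ) = _
      rw [map_mul, Circle.coe_mul]
      ring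
    have hac : ∀ n, ∃ θ : X →ₜ* Circle, psi Lf n = chB θ := by
      intro n
      have key : ∀ L : List (PS T D × BB X), (∀ x ∈ L, x.2 ∈ Chr X) → psi L n ∈ Chr X := by
        intro L
        induction L with
        | nil => exact fun _ => (Chr X).zero_mem
        | cons x L ih =>
          intro hL
          rw [psi_cons]
          exact (Chr X).add_mem (chr_stb H.aut _ _ (hL x List.mem_cons_self))
            (ih fun y hy => hL y (List.mem_cons_of_mem _ hy))
      apply key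
      intro x hx
      rw [hLf, List.mem_ofFn] at hx
      obtain ⟨j, rfl⟩ := hx
      exact ⟨χ j, rfl⟩
    have hF0 : ∀ i j : ℤ, psi Lf i ≠ psi Lf j →
        ∫ z, F i z * conj (F j z) ∂(ν.prod μ) = 0 := by
      intro i j hij
      have hint : Integrable (fun z => F i z * conj (F j z)) (ν.prod μ) := by
        refine Integrable.of_bound
          ((hFm i).mul (Complex.continuous_conj.measurable.comp (hFm j))).aestronglyMeasurable 1
          (Eventually.of_forall fun z => ?_)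
        rw [norm_mul, RCLike.norm_conj]
        exact mul_le_one₀ (hF1 _ _) (norm_nonneg _) (hF1 _ _)
      rw [integral_prod _ hint]
      obtain ⟨W, hW⟩ := hform i
      obtain ⟨W', hW'⟩ := hform j
      obtain ⟨θ, hθ⟩ := hac i
      obtain ⟨θ', hθ'⟩ := hac j
      have hne : θ ≠ θ' := by
        intro h1
        apply hij
        rw [hθ, hθ', h1]
      have h0 : ∀ y, ∫ x, F i (y, x) * conj (F j (y, x)) ∂μ = 0 := by
        intro y
        have e : (fun x => F i (y, x) * conj (F j (y, x))) = fun x =>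
            (W y * conj (W' y)) * ((θ x : ℂ) * conj (θ' x : ℂ)) := by
          funext x
          rw [hW, hW', hθ, hθ', map_mul]
          show W y * (θ x : ℂ) * (conj (W' y) * conj (θ' x : ℂ)) = _
          ring
        rw [e, integral_const_mul, chr_orth hne, mul_zero]
      simp only [h0, integral_zero]
    have e1 := zero_of_few (P := ν.prod μ) (F := fun n : ℕ => F n) (fun n => hFm _)
      (fun n => hF1 _) (b := psi Lf) (fun i j hij => hF0 _ _ hij) hC hδ hz1
    have e2 := zero_of_few (P := ν.prod μ) (F := fun n : ℕ => F (-n)) (fun n => hFm _)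
      (fun n => hF1 _) (b := fun t => psi Lf (-t)) (fun i j hij => hF0 _ _ hij) hC' hδ' hz2
    filter_upwards [e1, e2] with z h1 h2
    have h3 := av_of_sides (u := fun n => F n z) (C := 1) (hF1 _ _) h1 h2
    have h4 := h3.const_mul (K : ℂ)
    rw [add_zero, zero_div, mul_zero] at h4
    refine h4.congr fun N => ?_
    show (K : ℂ) * (((2 * N + 1 : ℕ) : ℂ)⁻¹ * ∑ n ∈ Finset.Icc (-(N : ℤ)) (N : ℤ), F n z) =
      (((BI N).card : ℕ) : ℂ)⁻¹ * ∑ n ∈ BI N, _
    have e4 : (BI N).card = 2 * N + 1 := Icc_card N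
    rw [e4, mul_left_comm, Finset.mul_sum]
    congr 1
    refine Finset.sum_congr rfl fun n _ => ?_
    rw [hbar, sub_zero]
    show (K : ℂ) * ((K : ℂ)⁻¹ * _) = _
    rw [mul_inv_cancel_left₀ (by exact_mod_cast hK0.ne')]
  · push Not at hχ
    refine Eventually.of_forall fun z => ?_
    have e : ∀ N : ℕ, Pool.Agent.TH739.PA.av (BI N) (fun n =>
        pr g (fun j z => h j z.1 * (χ j z.2 : ℂ)) n z -
          pr g (fun l => bar μ (fun z : Y × X => h l z.1 * (χ l z.2 : ℂ))) n z) = 0 := by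
      intro N
      unfold Pool.Agent.TH739.PA.av
      rw [Finset.sum_eq_zero, mul_zero]
      intro n _
      rw [sub_eq_zero]
      unfold pr
      refine Finset.prod_congr rfl fun j _ => ?_
      unfold bar
      have e1 : ∀ x : X, (χ j x : ℂ) = 1 := by
        intro x
        rw [hχ j]
        exact Circle.coe_one
      show _ = ∫ x, h j (g j n z).1 * (χ j x : ℂ) ∂μ
      simp [e1]
    simp only [e]
    exact tendsto_const_nhds

variable [Countable ι]

/-- the step for sums of products -/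
theorem step_Sp (hg : ∀ j n, MeasurePreserving (g j n) (ν.prod μ) (ν.prod μ))
    {F : Fin m → Y × X → ℂ} (hF : ∀ j, BM (F j)) {k : Fin m}
    (hQ : ∀ e ∈ Qc Y X, PZ atTop BI ν μ g (Function.update F k e)) {f : Y × X → ℂ}
    (hf : f ∈ Sp Y X) : PZ atTop BI ν μ g (Function.update F k f) := by
  have h0 : PZ atTop BI ν μ g (Function.update F k 0) := by
    have h1 := PZ_smul 0 (hQ _ ⟨fun _ => 0, 1, ⟨measurable_const, 0, fun _ => by simp⟩, rfl⟩)
    have e : (fun z : Y × X => (0 : ℂ) * ((0 : ℂ) * (((1 : X →ₜ* Circle) z.2 : Circle) : ℂ))) = 0 := by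
      funext z
      simp
    rwa [e] at h1
  have hTP : ∀ h : Y → ℂ, BM h → ∀ p ∈ TP X,
      PZ atTop BI ν μ g (Function.update F k (fun z => h z.1 * p z.2)) := by
    intro h hh p hp
    refine Submodule.span_induction (p := fun (p : X → ℂ) _ => PZ atTop BI ν μ g
      (Function.update F k (fun z : Y × X => h z.1 * p z.2))) ?_ ?_ ?_ ?_ hp
    · rintro _ ⟨χ, rfl⟩
      exact hQ _ ⟨h, χ, hh, rfl⟩
    · have e : (fun z : Y × X => h z.1 * (0 : X → ℂ) z.2) = 0 := by
        funext z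
        simp
      rw [e]
      exact h0
    · rintro p q hp hq c1 c2
      have h3 := PZ_add (BM_tens hh (BM_of_TP hp)) (BM_tens hh (BM_of_TP hq)) c1 c2
      have e : ((fun z : Y × X => h z.1 * p z.2) + fun z : Y × X => h z.1 * q z.2) =
          fun z : Y × X => h z.1 * (p + q) z.2 := by
        funext z
        simp only [Pi.add_apply]
        ring
      rwa [e] at h3
    · rintro c p hp c1
      have h3 := PZ_smul c c1
      have e : (fun z : Y × X => c * (h z.1 * p z.2)) =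
          fun z : Y × X => h z.1 * (c • p) z.2 := by
        funext z
        simp only [Pi.smul_apply, smul_eq_mul]
        ring
      rwa [e] at h3
  refine Submodule.span_induction (p := fun (f : Y × X → ℂ) _ => PZ atTop BI ν μ g
      (Function.update F k f)) ?_ h0 ?_ ?_ hf
  · rintro _ ⟨h, u, hh, hu, rfl⟩
    refine PZ_unif hg hF k (BM_tens hh (BM_cont' hu)) fun ε hε => ?_
    obtain ⟨_, c, hc⟩ := id hh
    obtain ⟨p, hp, hpc, hup⟩ := TP_dense (⟨u, hu⟩ : C(X, ℂ))
      (show 0 < ε / (|c| + 1) by positivity)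
    refine ⟨fun z => h z.1 * p z.2, BM_tens hh (BM_of_TP hp), fun z => ?_, hTP h hh p hp⟩
    rw [← mul_sub, norm_mul]
    have h1 : ‖h z.1‖ ≤ |c| + 1 := ((hc _).trans (le_abs_self _)).trans (by linarith)
    have h2 : ‖u z.2 - p z.2‖ ≤ ε / (|c| + 1) := hup z.2
    calc ‖h z.1‖ * ‖u z.2 - p z.2‖ ≤ (|c| + 1) * (ε / (|c| + 1)) :=
          mul_le_mul h1 h2 (norm_nonneg _) (by positivity)
      _ = ε := by field_simp
  · rintro p q hp hq c1 c2
    exact PZ_add (BM_Sp hp) (BM_Sp hq) c1 c2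
  · rintro c p hp c1
    exact PZ_smul c c1

/-- sums of products in all slots -/
theorem Sk.sp (H : Sk μ ν T 𝓕 b g) {F : Fin m → Y × X → ℂ} (hF : ∀ j, F j ∈ Sp Y X) :
    PZ atTop BI ν μ g F := by
  refine ext_slots (P := PZ atTop BI ν μ g) (𝒬 := Qc Y X) (𝒜 := fun _ => (Sp Y X : Set _))
    (fun f hf => BM_Sp (Qc_Sp hf)) (fun k f hf => BM_Sp hf)
    (fun f k hf hQ h hh => step_Sp H.mp hf hQ hh) ?_ hF
  intro f hf
  choose h χ hh e using hf
  have e' : f = fun j z => h j z.1 * (χ j z.2 : ℂ) := funext e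
  rw [e']
  exact H.base hh χ

/-- one function -/
theorem Sk.one (H : Sk μ ν T 𝓕 b g) (k : Fin m) {K : Y × X → ℝ}
    (hK : (fun z => (K z : ℂ)) ∈ Sp Y X) :
    ∀ᵐ z ∂(ν.prod μ), Tendsto (fun N => avr (BI N) fun n =>
      K (g k n z) - ∫ x, K ((g k n z).1, x) ∂μ) atTop (𝓝 0) := by
  have H1 : Sk μ ν T 𝓕 (fun _ : Fin 1 => b k) (fun _ : Fin 1 => g k) :=
    ⟨H.aut, H.pos, H.top, H.tf, H.free, fun _ => H.ne k,
      fun i j hij => absurd (Subsingleton.elim i j) hij, fun _ => H.mp k, fun _ => H.sk k⟩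
  have h1 := H1.sp (F := fun _ z => (K z : ℂ)) fun _ => hK
  filter_upwards [h1] with z hz
  have h2 := (Complex.continuous_re.tendsto _).comp hz
  rw [Complex.zero_re] at h2
  refine h2.congr fun N => ?_
  simp only [Function.comp_apply]
  have e : ∀ n, pr (fun _ : Fin 1 => g k) (fun _ z => (K z : ℂ)) n z -
      pr (fun _ : Fin 1 => g k) (fun _ => bar μ fun z : Y × X => (K z : ℂ)) n z =
      ((K (g k n z) - ∫ x, K ((g k n z).1, x) ∂μ : ℝ) : ℂ) := by
    intro n
    unfold pr bar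
    rw [Fin.prod_univ_one, Fin.prod_univ_one]
    show (K (g k n z) : ℂ) - ∫ x, ((K ((g k n z).1, x) : ℝ) : ℂ) ∂μ = _
    rw [integral_complex_ofReal, Complex.ofReal_sub]
  simp only [e]
  rw [Pool.Agent.TH739.PA.av_ofReal, Complex.ofReal_re]

variable (μ ν) in
/-- fibrewise Riemann integrable functions -/
def FR (f : Y × X → ℂ) : Prop := ∀ ε : ℝ, 0 < ε → ∃ (F : Y × X → ℂ) (K : Y × X → ℝ),
  F ∈ Sp Y X ∧ (fun z => (K z : ℂ)) ∈ Sp Y X ∧ (∀ᵐ z ∂(ν.prod μ), ‖f z - F z‖ ≤ K z) ∧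
    ∀ᵐ y ∂ν, ∫ x, K (y, x) ∂μ ≤ ε

/-- the step for fibrewise Riemann integrable functions -/
theorem Sk.step_FR (H : Sk μ ν T 𝓕 b g) {F : Fin m → Y × X → ℂ} (hF : ∀ j, BM (F j)) {k : Fin m}
    (hQ : ∀ e ∈ Qc Y X, PZ atTop BI ν μ g (Function.update F k e)) {f : Y × X → ℂ}
    (hf : BM f) (hf' : FR μ ν f) : PZ atTop BI ν μ g (Function.update F k f) := by
  refine PZ_maj H.mp hF k hf fun ε hε => ?_
  obtain ⟨p, K, hp, hK, h1, h2⟩ := hf' ε hε
  obtain ⟨hKm, C, hC⟩ := BM_Sp hK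
  refine ⟨p, K, BM_Sp hp, ?_, ⟨C, fun z => ?_⟩, h1, h2, H.one k hK, step_Sp H.mp hF hQ hp⟩
  · have h3 := Complex.continuous_re.measurable.comp hKm
    exact h3
  · have h3 := hC z
    rwa [Complex.norm_real, Real.norm_eq_abs] at h3

/-- the step for arbitrary functions -/
theorem step_BM (hg : ∀ j n, MeasurePreserving (g j n) (ν.prod μ) (ν.prod μ))
    {F : Fin m → Y × X → ℂ} (hF : ∀ j, BM (F j)) {k : Fin m}
    (hgood : Good atTop BI (ν.prod μ) (g k))
    (hQ : ∀ e ∈ Qc Y X, PZ atTop BI ν μ g (Function.update F k e)) {f : Y × X → ℂ}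
    (hf : BM f) : PZ atTop BI ν μ g (Function.update F k f) := by
  have hcl : ∀ h, BM h → (∀ ε : ℝ, 0 < ε → ∃ g' : Y × X → ℂ, BM g' ∧
      ∫ z, ‖h z - g' z‖ ∂(ν.prod μ) ≤ ε ∧ PZ atTop BI ν μ g (Function.update F k g')) →
      PZ atTop BI ν μ g (Function.update F k h) := fun h hh H => PZ_closed1 hg hF k hgood hh H
  refine ext_one (μ := ν.prod μ) (P := fun h => PZ atTop BI ν μ g (Function.update F k h))
    (fun f f' hf hf' h1 h2 => PZ_add hf hf' h1 h2) (fun c f hf h1 => PZ_smul c h1) hcl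
    (𝒬 := Set.image2 (· ×ˢ ·) {s : Set Y | MeasurableSet s} {t : Set X | MeasurableSet t})
    ?_ isPiSystem_prod ?_ ?_ ?_ hf
  · rintro _ ⟨s, hs, t, ht, rfl⟩
    exact hs.prod ht
  · exact ⟨Set.univ, MeasurableSet.univ, Set.univ, MeasurableSet.univ, Set.univ_prod_univ⟩
  · intro C hC
    refine ⟨C, ?_, ae_eq_refl _⟩
    rw [generateFrom_prod]
    exact hC
  · rintro _ ⟨s, hs, t, ht, rfl⟩
    have hs' : MeasurableSet s := hs
    have ht' : MeasurableSet t := ht
    refine hcl _ (ind_BM (hs'.prod ht') 1) fun ε hε => ?_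
    obtain ⟨p, hp, hpi⟩ := TP_dense_L1 (μ := μ) (F := t.indicator fun _ => (1 : ℂ))
      (ind_BM ht' 1) hε
    have hps : (fun z : Y × X => s.indicator (fun _ => (1 : ℂ)) z.1 * p z.2) ∈ Sp Y X := by
      refine Submodule.subset_span ⟨_, p, ind_BM hs' 1, ?_, rfl⟩
      refine Submodule.span_induction (p := fun (p : X → ℂ) _ => Continuous p) ?_ ?_ ?_ ?_ hp
      · rintro _ ⟨χ, rfl⟩
        exact chr_cont χ
      · exact continuous_const
      · rintro p q _ _ h1 h2
        exact h1.add h2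
      · rintro c p _ h1
        exact h1.const_smul c
    refine ⟨_, BM_Sp hps, ?_, step_Sp hg hF hQ hps⟩
    have hb2 : BM (fun x => t.indicator (fun _ => (1 : ℂ)) x - p x) := by
      have h1 := Pool.Agent.TH739.PA.BM_add (ind_BM ht' 1) (BM_smul (-1) (BM_of_TP hp))
      have e : ((t.indicator fun _ => (1 : ℂ)) + fun x => (-1 : ℂ) * p x) =
          fun x => t.indicator (fun _ => (1 : ℂ)) x - p x := by
        funext x
        rw [Pi.add_apply]
        ring
      rwa [e] at h1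
    obtain ⟨hm2, c2, hc2⟩ := hb2
    have e1 : ∀ z : Y × X, ‖(s ×ˢ t).indicator (fun _ => (1 : ℂ)) z -
        s.indicator (fun _ => (1 : ℂ)) z.1 * p z.2‖ ≤
        ‖t.indicator (fun _ => (1 : ℂ)) z.2 - p z.2‖ := by
      intro z
      by_cases h0 : z.1 ∈ s
      · by_cases h1 : z.2 ∈ t <;> simp [h0, h1, Set.indicator]
      · simp [h0, Set.indicator]
    refine (integral_mono_of_nonneg (Eventually.of_forall fun z => norm_nonneg _) ?_
      (Eventually.of_forall e1)).trans ?_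
    · exact Integrable.of_bound (hm2.comp measurable_snd).norm.aestronglyMeasurable c2
        (Eventually.of_forall fun z => by
          rw [norm_norm]
          exact hc2 _)
    · have e2 := int_snd (μ := ν) (ν := μ) fun x => ‖t.indicator (fun _ => (1 : ℂ)) x - p x‖
      rw [e2]
      exact hpi

/-- **The base is characteristic.** -/
theorem Sk.main (H : Sk μ ν T 𝓕 b g) {F : Fin m → Y × X → ℂ} (hF : ∀ j, BM (F j))
    (hs : ∀ j, FR μ ν (F j) ∨ Good atTop BI (ν.prod μ) (g j)) :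
    PZ atTop BI ν μ g F := by
  refine ext_slots (P := PZ atTop BI ν μ g) (𝒬 := Qc Y X)
    (𝒜 := fun j => {f | BM f ∧ (FR μ ν f ∨ Good atTop BI (ν.prod μ) (g j))})
    (fun f hf => BM_Sp (Qc_Sp hf)) (fun k f hf => hf.1) ?_ ?_ (fun j => ⟨hF j, hs j⟩)
  · rintro f k hf hQ h ⟨hh, h1 | h1⟩
    · exact H.step_FR hf hQ hh h1
    · exact step_BM H.mp hf h1 hQ hh
  · intro f hf
    choose h χ hh e using hf
    have e' : f = fun j z => h j z.1 * (χ j z.2 : ℂ) := funext e
    rw [e']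
    exact H.base hh χ

end base

end

end Pool.Agent.W5h43.NA
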