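import Pool.Agent.W5h43.NA.App
import Pool.Agent.TH635.FB.Clos
import Pool.Agent.TH635.AA.Dns

/-!
# From characters to continuous functions and to products with Riemann integrable functions
(adapted from `Pool/Agent/TH635/AA/Dns.lean` and `Pool/Agent/TH635/FB/Tor.lean`)
-/

set_option autoImplicit false
set_option linter.unusedSectionVars false

open Filter Topology MeasureTheory

namespace Pool.Agent.W5h43.NA

open Pool.Agent.TH784.AA (BB KK pbk IsAC IsAff fb fb_add norm_fb TP TP_dense chi_mem BM_of_TP)
open Pool.Agent.TH635.FB (av avr Cv Cv_add Cv_smul Cv_zero Bd BM SingleGood Cv_closed_sup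
  Cv_closed' Cv_closed av_of_sides avr_bound av_norm)
open Pool.Agent.TH635.AA (RiemInt)

noncomputable section

variable {X : Type} [CommGroup X] [TopologicalSpace X] [IsTopologicalGroup X] [CompactSpace X]
  [T2Space X] [MeasurableSpace X] [BorelSpace X] {μ : Measure X} [μ.IsHaarMeasure]
  [IsProbabilityMeasure μ] {Γ : Subgroup (Equiv.Perm X)} {ι : Type} {T : ι → Γ} {D : ℕ}

/-- the maps -/
def orb (b : PS T D) (n : ℤ) : X → X := ((((b : ℤ → Γ) n)⁻¹ : Γ) : Equiv.Perm X)

/-- a character as an element of the group of circle valued functions -/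
def chB (χ : X →ₜ* Circle) : BB X := Additive.ofMul fun x => χ x

theorem psi_ofFn {m : ℕ} (f : Fin m → PS T D × BB X) (t : ℤ) :
    psi (List.ofFn f) t = ∑ j, ((f j).1 : ℤ → Γ) t • (f j).2 := by
  unfold psi
  rw [List.map_ofFn, List.sum_ofFn]
  rfl

theorem prod_chars {m : ℕ} (b : Fin m → PS T D) (χ : Fin m → X →ₜ* Circle) (n : ℤ) (x : X) :
    ∏ j, (χ j (orb (b j) n x) : ℂ) =
      fb (psi (List.ofFn fun j => (b j, chB (χ j))) n) x := by
  classical
  rw [psi_ofFn]
  have key : ∀ s : Finset (Fin m), fb (∑ j ∈ s, ((b j : PS T D) : ℤ → Γ) n • chB (χ j)) x =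
      ∏ j ∈ s, (χ j (orb (b j) n x) : ℂ) := by
    intro s
    induction s using Finset.induction_on with
    | empty =>
      rw [Finset.sum_empty, Finset.prod_empty]
      exact Circle.coe_one
    | insert i s hi ih =>
      rw [Finset.prod_insert hi, ← ih, Finset.sum_insert hi, fb_add]
      rfl
  exact (key Finset.univ).symm

theorem psi_ac (hΓ : ∀ g ∈ Γ, IsAff (g : X → X)) (L : List (PS T D × BB X))
    (hL : ∀ x ∈ L, IsAC (x.2).toMul) (t : ℤ) : IsAC (psi L t).toMul := by
  induction L with
  | nil => exact IsAC.one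
  | cons x L ih =>
    rw [psi_cons]
    exact ((hL x List.mem_cons_self).comp (hΓ _ (Subtype.property _))).mul
      (ih fun y hy => hL y (List.mem_cons_of_mem _ hy))

variable [Finite ι] [Group.IsNilpotent Γ]

/-- products of characters -/
theorem Cv_chars (hΓ : ∀ g ∈ Γ, IsAff (g : X → X)) (hD : 1 ≤ D)
    (hT : Subgroup.closure (Set.range T) = ⊤) {m : ℕ} (b : Fin m → PS T D)
    (χ : Fin m → X →ₜ* Circle) :
    Cv μ (fun j => orb (b j)) (fun j x => (χ j x : ℂ)) := by
  set L : List (PS T D × BB X) := List.ofFn fun j => (b j, chB (χ j)) with hL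
  have hLac : ∀ x ∈ L, IsAC (x.2).toMul := by
    intro x hx
    rw [hL, List.mem_ofFn] at hx
    obtain ⟨j, rfl⟩ := hx
    exact ⟨χ j, 1, fun x => (one_mul _).symm⟩
  have hL'ac : ∀ x ∈ dilL 0 (-1) L, IsAC (x.2).toMul := by
    intro x hx
    obtain ⟨y, hy, rfl⟩ := List.mem_map.1 hx
    exact hLac y hy
  filter_upwards [conv_one (μ := μ) hD hT L (psi_ac hΓ L hLac),
    conv_one (μ := μ) hD hT (dilL 0 (-1) L) (psi_ac hΓ _ hL'ac)] with x h1 h2
  obtain ⟨c, hc⟩ := h1
  obtain ⟨c', hc'⟩ := h2
  refine ⟨(c + c') / 2, ?_⟩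
  have h := av_of_sides (u := fun n : ℤ => fb (psi L n) x) (C := 1) (norm_fb _ _).le hc
    (hc'.congr fun N => by
      congr 1
      refine Finset.sum_congr rfl fun n _ => ?_
      rw [psi_dilL]
      congr 2
      ring)
  refine h.congr fun N => ?_
  congr 1
  funext n
  exact (prod_chars b χ n x).symm

theorem BM_cont {u : X → ℂ} (hu : Continuous u) : BM u :=
  ⟨hu.measurable, ‖(⟨u, hu⟩ : C(X, ℂ))‖, fun x =>
    ContinuousMap.norm_coe_le_norm (⟨u, hu⟩ : C(X, ℂ)) x⟩

theorem bdr_cont {u : X → ℝ} (hu : Continuous u) : ∃ C : ℝ, ∀ x, |u x| ≤ C :=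
  ⟨‖(⟨u, hu⟩ : C(X, ℝ))‖, fun x => ContinuousMap.norm_coe_le_norm (⟨u, hu⟩ : C(X, ℝ)) x⟩

/-- products of continuous functions -/
theorem Cv_cont (hΓ : ∀ g ∈ Γ, IsAff (g : X → X)) (hD : 1 ≤ D)
    (hT : Subgroup.closure (Set.range T) = ⊤) {m : ℕ} (b : Fin m → PS T D)
    {F : Fin m → X → ℂ} (hF : ∀ j, Continuous (F j)) :
    Cv μ (fun j => orb (b j)) F := by
  classical
  set g : Fin m → ℤ → X → X := fun j => orb (b j) with hg
  have key : ∀ (B : Finset (Fin m)) (F : Fin m → X → ℂ), (∀ j ∈ B, Continuous (F j)) →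
      (∀ j ∉ B, ∃ χ : X →ₜ* Circle, F j = fun x => (χ x : ℂ)) → Cv μ g F := by
    intro B
    induction B using Finset.induction_on with
    | empty =>
      intro F _ h2
      choose χ hχ using fun j => h2 j (Finset.notMem_empty j)
      have h3 := Cv_chars (μ := μ) hΓ hD hT b χ
      have e : F = fun j x => (χ j x : ℂ) := funext hχ
      rw [e]
      exact h3
    | insert j B hj ih =>
      intro F h1 h2
      have hBd : ∀ l, Bd (F l) := by
        intro l
        by_cases hl : l ∈ insert j B
        · exact (BM_cont (h1 l hl)).2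
        · obtain ⟨χ, e⟩ := h2 l hl
          rw [e]
          exact ⟨1, fun x => (Circle.norm_coe _).le⟩
      have hc : Continuous (F j) := h1 j (Finset.mem_insert_self j B)
      have hmain : Cv μ g (Function.update F j (F j)) := by
        refine Cv_closed_sup hBd ?_
        intro ε hε
        obtain ⟨f', hf', _, hff'⟩ := TP_dense (⟨F j, hc⟩ : C(X, ℂ)) hε
        refine ⟨f', hff', ?_⟩
        refine Submodule.span_induction
          (p := fun (f' : X → ℂ) _ => Cv μ g (Function.update F j f')) ?_ ?_ ?_ ?_ hf'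
        · rintro _ ⟨χ, rfl⟩
          apply ih
          · intro l hl
            have hlj : l ≠ j := fun e => hj (e ▸ hl)
            rw [Function.update_of_ne hlj]
            exact h1 l (Finset.mem_insert_of_mem hl)
          · intro l hl
            by_cases hlj : l = j
            · subst hlj
              exact ⟨χ, by rw [Function.update_self]⟩
            · rw [Function.update_of_ne hlj]
              apply h2
              intro hmem'
              rcases Finset.mem_insert.mp hmem' with h5 | h5
              · exact hlj h5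
              · exact hl h5
        · exact Cv_zero
        · rintro g₁ g₂ _ _ c₁ c₂
          exact Cv_add c₁ c₂
        · rintro c g₁ _ c₁
          exact Cv_smul c c₁
      rwa [Function.update_eq_self] at hmain
  exact key Finset.univ F (fun j _ => hF j) fun j hj => absurd (Finset.mem_univ j) hj

/-- one continuous real function -/
theorem single_cont (hΓ : ∀ g ∈ Γ, IsAff (g : X → X)) (hD : 1 ≤ D)
    (hT : Subgroup.closure (Set.range T) = ⊤) (b : PS T D) {K : X → ℝ} (hK : Continuous K) :
    ∀ᵐ x ∂μ, ∃ L : ℝ, Tendsto (fun N => avr N fun n => K (orb b n x)) atTop (𝓝 L) := by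
  have h := Cv_cont (μ := μ) hΓ hD hT (fun _ : Fin 1 => b) (F := fun _ x => (K x : ℂ))
    (fun _ => Complex.continuous_ofReal.comp hK)
  filter_upwards [h] with x hx
  obtain ⟨L, hL⟩ := hx
  refine ⟨L.re, ?_⟩
  have h1 := (Complex.continuous_re.tendsto L).comp hL
  refine h1.congr fun N => ?_
  simp only [Function.comp_apply, av, avr, Fin.prod_univ_one]
  have e : ((2 * N + 1 : ℕ) : ℂ)⁻¹ = (((2 * N + 1 : ℕ) : ℝ)⁻¹ : ℝ) := by push_cast; rfl
  rw [e, ← Complex.ofReal_sum, ← Complex.ofReal_mul, Complex.ofReal_re]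

/-- The closure property with an almost everywhere majorant. -/
theorem Cv_closed_ae {J : Type*} [Fintype J] [DecidableEq J] {g : J → ℤ → X → X}
    {F : J → X → ℂ} (hF : ∀ l, Bd (F l)) {j : J}
    (hg : ∀ m, MeasurePreserving (g j m) μ μ) {f : X → ℂ} (hf : Bd f)
    (h : ∀ ε : ℝ, 0 < ε → ∃ (f' : X → ℂ) (K : X → ℝ), Bd f' ∧ Measurable K ∧
      (∃ C, ∀ x, |K x| ≤ C) ∧ (∀ x, 0 ≤ K x) ∧
      (∀ᵐ x ∂μ, ‖f x - f' x‖ ≤ K x) ∧ ∫ x, K x ∂μ ≤ ε ∧
      (∀ᵐ x ∂μ, ∃ L : ℝ, Tendsto (fun N => avr N fun n => K (g j n x)) atTop (𝓝 L)) ∧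
      Cv μ g (Function.update F j f')) :
    Cv μ g (Function.update F j f) := by
  classical
  apply Cv_closed' hF hg
  intro ε hε
  obtain ⟨f', K, ⟨C₁, hC₁⟩, hKm, ⟨C₂, hC₂⟩, hK0, hKf, hKi, hKc, hcv⟩ := h ε hε
  obtain ⟨C₀, hC₀⟩ := hf
  set E : Set X := toMeasurable μ {x | ¬ ‖f x - f' x‖ ≤ K x} with hE
  have hE0 : μ E = 0 := by
    rw [hE, measure_toMeasurable]
    exact hKf
  have hEm : MeasurableSet E := measurableSet_toMeasurable _ _
  have hEa : ∀ᵐ x ∂μ, x ∉ E := measure_eq_zero_iff_ae_notMem.1 hE0
  set C : ℝ := |C₀ + C₁| with hC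
  refine ⟨f', fun x => K x + E.indicator (fun _ => C) x, ?_, ?_, ?_, ?_, ?_, hcv⟩
  · exact hKm.add (measurable_const.indicator hEm)
  · refine ⟨C₂ + C, fun x => (abs_add_le _ _).trans (add_le_add (hC₂ x) ?_)⟩
    by_cases hx : x ∈ E
    · rw [Set.indicator_of_mem hx, hC, abs_abs]
    · rw [Set.indicator_of_notMem hx, abs_zero]
      exact abs_nonneg _
  · intro x
    show ‖f x - f' x‖ ≤ K x + E.indicator (fun _ => C) x
    by_cases hx : x ∈ E
    · rw [Set.indicator_of_mem hx]
      have h1 : ‖f x - f' x‖ ≤ C :=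
        ((norm_sub_le _ _).trans (add_le_add (hC₀ x) (hC₁ x))).trans (le_abs_self _)
      have h2 := hK0 x
      linarith
    · rw [Set.indicator_of_notMem hx, add_zero]
      by_contra h1
      exact hx (subset_toMeasurable _ _ h1)
  · have e : ∫ x, (K x + E.indicator (fun _ => C) x) ∂μ = ∫ x, K x ∂μ := by
      apply integral_congr_ae
      filter_upwards [hEa] with x hx
      rw [Set.indicator_of_notMem hx, add_zero]
    rw [e]
    exact hKi
  · have hall : ∀ᵐ x ∂μ, ∀ n : ℤ, g j n x ∉ E := by
      rw [ae_all_iff]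
      intro n
      exact (hg n).quasiMeasurePreserving.ae hEa
    filter_upwards [hKc, hall] with x hx hx'
    obtain ⟨L, hL⟩ := hx
    refine ⟨L, hL.congr fun N => ?_⟩
    congr 1
    funext n
    rw [Set.indicator_of_notMem (hx' n), add_zero]

/-- **Bounded functions.** -/
theorem Cv_slots (hΓ : ∀ g ∈ Γ, IsAff (g : X → X)) (hD : 1 ≤ D)
    (hT : Subgroup.closure (Set.range T) = ⊤) {m : ℕ} (b : Fin m → PS T D)
    {F : Fin m → X → ℂ} (hb : ∀ j, Bd (F j))
    (hF : ∀ j, RiemInt μ (F j) ∨ (Measurable (F j) ∧ SingleGood μ (orb (b j)))) :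
    Cv μ (fun j => orb (b j)) F := by
  classical
  set g : Fin m → ℤ → X → X := fun j => orb (b j) with hg
  have hmp : ∀ j n, MeasurePreserving (g j n) μ μ := fun j n => (hΓ _ (Subtype.property _)).mp
  have key : ∀ S : Finset (Fin m), ∀ F : Fin m → X → ℂ, (∀ j, Bd (F j)) →
      (∀ j ∈ S, RiemInt μ (F j) ∨ (Measurable (F j) ∧ SingleGood μ (g j))) →
      (∀ j, j ∉ S → Continuous (F j)) → Cv μ g F := by
    intro S
    induction S using Finset.induction_on with
    | empty =>
      intro F _ _ h
      exact Cv_cont hΓ hD hT b fun j => h j (Finset.notMem_empty j)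
    | insert j S hj ih =>
      intro F hb hgd hc
      have hup : ∀ u : X → ℂ, Continuous u → Cv μ g (Function.update F j u) := by
        intro u hu
        apply ih
        · intro l
          by_cases hl : l = j
          · subst hl
            rw [Function.update_self]
            exact (BM_cont hu).2
          · rw [Function.update_of_ne hl]
            exact hb l
        · intro l hl
          have hlj : l ≠ j := fun h => hj (h ▸ hl)
          rw [Function.update_of_ne hlj]
          exact hgd l (Finset.mem_insert_of_mem hl)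
        · intro l hl
          by_cases hlj : l = j
          · subst hlj
            rw [Function.update_self]
            exact hu
          · rw [Function.update_of_ne hlj]
            exact hc l (by
              rw [Finset.mem_insert]
              tauto)
      have hmain : Cv μ g (Function.update F j (F j)) := by
        rcases hgd j (Finset.mem_insert_self j S) with h | ⟨hm, hs⟩
        · refine Cv_closed_ae hb (hmp j) (hb j) ?_
          intro ε hε
          obtain ⟨u, K, hu, hK, huK, hKi⟩ := h ε hε
          have hKabs : Continuous fun x => max (K x) 0 := hK.max continuous_const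
          have hint : ∫ x, max (K x) 0 ∂μ ≤ ε := by
            refine le_trans (le_of_eq ?_) hKi
            apply integral_congr_ae
            filter_upwards [huK] with x hx
            exact max_eq_left ((norm_nonneg _).trans hx)
          have h5 : ∀ᵐ x ∂μ, ‖F j x - u x‖ ≤ max (K x) 0 := by
            filter_upwards [huK] with x hx
            exact hx.trans (le_max_left _ _)
          have h6 := single_cont (μ := μ) hΓ hD hT (b j) (K := fun x => max (K x) 0) hKabs
          have h7 : Bd u := (BM_cont hu).2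
          have h8 := bdr_cont hKabs
          exact ⟨u, fun x => max (K x) 0, h7, hKabs.measurable, h8,
            fun x => le_max_right _ _, h5, hint, h6, hup u hu⟩
        · refine Cv_closed hb (hmp j) hs ⟨hm, hb j⟩ ?_
          intro ε hε
          have hint : Integrable (F j) μ := by
            obtain ⟨C, hC⟩ := hb j
            exact Integrable.of_bound hm.aestronglyMeasurable C (Eventually.of_forall hC)
          have hreg : μ.Regular := inferInstance
          obtain ⟨p, hp, _⟩ := hint.exists_boundedContinuous_integral_sub_le hε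
          exact ⟨p, BM_cont p.continuous, hp, hup p p.continuous⟩
      rwa [Function.update_eq_self] at hmain
  exact key Finset.univ F hb (fun j _ => hF j) fun j hj => absurd (Finset.mem_univ j) hj

end

end Pool.Agent.W5h43.NA
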