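import Pool.Agent.W5h43.NA.Ind
import Pool.Agent.W5h43.NA.Slots

/-!
# Few coincidences and convergence to zero
-/

set_option autoImplicit false
set_option linter.unusedSectionVars false

open Filter Topology MeasureTheory
open scoped ComplexConjugate

namespace Pool.Agent.W5h43.NA

open Pool.Agent.Helper28.LCN (TorsionFree)
open Pool.Agent.TH784.AA (FewB cnt vol vol_nonneg ae_zero)
open Pool.Agent.TH635.AA (cnt_fiber)
open Pool.Agent.TH635.FB (av av_of_sides)
open Pool.Agent.W761.Box (bxc)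

noncomputable section

section few

variable {G M : Type} [Group G] [AddCommGroup M] [DistribMulAction G M] {ι : Type} {T : ι → G}
  {n : ℕ}

omit [DistribMulAction G M] [Group G] in
theorem ZB_of_classes {f : ℤ → M} {q : ℕ} (hq : 1 ≤ q) {C δ : ℝ}
    (h : ∀ r : ℤ, ZB (fun t => f (r + q * t)) C δ) : ZB f (q * C) δ := by
  classical
  intro N hN Z hZ
  have h1 : ∀ r ∈ Finset.range q,
      ((Z.filter fun t => t % q = r).card : ℝ) ≤ C * (N : ℝ) ^ (1 - δ) := by
    intro r _
    have h2 := h r N hN ((Z.filter fun t => t % q = r).image fun t => t / q) (by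
      intro s hs
      obtain ⟨t, ht, rfl⟩ := Finset.mem_image.1 hs
      rw [Finset.mem_filter] at ht
      refine ⟨lt_of_le_of_lt (Nat.div_le_self _ _) (hZ t ht.1).1, ?_⟩
      have h3 := (hZ t ht.1).2
      show f ((r : ℤ) + q * ((t / q : ℕ) : ℤ)) = 0
      have e : (r : ℤ) + q * ((t / q : ℕ) : ℤ) = (t : ℤ) := by
        have h4 := Nat.mod_add_div t q
        rw [ht.2] at h4
        exact_mod_cast h4
      rw [e]
      exact h3)
    rw [Finset.card_image_of_injOn] at h2
    · exact h2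
    · intro s hs t ht hst
      rw [Finset.mem_coe, Finset.mem_filter] at hs ht
      have e1 := Nat.mod_add_div s q
      have e2 := Nat.mod_add_div t q
      rw [hs.2] at e1
      rw [ht.2] at e2
      have hst' : s / q = t / q := hst
      rw [hst'] at e1
      omega
  have h2 : Z.card = ∑ r ∈ Finset.range q, (Z.filter fun t => t % q = r).card :=
    Finset.card_eq_sum_card_fiberwise fun t _ => Finset.mem_coe.2
      (Finset.mem_range.2 (Nat.mod_lt _ hq))
  rw [h2]
  push_cast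
  refine (Finset.sum_le_sum h1).trans (le_of_eq ?_)
  rw [Finset.sum_const, Finset.card_range, nsmul_eq_mul, mul_assoc]

variable {𝓕 : Flt T n} [Group.IsNilpotent G]

theorem dil_H0 (hG : TorsionFree G) {q : ℕ} (hq : 0 < q) (r : ℤ) {b : PS T n}
    (hb : b ∉ 𝓕.H 0) : (⟨_, PS_dil b.2 r q⟩ : PS T n) ∉ 𝓕.H 0 := by
  intro h
  rw [𝓕.zero] at h
  refine hb (class_const hG 𝓕 hq r 𝓕.s b (by rw [𝓕.top]; exact Subgroup.mem_top _)
    ((b : ℤ → G) (r + q * 0)) fun t => ?_)
  exact h t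

theorem dil_H0' {b : PS T n} (hb : b ∉ 𝓕.H 0) :
    (⟨_, PS_dil b.2 0 (-1)⟩ : PS T n) ∉ 𝓕.H 0 := by
  intro h
  rw [𝓕.zero] at h
  apply hb
  rw [𝓕.zero]
  intro t
  have h1 : (b : ℤ → G) (0 + -1 * (-t)) = (b : ℤ → G) (0 + -1 * 0) := h (-t)
  have e1 : (0 : ℤ) + -1 * (-t) = t := by ring
  have e2 : (0 : ℤ) + -1 * 0 = 0 := by ring
  rwa [e1, e2] at h1

theorem red_dilL (hG : TorsionFree G) {q : ℕ} (hq : 0 < q) (r : ℤ) {L : List (PS T n × M)}
    (h : Red 𝓕 L) : Red 𝓕 (dilL r q L) := by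
  refine ⟨?_, ?_⟩
  · intro y hy
    obtain ⟨x, hx, rfl⟩ := List.mem_map.1 hy
    exact h.1 x hx
  · unfold dilL
    rw [List.pairwise_map]
    exact h.2.imp fun {x y} hxy => dil_H0 hG hq r hxy

theorem red_dilL' {L : List (PS T n × M)} (h : Red 𝓕 L) : Red 𝓕 (dilL 0 (-1) L) := by
  refine ⟨?_, ?_⟩
  · intro y hy
    obtain ⟨x, hx, rfl⟩ := List.mem_map.1 hy
    exact h.1 x hx
  · unfold dilL
    rw [List.pairwise_map]
    exact h.2.imp fun {x y} hxy => dil_H0' hxy

/-- **Few coincidences.** -/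
theorem few [Finite ι] (hn : 1 ≤ n) (hT : Subgroup.closure (Set.range T) = ⊤)
    (hG : TorsionFree G) (hfree : ∀ g : G, g ≠ 1 → ∀ u : M, g • u = u → u = 0)
    {L : List (PS T n × M)} (hR : Red 𝓕 L) (hL : L ≠ []) (h0 : ∀ x ∈ L, x.1 ∉ 𝓕.H 0) :
    ∃ C δ : ℝ, 0 < C ∧ 0 < δ ∧ ∀ w : M, ZB (fun t => psi L t - w) C δ := by
  obtain ⟨q, hq, C, δ, hC, hδ, hδ1, h⟩ := values_any hn hT L
  have hq0 : (0 : ℝ) < q := by exact_mod_cast hq
  refine ⟨q * C, δ, by positivity, hδ, fun w => ?_⟩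
  apply ZB_of_classes hq
  intro r
  rcases h r with h1 | h1
  · exfalso
    have hR1 := red_dilL hG hq r hR
    by_cases hw : psi L r = 0
    · refine indep (𝓕 := 𝓕) hG hfree _ (dilL r q L) rfl hR1 ?_ fun t => ?_
      · intro h2
        exact hL (List.map_eq_nil_iff.1 h2)
      · rw [psi_dilL, h1, hw]
    · refine indep (𝓕 := 𝓕) hG hfree _ ((1, -psi L r) :: dilL r q L) rfl ⟨?_, ?_⟩
        (List.cons_ne_nil _ _) fun t => ?_
      · intro x hx
        rcases List.mem_cons.1 hx with rfl | hx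
        · exact neg_ne_zero.2 hw
        · exact hR1.1 x hx
      · rw [List.pairwise_cons]
        refine ⟨?_, hR1.2⟩
        intro y hy
        obtain ⟨x, hx, rfl⟩ := List.mem_map.1 hy
        rw [inv_one, one_mul]
        exact dil_H0 hG hq r (h0 x hx)
      · rw [psi_cons, psi_dilL, h1]
        show (1 : G) • (-psi L r) + psi L r = 0
        rw [one_smul, neg_add_cancel]
  · exact h1 w

end few

section zero

variable {Z : Type} [MeasurableSpace Z] {P : Measure Z} [IsProbabilityMeasure P] {M : Type}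
  [AddCommGroup M]

/-- Convergence to zero, one-sided averages. -/
theorem zero_of_few {F : ℕ → Z → ℂ} (hm : ∀ n, Measurable (F n)) (hb : ∀ n z, ‖F n z‖ ≤ 1)
    {b : ℤ → M} (ho : ∀ i j : ℕ, b i ≠ b j → ∫ z, F i z * conj (F j z) ∂P = 0) {C δ : ℝ}
    (hC : 0 < C) (hδ : 0 < δ) (h : ∀ w, ZB (fun t => b t - w) C δ) :
    ∀ᵐ z ∂P, Tendsto (fun N : ℕ => (N : ℂ)⁻¹ * ∑ m ∈ Finset.range N, F m z) atTop (𝓝 0) := by
  classical
  have h1 := ae_zero (μ := P) (k := 1) ({0} : Finset (Fin 1)) (Finset.singleton_nonempty _)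
    (fun m => b ((m 0 : ℕ) : ℤ)) (fun m => F (m 0)) (fun m => hm _) (fun m => hb _)
    (fun i j hij => ho _ _ hij) (fun l hl => absurd (fin1 l ▸ Finset.mem_singleton_self _) hl) ?_
  · filter_upwards [h1] with z hz
    have h2 : Tendsto (fun N : ℕ => (fun _ => N : Fin 1 → ℕ)) atTop atTop := by
      refine tendsto_atTop_atTop.2 fun b => ⟨b 0, fun N hN j => ?_⟩
      rw [fin1 j]
      exact hN
    refine (hz.comp h2).congr fun N => ?_
    exact bxc_one (fun m => F m z) N
  · intro l _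
    refine ⟨Set.univ, C, δ, hC.le, hδ, ?_, ?_⟩
    · intro c N hN
      apply cnt_fiber hN l
      intro m Z hZ
      have h1 := h c (N l) (hN l) Z fun t ht => ⟨(hZ t ht).1, by
        have h2 := (hZ t ht).2.2
        simp only [upd1] at h2
        show b (t : ℤ) - c = 0
        rw [sub_eq_zero]
        exact h2⟩
      exact h1
    · intro N hN
      have h0 : cnt N (fun m => m ∉ (Set.univ : Set (Fin 1 → ℕ))) = 0 := by
        simp [cnt]
      rw [h0]
      have h1 := vol_nonneg N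
      have h2 : 0 ≤ ∑ j, (N j : ℝ) ^ (-δ) :=
        Finset.sum_nonneg fun j _ => Real.rpow_nonneg (Nat.cast_nonneg _) _
      positivity

end zero

end

end Pool.Agent.W5h43.NA
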