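import Pool.Agent.W5h43.NA.Mod

/-!
# A filtration of the group of polynomial sequences adapted to shifts, and weights
-/

set_option autoImplicit false

namespace Pool.Agent.W5h43.NA

open Subgroup commutatorElement

variable {G : Type} [Group G] {ι : Type} {T : ι → G} {n : ℕ}

/-- elements with constant sequence -/
def KC (T : ι → G) (n : ℕ) : Subgroup (Gam T n) where
  carrier := {x | ∀ t, (x.left : ℤ → G) t = (x.left : ℤ → G) 0}
  one_mem' := fun _ => rfl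
  mul_mem' := by
    intro x y hx hy t
    show (x.left : ℤ → G) t * (y.left : ℤ → G) (t + x.right.toAdd) =
      (x.left : ℤ → G) 0 * (y.left : ℤ → G) (0 + x.right.toAdd)
    rw [hx t, hy, hy (0 + x.right.toAdd)]
  inv_mem' := by
    intro x hx t
    show ((x.left : ℤ → G) (t + -x.right.toAdd))⁻¹ = ((x.left : ℤ → G) (0 + -x.right.toAdd))⁻¹
    rw [hx, hx (0 + -x.right.toAdd)]

theorem mem_KC {x : Gam T n} : x ∈ KC T n ↔ ∀ t, (x.left : ℤ → G) t = (x.left : ℤ → G) 0 := Iff.rfl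

/-- the chain of normalizers -/
def KN (T : ι → G) (n : ℕ) : ℕ → Subgroup (Gam T n)
  | 0 => KC T n
  | i + 1 => normalizer (KN T n i : Set (Gam T n))

theorem KN_le (i : ℕ) : KN T n i ≤ KN T n (i + 1) := le_normalizer

theorem KN_mono : Monotone (KN T n) := monotone_nat_of_le_succ KN_le

theorem ucs_le (i : ℕ) : Subgroup.upperCentralSeries (Gam T n) i ≤ KN T n i := by
  induction i with
  | zero =>
    rw [Subgroup.upperCentralSeries_zero]
    exact bot_le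
  | succ i ih =>
    intro x hx
    rw [Subgroup.mem_upperCentralSeries_succ_iff] at hx
    show x ∈ normalizer (KN T n i : Set (Gam T n))
    rw [mem_normalizer_iff]
    intro h
    have h1 : x * h * x⁻¹ * h⁻¹ ∈ KN T n i := ih (hx h)
    have e : x * h * x⁻¹ = x * h * x⁻¹ * h⁻¹ * h := by group
    constructor
    · intro hh
      rw [e]
      exact mul_mem h1 hh
    · intro hh
      rw [e] at hh
      exact (mul_mem_cancel_left h1).1 hh

/-- an adapted filtration -/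
structure Flt (T : ι → G) (n : ℕ) where
  H : ℕ → Subgroup (PS T n)
  s : ℕ
  zero : ∀ b : PS T n, b ∈ H 0 ↔ ∀ t, (b : ℤ → G) t = (b : ℤ → G) 0
  mono : Monotone H
  nrm : ∀ i, ∀ x ∈ H (i + 1), ∀ y ∈ H i, x * y * x⁻¹ ∈ H i
  shf : ∀ i, ∀ b ∈ H (i + 1), ∀ k : ℤ, b⁻¹ * shP T n k b ∈ H i
  top : H s = ⊤

theorem exists_flt [Group.IsNilpotent G] : Nonempty (Flt T n) := by
  have hn : Group.IsNilpotent (Gam T n) := gam_nilp
  obtain ⟨s, hs⟩ := hn.nilpotent'
  refine ⟨⟨fun i => (KN T n i).comap (SemidirectProduct.inl : PS T n →* Gam T n), s, ?_, ?_, ?_,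
    ?_, ?_⟩⟩
  · intro b
    exact Iff.rfl
  · intro i j hij
    exact comap_mono (KN_mono hij)
  · intro i x hx y hy
    show SemidirectProduct.inl (x * y * x⁻¹) ∈ KN T n i
    rw [map_mul, map_mul, map_inv]
    exact (mem_normalizer_iff.1 hx _).1 hy
  · intro i b hb k
    have hk : (SemidirectProduct.inr (Multiplicative.ofAdd k) : Gam T n) ∈ KN T n i := by
      apply KN_mono (Nat.zero_le i)
      intro t
      rfl
    have h1 : (SemidirectProduct.inl b : Gam T n)⁻¹ * SemidirectProduct.inr (Multiplicative.ofAdd k) *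
        SemidirectProduct.inl b ∈ KN T n i := (mem_normalizer_iff''.1 hb _).1 hk
    have h2 := mul_mem h1 (inv_mem hk)
    show (SemidirectProduct.inl (b⁻¹ * shP T n k b) : Gam T n) ∈ KN T n i
    have e : (SemidirectProduct.inl (b⁻¹ * shP T n k b) : Gam T n) =
        (SemidirectProduct.inl b : Gam T n)⁻¹ * SemidirectProduct.inr (Multiplicative.ofAdd k) *
        SemidirectProduct.inl b * (SemidirectProduct.inr (Multiplicative.ofAdd k))⁻¹ := by
      rw [map_mul, map_inv, mul_assoc, mul_assoc, ← mul_assoc (SemidirectProduct.inr _)]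
      congr 1
      have h3 := SemidirectProduct.inl_aut (φ := shA T n) (Multiplicative.ofAdd k) b
      rw [map_inv] at h3
      exact h3
    rw [e]
    exact h2
  · rw [eq_top_iff]
    intro b _
    apply ucs_le s
    rw [hs]
    exact mem_top _

/-! ### weights -/

noncomputable section

variable (𝓕 : Flt T n)

open Classical in
/-- classes in level `i` -/
def tp (i : ℕ) (S : Finset (PS T n)) : Finset (PS T n ⧸ 𝓕.H i) :=
  Finset.image (fun b : PS T n => (QuotientGroup.mk b : PS T n ⧸ 𝓕.H i))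
    (S.filter fun b => b ∈ 𝓕.H (i + 1) ∧ b ∉ 𝓕.H i)

/-- the weight -/
def wt (S : Finset (PS T n)) : Fin 𝓕.s → ℕ := fun i => (tp 𝓕 i S).card

theorem mem_tp {i : ℕ} {S : Finset (PS T n)} {c : PS T n ⧸ 𝓕.H i} :
    c ∈ tp 𝓕 i S ↔ ∃ b ∈ S, b ∈ 𝓕.H (i + 1) ∧ b ∉ 𝓕.H i ∧ (QuotientGroup.mk b : PS T n ⧸ 𝓕.H i) = c := by
  classical
  unfold tp
  rw [Finset.mem_image]
  simp only [Finset.mem_filter, and_assoc]

theorem tp_card {i : ℕ} {S : Finset (PS T n)} : (tp 𝓕 i S).card ≤ S.card := by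
  classical
  unfold tp
  exact Finset.card_image_le.trans (Finset.card_filter_le _ _)

/-- the order on weights -/
def lx {D : ℕ} (w' w : Fin D → ℕ) : Prop :=
  Pi.Lex (ι := Fin D) (β := fun _ => ℕ) (· > ·) (fun {_} => (· < ·)) w' w

theorem lx_wf (D : ℕ) : WellFounded (lx (D := D)) := Pi.Lex.wellFounded _ fun _ => wellFounded_lt

variable {𝓕}

/-- translation -/
theorem exists_tr {S : Finset (PS T n)} (hS : S.Nonempty) (h0 : ∀ b ∈ S, b ∉ 𝓕.H 0)
    {S' : PS T n → Finset (PS T n)} (hS' : ∀ b₁ b, b ∈ S' b₁ ↔ b₁ * b ∈ S) :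
    ∃ b₁ ∈ S, lx (wt 𝓕 (S' b₁)) (wt 𝓕 S) := by
  classical
  obtain ⟨b₀, hb₀⟩ := hS
  have hex : ∃ i, ∃ b ∈ S, b ∈ 𝓕.H i := ⟨𝓕.s, b₀, hb₀, by rw [𝓕.top]; exact mem_top _⟩
  set e := Nat.find hex with he
  obtain ⟨b₁, hb₁, hb₁e⟩ : ∃ b ∈ S, b ∈ 𝓕.H e := Nat.find_spec hex
  have hes : e ≤ 𝓕.s := Nat.find_min' hex ⟨b₀, hb₀, by rw [𝓕.top]; exact mem_top _⟩
  have he1 : 1 ≤ e := by
    by_contra hcon
    have he0 : e = 0 := by omega
    rw [he0] at hb₁e
    exact h0 b₁ hb₁ hb₁e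
  have hmin : ∀ b ∈ S, b ∉ 𝓕.H (e - 1) := by
    intro b hb hbe
    exact Nat.find_min hex (m := e - 1) (by omega) ⟨b, hb, hbe⟩
  have hb₁' : b₁ ∈ 𝓕.H (e - 1 + 1) := by
    rw [Nat.sub_add_cancel he1]
    exact hb₁e
  refine ⟨b₁, hb₁, ⟨e - 1, by omega⟩, ?_, ?_⟩
  · intro j hj
    have hj' : e ≤ (j : ℕ) := by
      have h2 : (e - 1 : ℕ) < (j : ℕ) := hj
      omega
    have hbj : b₁ ∈ 𝓕.H j := 𝓕.mono hj' hb₁e
    have hbj' : b₁ ∈ 𝓕.H (j + 1) := 𝓕.mono (Nat.le_succ _) hbj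
    show (tp 𝓕 j (S' b₁)).card = (tp 𝓕 j S).card
    have e1 : tp 𝓕 j S = (tp 𝓕 j (S' b₁)).image fun c => b₁ • c := by
      ext c
      rw [Finset.mem_image]
      constructor
      · intro hc
        obtain ⟨b, hb, hb1, hb2, rfl⟩ := (mem_tp 𝓕).1 hc
        refine ⟨QuotientGroup.mk (b₁⁻¹ * b), (mem_tp 𝓕).2 ⟨b₁⁻¹ * b, ?_, ?_, ?_, rfl⟩, ?_⟩
        · rw [hS', mul_inv_cancel_left]
          exact hb
        · exact mul_mem (inv_mem hbj') hb1
        · intro h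
          exact hb2 ((mul_mem_cancel_left (inv_mem hbj)).1 h)
        · show (QuotientGroup.mk (b₁ * (b₁⁻¹ * b)) : PS T n ⧸ 𝓕.H j) = _
          rw [mul_inv_cancel_left]
      · rintro ⟨c', hc', rfl⟩
        obtain ⟨b, hb, hb1, hb2, rfl⟩ := (mem_tp 𝓕).1 hc'
        rw [hS'] at hb
        refine (mem_tp 𝓕).2 ⟨b₁ * b, hb, mul_mem hbj' hb1, ?_, rfl⟩
        intro h
        exact hb2 ((mul_mem_cancel_left hbj).1 h)
    rw [e1, Finset.card_image_of_injective _ (MulAction.injective b₁)]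
  · show (tp 𝓕 (e - 1) (S' b₁)).card < (tp 𝓕 (e - 1) S).card
    have hlt : (tp 𝓕 (e - 1) (S' b₁)).image (fun c => b₁ • c) ⊂ tp 𝓕 (e - 1) S := by
      rw [Finset.ssubset_iff_of_subset]
      · refine ⟨QuotientGroup.mk b₁, (mem_tp 𝓕).2 ⟨b₁, hb₁, hb₁', hmin b₁ hb₁, rfl⟩, ?_⟩
        rw [Finset.mem_image]
        rintro ⟨c', hc', hcc⟩
        obtain ⟨b, hb, hb1, hb2, rfl⟩ := (mem_tp 𝓕).1 hc'
        have h1 : (QuotientGroup.mk (b₁ * b) : PS T n ⧸ 𝓕.H (e - 1)) = QuotientGroup.mk b₁ := hcc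
        rw [QuotientGroup.eq] at h1
        apply hb2
        have e1 : (b₁ * b)⁻¹ * b₁ = b⁻¹ := by group
        rw [e1] at h1
        exact inv_mem_iff.1 h1
      · intro c hc
        rw [Finset.mem_image] at hc
        obtain ⟨c', hc', rfl⟩ := hc
        obtain ⟨b, hb, hb1, hb2, rfl⟩ := (mem_tp 𝓕).1 hc'
        rw [hS'] at hb
        exact (mem_tp 𝓕).2 ⟨b₁ * b, hb, mul_mem hb₁' hb1, hmin _ hb, rfl⟩
    have h2 := Finset.card_lt_card hlt
    rwa [Finset.card_image_of_injective _ (MulAction.injective b₁)] at h2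

theorem shP_zero (b : PS T n) : shP T n 0 b = b := by
  apply Subtype.ext
  funext t
  show (b : ℤ → G) (t + 0) = b.1 t
  rw [add_zero]

theorem shP_shP (k l : ℤ) (b : PS T n) : shP T n k (shP T n l b) = shP T n (k + l) b := by
  apply Subtype.ext
  funext t
  show (b : ℤ → G) (t + k + l) = b.1 (t + (k + l))
  rw [add_assoc]

/-- shifts preserve the filtration -/
theorem shP_mem {i : ℕ} {b : PS T n} {k : ℤ} (hb : b ∈ 𝓕.H i) : shP T n k b ∈ 𝓕.H i := by
  rcases i with _ | i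
  · rw [𝓕.zero] at hb ⊢
    intro t
    rw [shP_apply, shP_apply, hb, hb (0 + k)]
  · have h1 := 𝓕.mono (Nat.le_succ i) (𝓕.shf i b hb k)
    have h2 := mul_mem hb h1
    rwa [mul_inv_cancel_left] at h2

theorem shP_mem_iff {i : ℕ} {b : PS T n} {k : ℤ} : shP T n k b ∈ 𝓕.H i ↔ b ∈ 𝓕.H i := by
  refine ⟨fun h => ?_, shP_mem⟩
  have h1 := shP_mem (k := -k) h
  rwa [shP_shP, neg_add_cancel, shP_zero] at h1

theorem shP_cls {i : ℕ} {b : PS T n} {k : ℤ} (hb : b ∈ 𝓕.H (i + 1)) :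
    (QuotientGroup.mk (shP T n k b) : PS T n ⧸ 𝓕.H i) = QuotientGroup.mk b := by
  symm
  rw [QuotientGroup.eq]
  exact 𝓕.shf i b hb k

/-- differences keep the weight -/
theorem wt_sh {S S' : Finset (PS T n)} {k : ℤ}
    (h1 : ∀ b ∈ S', b ∈ S ∨ ∃ b' ∈ S, b = shP T n k b')
    (h2 : ∀ b ∈ S, b ∉ 𝓕.H 0 → b ∈ S') : wt 𝓕 S' = wt 𝓕 S := by
  classical
  funext i
  show (tp 𝓕 i S').card = (tp 𝓕 i S).card
  congr 1
  ext c
  rw [mem_tp, mem_tp]
  constructor
  · rintro ⟨b, hb, hb1, hb2, rfl⟩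
    rcases h1 b hb with h | ⟨b', hb', rfl⟩
    · exact ⟨b, h, hb1, hb2, rfl⟩
    · rw [shP_mem_iff] at hb1 hb2
      exact ⟨b', hb', hb1, hb2, (shP_cls hb1).symm⟩
  · rintro ⟨b, hb, hb1, hb2, rfl⟩
    exact ⟨b, h2 b hb fun h => hb2 (𝓕.mono (Nat.zero_le _) h), hb1, hb2, rfl⟩

end

end Pool.Agent.W5h43.NA
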