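import Pool.Agent.W5h43.NA.Slots
import Pool.Agent.TH635.AA.Fnl

/-!
# Assembly: nilpotent groups generated by affine maps, polynomial exponents
-/

set_option autoImplicit false
set_option linter.unusedSectionVars false

open Filter Topology MeasureTheory
open scoped ENNReal Polynomial

namespace Pool.Agent.W5h43.NA

open Pool.Agent.TH784.AA (IsAff isAff_prod)
open Pool.Agent.TH635.FB (av avr Cv Bd SingleGood avr_of_sides clampC clampC_cont clampC_bd
  clampC_eq riem_complex)
open Pool.Agent.TH635.AA (RiemInt riemInt_congr Pol Pol_sum Pol_hom Pol_mono Pol_pow_lin)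

noncomputable section

theorem Pol_eval (p : ℤ[X]) {D : ℕ} (hD : p.natDegree ≤ D) :
    Pol (D + 1) (fun t : ℤ => p.eval t) := by
  have e : (fun t : ℤ => p.eval t) = fun t => ∑ s ∈ p.support, p.coeff s * (0 + 1 * t) ^ s := by
    funext t
    rw [Polynomial.eval_eq_sum, Polynomial.sum]
    simp only [zero_add, one_mul]
  rw [e]
  apply Pol_sum
  intro s hs
  have h2 : s ≤ D := (Polynomial.le_natDegree_of_mem_supp s hs).trans hD
  exact Pol_hom (AddMonoidHom.mulLeft _) (Pol_mono (Nat.succ_le_succ h2) (Pol_pow_lin 0 1 s))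

section grp

variable {X : Type} {d m : ℕ} (T : Fin d → Equiv.Perm X)

/-- the generators in the group -/
def gens (i : Fin d) : Subgroup.closure (Set.range T) :=
  ⟨T i, Subgroup.subset_closure ⟨i, rfl⟩⟩

theorem gens_top : Subgroup.closure (Set.range (gens T)) = ⊤ := by
  have e : Set.range (gens T) =
      ((↑) : Subgroup.closure (Set.range T) → Equiv.Perm X) ⁻¹' Set.range T := by
    ext g
    constructor
    · rintro ⟨i, rfl⟩
      exact ⟨i, rfl⟩
    · rintro ⟨i, hi⟩
      exact ⟨i, Subtype.ext hi⟩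
  rw [e]
  exact Subgroup.closure_closure_coe_preimage

variable (P : Fin d → Fin m → ℤ[X])

/-- the degree bound -/
def deg : ℕ := ∑ i, ∑ j, (P i j).natDegree

theorem le_deg (i : Fin d) (j : Fin m) : (P i j).natDegree ≤ deg P := by
  refine le_trans ?_ (Finset.single_le_sum (f := fun i => ∑ j, (P i j).natDegree)
    (fun _ _ => Nat.zero_le _) (Finset.mem_univ i))
  exact Finset.single_le_sum (f := fun j => (P i j).natDegree)
    (fun _ _ => Nat.zero_le _) (Finset.mem_univ j)

/-- the sequences `n ↦ (T_1^{P_1(n)} ⋯ T_d^{P_d(n)})⁻¹` -/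
def bs (j : Fin m) : PS (gens T) (deg P + 1) :=
  ⟨((List.ofFn fun i => (fun t : ℤ => gens T i ^ (P i j).eval t)).prod)⁻¹, by
    apply inv_mem
    apply Subgroup.list_prod_mem
    intro x hx
    rw [List.mem_ofFn] at hx
    obtain ⟨i, rfl⟩ := hx
    exact Subgroup.subset_closure ⟨i, _, Pol_eval (P i j) (le_deg P i j), rfl⟩⟩

theorem orb_bs (j : Fin m) (n : ℤ) :
    (orb (bs T P j) n) = ((List.ofFn fun i => T i ^ (P i j).eval n).prod : Equiv.Perm X) := by
  have h1 : (((bs T P j : PS (gens T) (deg P + 1)) : ℤ → Subgroup.closure (Set.range T)) n)⁻¹ =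
      (List.ofFn fun i => gens T i ^ (P i j).eval n).prod := by
    show (((List.ofFn fun i => (fun t : ℤ => gens T i ^ (P i j).eval t)).prod)⁻¹ n)⁻¹ = _
    rw [Pi.inv_apply, inv_inv]
    have h2 := map_list_prod (Pi.evalMonoidHom (fun _ : ℤ => Subgroup.closure (Set.range T)) n)
      (List.ofFn fun i => (fun t : ℤ => gens T i ^ (P i j).eval t))
    rw [List.map_ofFn] at h2
    exact h2
  unfold orb
  rw [h1]
  have h3 := map_list_prod (Subgroup.closure (Set.range T)).subtype
    (List.ofFn fun i => gens T i ^ (P i j).eval n)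
  rw [List.map_ofFn] at h3
  show (((Subgroup.closure (Set.range T)).subtype
    (List.ofFn fun i => gens T i ^ (P i j).eval n).prod : Equiv.Perm X) : X → X) = _
  rw [h3]
  rfl

end grp

variable {X : Type} [CommGroup X] [TopologicalSpace X] [IsTopologicalGroup X] [CompactSpace X]
  [T2Space X] [MeasurableSpace X] [BorelSpace X] {μ : Measure X} [μ.IsHaarMeasure]
  [IsProbabilityMeasure μ] {d m : ℕ}

theorem clo_aff {T : Fin d → Equiv.Perm X} (hT : ∀ i, IsAff (T i : X → X)) (g : Equiv.Perm X)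
    (hg : g ∈ Subgroup.closure (Set.range T)) : IsAff (g : X → X) := by
  induction hg using Subgroup.closure_induction with
  | mem g hg =>
    obtain ⟨i, rfl⟩ := hg
    exact hT i
  | one => exact IsAff.id
  | mul g h _ _ ih ih' => exact ih.comp ih'
  | inv g _ ih => exact ih.symm

/-- Birkhoff's theorem for `a ^ n * b`. -/
theorem single_linear {a b : Equiv.Perm X} (ha : IsAff (a : X → X)) (hb : IsAff (b : X → X)) :
    SingleGood μ fun n => ((a ^ n * b : Equiv.Perm X) : X → X) := by
  rintro G hG ⟨C, hC⟩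
  have b1 := Pool.Agent.H165R3.BPE.birkhoff (ha.mp (μ := μ)) G hG C hC
  have b2 := Pool.Agent.H165R3.BPE.birkhoff (ha.symm.mp (μ := μ)) G hG C hC
  have c1 := (hb.mp (μ := μ)).quasiMeasurePreserving.ae b1
  have c2 := (hb.mp (μ := μ)).quasiMeasurePreserving.ae b2
  filter_upwards [c1, c2] with x h1 h2
  refine ⟨_, avr_of_sides (u := fun n => G ((a ^ n * b : Equiv.Perm X) x))
    (h1.congr fun N => ?_) (h2.congr fun N => ?_)⟩
  · congr 1
  · congr 1
    apply Finset.sum_congr rfl
    intro k _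
    rw [zpow_neg, zpow_natCast, ← inv_pow, Equiv.Perm.mul_apply, Equiv.Perm.iterate_eq_pow]

/-- **Essentially bounded functions.** -/
theorem nil_top {T : Fin d → Equiv.Perm X} (hT : ∀ i, IsAff (T i : X → X))
    (hG : Group.IsNilpotent (Subgroup.closure (Set.range T))) (P : Fin d → Fin m → ℤ[X])
    {f : Fin m → X → ℂ} (hf : ∀ j, MemLp (f j) ∞ μ)
    (hF : ∀ j, RiemInt μ (f j) ∨
      (TopologicalSpace.MetrizableSpace X ∧ ∀ᵐ x ∂μ, ContinuousAt (f j) x) ∨
      (∃ a ∈ Subgroup.closure (Set.range T), ∃ b ∈ Subgroup.closure (Set.range T), ∀ n : ℤ,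
        (List.ofFn fun i => T i ^ (P i j).eval n).prod = a ^ n * b) ∨
      SingleGood μ fun n => ((List.ofFn fun i => T i ^ (P i j).eval n).prod : Equiv.Perm X)) :
    Cv μ (fun j n => ((List.ofFn fun i => T i ^ (P i j).eval n).prod : Equiv.Perm X)) f := by
  classical
  have hsg : ∀ j, RiemInt μ (f j) ∨
      (TopologicalSpace.MetrizableSpace X ∧ ∀ᵐ x ∂μ, ContinuousAt (f j) x) ∨
      SingleGood μ (orb (bs T P j)) := by
    intro j
    rcases hF j with h | h | ⟨a, ha, b, hb, h⟩ | h
    · exact Or.inl h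
    · exact Or.inr (Or.inl h)
    · refine Or.inr (Or.inr ?_)
      have e : orb (bs T P j) = fun n => ((a ^ n * b : Equiv.Perm X) : X → X) := by
        funext n
        rw [orb_bs, h]
      rw [e]
      exact single_linear (clo_aff hT a ha) (clo_aff hT b hb)
    · refine Or.inr (Or.inr ?_)
      have e : orb (bs T P j) = fun n => (((List.ofFn fun i => T i ^ (P i j).eval n).prod :
          Equiv.Perm X) : X → X) := funext fun n => orb_bs T P j n
      rw [e]
      exact h
  have hbd : ∀ j, ∃ C : ℝ, 0 ≤ C ∧ ∀ᵐ x ∂μ, ‖f j x‖ ≤ C := by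
    intro j
    refine ⟨(eLpNormEssSup (f j) μ).toReal, ENNReal.toReal_nonneg, ?_⟩
    have h1 := (hf j).eLpNorm_lt_top
    rw [eLpNorm_exponent_top] at h1
    filter_upwards [ae_le_eLpNormEssSup (f := f j) (μ := μ)] with x hx
    have h2 := ENNReal.toReal_mono h1.ne hx
    rwa [toReal_enorm] at h2
  choose C hC0 hC using hbd
  have hcl : ∀ j, f j =ᵐ[μ] fun x => clampC (C j) (f j x) := by
    intro j
    filter_upwards [hC j] with x hx
    exact (clampC_eq hx).symm
  have hrep : ∀ j, ∃ F : X → ℂ, Bd F ∧ f j =ᵐ[μ] F ∧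
      (RiemInt μ F ∨ (Measurable F ∧ SingleGood μ (orb (bs T P j)))) := by
    intro j
    rcases hsg j with h | ⟨hm, h⟩ | h
    · exact ⟨fun x => clampC (C j) (f j x), ⟨_, fun x => clampC_bd (hC0 j) _⟩, hcl j,
        Or.inl (riemInt_congr (hcl j) h)⟩
    · refine ⟨fun x => clampC (C j) (f j x), ⟨_, fun x => clampC_bd (hC0 j) _⟩, hcl j,
        Or.inl ?_⟩
      intro ε hε
      let _ : MetricSpace X := TopologicalSpace.metrizableSpaceMetric X
      have hcont : ∀ᵐ x ∂μ, ContinuousAt (fun x => clampC (C j) (f j x)) x := by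
        filter_upwards [h] with x hx
        exact (clampC_cont _).continuousAt.comp hx
      obtain ⟨u, K, hu, hK, h1, h2⟩ := riem_complex μ (fun x => clampC_bd (hC0 j) (f j x)) hcont hε
      exact ⟨u, K, hu, hK, Eventually.of_forall h1, h2⟩
    · have hm := (hf j).1.stronglyMeasurable_mk.measurable
      refine ⟨fun x => clampC (C j) ((hf j).1.mk (f j) x), ⟨_, fun x => clampC_bd (hC0 j) _⟩, ?_,
        Or.inr ⟨(clampC_cont _).measurable.comp hm, h⟩⟩
      filter_upwards [hC j, (hf j).1.ae_eq_mk] with x hx hx'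
      rw [← hx', clampC_eq hx]
  choose F hF1 hF2 hF3 using hrep
  have hmain := Cv_slots (μ := μ) (clo_aff hT) (Nat.le_add_left 1 (deg P)) (gens_top T)
    (fun j => bs T P j) hF1 hF3
  have hmp : ∀ (j : Fin m) (n : ℤ), MeasurePreserving
      (((List.ofFn fun i => T i ^ (P i j).eval n).prod : Equiv.Perm X) : X → X) μ μ :=
    fun j n => (isAff_prod hT _).mp
  have heq : ∀ᵐ x ∂μ, ∀ (j : Fin m) (n : ℤ),
      f j (((List.ofFn fun i => T i ^ (P i j).eval n).prod : Equiv.Perm X) x) =
      F j (((List.ofFn fun i => T i ^ (P i j).eval n).prod : Equiv.Perm X) x) := by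
    rw [ae_all_iff]
    intro j
    rw [ae_all_iff]
    intro n
    exact (hmp j n).quasiMeasurePreserving.ae (hF2 j)
  filter_upwards [hmain, heq] with x hx hx'
  obtain ⟨L, hL⟩ := hx
  refine ⟨L, hL.congr fun N => ?_⟩
  congr 1
  funext n
  refine Finset.prod_congr rfl fun j _ => ?_
  rw [hx', orb_bs]

end

end Pool.Agent.W5h43.NA
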