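import Pool.Agent.W5h43.NA.Ext
import Pool.Agent.W5h43.NA.Fin

/-!
# Assembly: skew products over arbitrary systems
-/

set_option autoImplicit false
set_option linter.unusedSectionVars false

open Filter Topology MeasureTheory
open scoped ENNReal Polynomial

namespace Pool.Agent.W5h43.NA

open Pool.Agent.TH739.PA (avr Good bar pr PZ Icc_card good_pow)
open Pool.Agent.W761.Gauss (BM BM_of_memLp)

noncomputable section

section skg

/-- the measure preserving bijections -/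
def MPG {Z : Type} [MeasurableSpace Z] (P : Measure Z) : Subgroup (Equiv.Perm Z) where
  carrier := {g | MeasurePreserving g P P ∧ MeasurePreserving (g⁻¹ : Equiv.Perm Z) P P}
  mul_mem' := by
    rintro a b ⟨ha, ha'⟩ ⟨hb, hb'⟩
    refine ⟨ha.comp hb, ?_⟩
    rw [mul_inv_rev]
    exact hb'.comp ha'
  one_mem' := ⟨MeasurePreserving.id P, MeasurePreserving.id P⟩
  inv_mem' := by
    rintro a ⟨ha, ha'⟩
    refine ⟨ha', ?_⟩
    rw [inv_inv]
    exact ha

/-- Birkhoff's theorem for `a ^ n * b`. -/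
theorem good_lin {Z : Type} [MeasurableSpace Z] {P : Measure Z} [IsProbabilityMeasure P]
    {a b : Equiv.Perm Z} (ha : a ∈ MPG P) (hb : b ∈ MPG P) :
    Good atTop BI P (fun (n : ℤ) => ((a ^ n * b : Equiv.Perm Z) : Z → Z)) := by
  intro G hG hC
  exact hb.1.quasiMeasurePreserving.ae (good_pow a ha.1 ha.2 G hG hC)

variable {X Y : Type} [CommGroup X] [TopologicalSpace X] [CompactSpace X] [T2Space X]

/-- pairs of an automorphism and a skew product -/
def SkG (X Y : Type) [CommGroup X] [TopologicalSpace X] [CompactSpace X] [T2Space X] :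
    Subgroup (Equiv.Perm X × Equiv.Perm (Y × X)) where
  carrier := {p | IsAut p.1 ∧ ∃ (s : Equiv.Perm Y) (w : Y → X), ∀ y x,
    p.2 (y, x) = (s y, p.1 x * w y)}
  mul_mem' := by
    rintro ⟨γ, g⟩ ⟨γ', g'⟩ ⟨h1, s, w, h⟩ ⟨h1', s', w', h'⟩
    refine ⟨h1.mul h1', s * s', fun y => γ (w' y) * w (s' y), fun y x => ?_⟩
    show g (g' (y, x)) = (s (s' y), γ (γ' x) * (γ (w' y) * w (s' y)))
    have e1 : g' (y, x) = (s' y, γ' x * w' y) := h' y x
    have e2 : g (s' y, γ' x * w' y) = (s (s' y), γ (γ' x * w' y) * w (s' y)) := h _ _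
    have e3 : γ (γ' x * w' y) = γ (γ' x) * γ (w' y) := h1.1 _ _
    rw [e1, e2, e3, mul_assoc]
  one_mem' := ⟨IsAut.one, 1, fun _ => 1, fun y x => by simp⟩
  inv_mem' := by
    rintro ⟨γ, g⟩ ⟨h1, s, w, h⟩
    refine ⟨h1.inv, s⁻¹, fun y => (γ⁻¹ (w (s⁻¹ y)))⁻¹, fun y x => ?_⟩
    show g⁻¹ (y, x) = (s⁻¹ y, γ⁻¹ x * (γ⁻¹ (w (s⁻¹ y)))⁻¹)
    apply g.injective
    have hgi : g (g⁻¹ (y, x)) = (y, x) := Equiv.apply_symm_apply g _
    have hγ : ∀ z, γ (γ⁻¹ z) = z := fun z => Equiv.apply_symm_apply γ z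
    have hs : s (s⁻¹ y) = y := Equiv.apply_symm_apply s y
    have e1 : g (s⁻¹ y, γ⁻¹ x * (γ⁻¹ (w (s⁻¹ y)))⁻¹) =
        (s (s⁻¹ y), γ (γ⁻¹ x * (γ⁻¹ (w (s⁻¹ y)))⁻¹) * w (s⁻¹ y)) := h _ _
    have e2 : γ (γ⁻¹ x * (γ⁻¹ (w (s⁻¹ y)))⁻¹) = γ (γ⁻¹ x) * γ (γ⁻¹ (w (s⁻¹ y)))⁻¹ := h1.1 _ _
    have e3 : γ (γ⁻¹ (w (s⁻¹ y)))⁻¹ = (γ (γ⁻¹ (w (s⁻¹ y))))⁻¹ := IsAut.map_inv h1 _
    rw [hgi, e1, e2, e3, hγ, hγ, inv_mul_cancel_right, hs]

theorem clo_aut {d : ℕ} {α : Fin d → Equiv.Perm X} (hα : ∀ i, IsAut (α i)) (g : Equiv.Perm X)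
    (hg : g ∈ Subgroup.closure (Set.range α)) : IsAut g := by
  induction hg using Subgroup.closure_induction with
  | mem g hg =>
    obtain ⟨i, rfl⟩ := hg
    exact hα i
  | one => exact IsAut.one
  | mul g h _ _ ih ih' => exact ih.mul ih'
  | inv g _ ih => exact ih.inv

theorem list_pair {d : ℕ} (α : Fin d → Equiv.Perm X) (T : Fin d → Equiv.Perm (Y × X))
    (hT : ∀ i, (α i, T i) ∈ SkG X Y) (k : Fin d → ℤ) :
    ∃ (s : Equiv.Perm Y) (w : Y → X), ∀ y x, (List.ofFn fun i => T i ^ k i).prod (y, x) =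
      (s y, (List.ofFn fun i => α i ^ k i).prod x * w y) := by
  have h1 : (List.ofFn fun i => (α i, T i) ^ k i).prod ∈ SkG X Y := by
    apply Subgroup.list_prod_mem
    intro x hx
    rw [List.mem_ofFn] at hx
    obtain ⟨i, rfl⟩ := hx
    exact zpow_mem (hT i) _
  obtain ⟨_, s, w, h⟩ := h1
  have e1 : (List.ofFn fun i => (α i, T i) ^ k i).prod.1 = (List.ofFn fun i => α i ^ k i).prod := by
    have := map_list_prod (MonoidHom.fst (Equiv.Perm X) (Equiv.Perm (Y × X)))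
      (List.ofFn fun i => (α i, T i) ^ k i)
    rw [List.map_ofFn] at this
    exact this
  have e2 : (List.ofFn fun i => (α i, T i) ^ k i).prod.2 = (List.ofFn fun i => T i ^ k i).prod := by
    have := map_list_prod (MonoidHom.snd (Equiv.Perm X) (Equiv.Perm (Y × X)))
      (List.ofFn fun i => (α i, T i) ^ k i)
    rw [List.map_ofFn] at this
    exact this
  rw [e1, e2] at h
  exact ⟨s, w, h⟩

end skg

section top

variable {X Y : Type} [CommGroup X] [TopologicalSpace X] [IsTopologicalGroup X] [CompactSpace X]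
  [T2Space X] [MeasurableSpace X] [BorelSpace X] {μ : Measure X} [μ.IsHaarMeasure]
  [IsProbabilityMeasure μ] [MeasurableSpace Y] {ν : Measure Y} [IsProbabilityMeasure ν]

/-- essentially bounded functions -/
theorem Sk.linf {Γ : Subgroup (Equiv.Perm X)} {ι : Type} {T : ι → Γ} {D : ℕ} [Finite ι]
    [Group.IsNilpotent Γ] {𝓕 : Flt T D} {m : ℕ} {b : Fin m → PS T D}
    {g : Fin m → ℤ → Y × X → Y × X} (H : Sk μ ν T 𝓕 b g) {f : Fin m → Y × X → ℂ}
    (hf : ∀ j, MemLp (f j) ∞ (ν.prod μ))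
    (hs : ∀ j, FR μ ν (f j) ∨ Good atTop BI (ν.prod μ) (g j)) :
    ∀ᵐ z ∂(ν.prod μ), Tendsto (fun N => Pool.Agent.TH739.PA.av (BI N) fun n =>
      (∏ j, f j (g j n z) - ∏ j, ∫ x, f j ((g j n z).1, x) ∂μ)) atTop (𝓝 0) := by
  choose F hF hfF using fun j => BM_of_memLp (hf j)
  have hs' : ∀ j, FR μ ν (F j) ∨ Good atTop BI (ν.prod μ) (g j) := by
    intro j
    rcases hs j with h | h
    · left
      intro ε hε
      obtain ⟨p, K, h1, h2, h3, h4⟩ := h ε hε
      refine ⟨p, K, h1, h2, ?_, h4⟩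
      filter_upwards [h3, hfF j] with z hz hz'
      rwa [← hz']
    · exact Or.inr h
  have h0 := H.main hF hs'
  have h1 : ∀ᵐ z ∂(ν.prod μ), ∀ n j, f j (g j n z) = F j (g j n z) := by
    rw [ae_all_iff]
    intro n
    rw [ae_all_iff]
    intro j
    exact (H.mp j n).quasiMeasurePreserving.ae (hfF j)
  have h2 : ∀ j, ∀ᵐ y ∂ν, ∫ x, f j (y, x) ∂μ = ∫ x, F j (y, x) ∂μ := by
    intro j
    filter_upwards [Measure.ae_ae_of_ae_prod (hfF j)] with x hx
    exact integral_congr_ae hx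
  have h3 : ∀ᵐ z ∂(ν.prod μ), ∀ n j, ∫ x, f j ((g j n z).1, x) ∂μ =
      ∫ x, F j ((g j n z).1, x) ∂μ := by
    rw [ae_all_iff]
    intro n
    rw [ae_all_iff]
    intro j
    exact (H.mp j n).quasiMeasurePreserving.ae (Measure.quasiMeasurePreserving_fst.ae (h2 j))
  filter_upwards [h0, h1, h3] with z hz hz1 hz2
  refine hz.congr fun N => ?_
  congr 1
  funext n
  unfold pr bar
  congr 1
  · exact Finset.prod_congr rfl fun j _ => (hz1 n j).symm
  · exact Finset.prod_congr rfl fun j _ => (hz2 n j).symm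

/-- **Polynomial times.** -/
theorem ext_top {d m : ℕ} {α : Fin d → Equiv.Perm X} (hα : ∀ i, IsAut (α i))
    (hnil : Group.IsNilpotent (Subgroup.closure (Set.range α)))
    (herg : ∀ γ ∈ Subgroup.closure (Set.range α), γ ≠ 1 → Ergodic γ μ)
    {S : Fin d → Equiv.Perm Y} {c : Fin d → Y → X} {T : Fin d → Equiv.Perm (Y × X)}
    (hT : ∀ i y x, T i (y, x) = (S i y, α i x * c i y))
    (hmp : ∀ i, T i ∈ MPG (ν.prod μ)) (P : Fin d → Fin m → ℤ[X])
    (h1 : ∀ j, ∃ n n' : ℤ, (List.ofFn fun i => α i ^ (P i j).eval n).prod ≠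
      (List.ofFn fun i => α i ^ (P i j).eval n').prod)
    (h2 : ∀ i j, i ≠ j → ∃ n n' : ℤ, (List.ofFn fun l => α l ^ (P l i).eval n).prod *
      ((List.ofFn fun l => α l ^ (P l j).eval n).prod)⁻¹ ≠
      (List.ofFn fun l => α l ^ (P l i).eval n').prod *
      ((List.ofFn fun l => α l ^ (P l j).eval n').prod)⁻¹)
    {f : Fin m → Y × X → ℂ} (hf : ∀ j, MemLp (f j) ∞ (ν.prod μ))
    (hF : ∀ j, FR μ ν (f j) ∨
      (∃ a ∈ Subgroup.closure (Set.range T), ∃ b ∈ Subgroup.closure (Set.range T), ∀ n : ℤ,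
        (List.ofFn fun i => T i ^ (P i j).eval n).prod = a ^ n * b) ∨
      Good atTop BI (ν.prod μ) fun n =>
        ((List.ofFn fun i => T i ^ (P i j).eval n).prod : Equiv.Perm (Y × X))) :
    ∀ᵐ z ∂(ν.prod μ), Tendsto (fun N => Pool.Agent.TH739.PA.av (BI N) fun n =>
      (∏ j, f j ((List.ofFn fun i => T i ^ (P i j).eval n).prod z) -
        ∏ j, ∫ x, f j (((List.ofFn fun i => T i ^ (P i j).eval n).prod z).1, x) ∂μ))
      atTop (𝓝 0) := by
  have hΓ := clo_aut hα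
  obtain ⟨𝓕⟩ := exists_flt (T := gens α) (n := deg P + 1)
  have hclo : Subgroup.closure (Set.range T) ≤ MPG (ν.prod μ) := by
    rw [Subgroup.closure_le]
    rintro _ ⟨i, rfl⟩
    exact hmp i
  have hval : ∀ (j : Fin m) (n : ℤ), ((((bs α P j : PS (gens α) (deg P + 1)) :
      ℤ → Subgroup.closure (Set.range α)) n)⁻¹ : Subgroup.closure (Set.range α)).1 =
      (List.ofFn fun i => α i ^ (P i j).eval n).prod := by
    intro j n
    apply Equiv.ext
    intro x
    exact congrFun (orb_bs α P j n) x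
  have H : Sk μ ν (gens α) 𝓕 (bs α P)
      (fun j n => ((List.ofFn fun i => T i ^ (P i j).eval n).prod : Equiv.Perm (Y × X))) := by
    refine ⟨hΓ, Nat.le_add_left 1 (deg P), gens_top α, erg_tf hΓ herg, erg_free hΓ herg, ?_, ?_,
      ?_, ?_⟩
    · intro j hj
      rw [𝓕.zero] at hj
      obtain ⟨n, n', hn⟩ := h1 j
      apply hn
      rw [← hval, ← hval, hj n, hj n']
    · intro i j hij hj
      rw [𝓕.zero] at hj
      obtain ⟨n, n', hn⟩ := h2 i j hij
      apply hn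
      have e : ∀ t : ℤ, (List.ofFn fun l => α l ^ (P l i).eval t).prod *
          ((List.ofFn fun l => α l ^ (P l j).eval t).prod)⁻¹ =
          (((((bs α P i)⁻¹ * bs α P j : PS (gens α) (deg P + 1))) :
            ℤ → Subgroup.closure (Set.range α)) t).1 := by
        intro t
        rw [← hval i t, ← hval j t]
        show _ = ((((bs α P i : PS (gens α) (deg P + 1)) :
          ℤ → Subgroup.closure (Set.range α)) t)⁻¹ *
          ((bs α P j : PS (gens α) (deg P + 1)) : ℤ → Subgroup.closure (Set.range α)) t :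
            Subgroup.closure (Set.range α)).1
        rw [Subgroup.coe_mul, Subgroup.coe_inv, Subgroup.coe_inv, inv_inv]
      rw [e, e, hj n, hj n']
    · intro j n
      have h3 : (List.ofFn fun i => T i ^ (P i j).eval n).prod ∈ MPG (ν.prod μ) := by
        apply Subgroup.list_prod_mem
        intro x hx
        rw [List.mem_ofFn] at hx
        obtain ⟨i, rfl⟩ := hx
        exact zpow_mem (hmp i) _
      exact h3.1
    · intro j n
      obtain ⟨s, w, hsw⟩ := list_pair α T (fun i => ⟨hα i, S i, c i, hT i⟩)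
        (fun i => (P i j).eval n)
      refine ⟨s, w, fun y x => ?_⟩
      rw [orb_bs]
      exact hsw y x
  refine H.linf hf fun j => ?_
  rcases hF j with h | ⟨a, ha, b, hb, h⟩ | h
  · exact Or.inl h
  · right
    have e : (fun n : ℤ => (((List.ofFn fun i => T i ^ (P i j).eval n).prod :
        Equiv.Perm (Y × X)) : Y × X → Y × X)) = fun n => ((a ^ n * b : Equiv.Perm (Y × X)) :
        Y × X → Y × X) := by
      funext n
      rw [h]
    rw [e]
    exact good_lin (hclo ha) (hclo hb)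
  · exact Or.inr h

end top

end

end Pool.Agent.W5h43.NA
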