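import Pool.Agent.W5h43.NA.Pet
import Pool.Agent.Helper28.LCN.Base

/-!
# Independence of polynomial orbits under fixed point free actions of torsion-free nilpotent
groups
-/

set_option autoImplicit false
set_option linter.unusedSectionVars false

namespace Pool.Agent.W5h43.NA

open Pool.Agent.Helper28.LCN (TorsionFree root_comm_nilp)
open SemidirectProduct (inl inr)

noncomputable section

section tf

variable {G : Type} [Group G] {ι : Type} {T : ι → G} {n : ℕ}

theorem ps_tf (hG : TorsionFree G) : TorsionFree (PS T n) := by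
  intro b k hk hb
  apply Subtype.ext
  funext t
  exact hG _ k hk (congrFun (congrArg Subtype.val hb) t)

theorem gam_tf (hG : TorsionFree G) : TorsionFree (Gam T n) := by
  intro x k hk hx
  have h1 : x.right = 1 := by
    have h2 := congrArg (SemidirectProduct.rightHom : Gam T n →* Multiplicative ℤ) hx
    rw [map_pow, map_one] at h2
    have h3 : k • x.right.toAdd = 0 := congrArg Multiplicative.toAdd h2
    rw [smul_eq_zero] at h3
    rcases h3 with h3 | h3
    · omega
    · exact congrArg Multiplicative.ofAdd h3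
  have h2 : x = inl x.left := by
    conv_lhs => rw [← SemidirectProduct.inl_left_mul_inr_right x, h1, map_one, mul_one]
  have h3 : x.left ^ k = 1 := by
    have h4 : (inl (x.left ^ k) : Gam T n) = inl 1 := by
      rw [map_pow, ← h2, hx, map_one]
    exact SemidirectProduct.inl_injective h4
  rw [h2, ps_tf hG _ k hk h3, map_one]

/-- the shift as an element of the group -/
def sg (T : ι → G) (n : ℕ) : Gam T n := inr (Multiplicative.ofAdd (1 : ℤ))

theorem sg_zpow (k : ℤ) : (sg T n) ^ k = inr (Multiplicative.ofAdd k) := by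
  unfold sg
  rw [← map_zpow]
  congr 1
  rw [← ofAdd_zsmul, smul_eq_mul, mul_one]

theorem sg_pow (k : ℕ) : (sg T n) ^ k = inr (Multiplicative.ofAdd (k : ℤ)) := by
  rw [← zpow_natCast, sg_zpow]

theorem comm_sg {x : Gam T n} (h : Commute x (sg T n)) (t : ℤ) :
    (x.left : ℤ → G) t = (x.left : ℤ → G) 0 := by
  have h1 : shP T n 1 x.left = x.left := by
    have h2 := congrArg SemidirectProduct.left h.eq
    have e1 : (x * sg T n).left = x.left := by
      show x.left * (shA T n x.right) 1 = x.left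
      rw [map_one, mul_one]
    have e2 : (sg T n * x).left = shP T n 1 x.left := by
      show 1 * (shA T n (Multiplicative.ofAdd 1)) x.left = _
      rw [one_mul]
      rfl
    rw [e1, e2] at h2
    exact h2.symm
  have h2 : ∀ t, (x.left : ℤ → G) (t + 1) = (x.left : ℤ → G) t := fun t =>
    congrFun (congrArg Subtype.val h1) t
  induction t using Int.induction_on with
  | zero => rfl
  | succ i ih => rw [h2, ih]
  | pred i ih =>
    rw [← h2, sub_add_cancel]
    exact ih

theorem sg_comm {x : Gam T n} (h : ∀ t, (x.left : ℤ → G) t = (x.left : ℤ → G) 0) :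
    Commute x (sg T n) := by
  apply SemidirectProduct.ext
  · show x.left * (shA T n x.right) 1 = 1 * (shA T n (Multiplicative.ofAdd 1)) x.left
    rw [map_one, mul_one, one_mul]
    apply Subtype.ext
    funext t
    show (x.left : ℤ → G) t = (x.left : ℤ → G) (t + 1)
    rw [h, h (t + 1)]
  · show x.right * Multiplicative.ofAdd 1 = Multiplicative.ofAdd 1 * x.right
    rw [mul_comm]

theorem conj_sh (b : PS T n) (k : ℤ) :
    (inl b : Gam T n)⁻¹ * (sg T n) ^ k * inl b = inl (b⁻¹ * shP T n k b) * (sg T n) ^ k := by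
  have h3 := SemidirectProduct.inl_aut (φ := shA T n) (Multiplicative.ofAdd k) b
  rw [map_inv] at h3
  have h4 : (inl (shP T n k b) : Gam T n) = inr (Multiplicative.ofAdd k) * inl b *
      (inr (Multiplicative.ofAdd k))⁻¹ := h3
  rw [map_mul, map_inv, sg_zpow, h4]
  group

theorem left_mul_sg (b : PS T n) (k : ℤ) : (inl b * (sg T n) ^ k : Gam T n).left = b := by
  rw [sg_zpow]
  show b * (shA T n 1) 1 = b
  rw [map_one, mul_one]

variable [Group.IsNilpotent G]

theorem lin_all (hG : TorsionFree G) {b : PS T n} {k : ℕ} (hk : 0 < k)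
    (h : ∀ t, ((b⁻¹ * shP T n k b : PS T n) : ℤ → G) t =
      ((b⁻¹ * shP T n k b : PS T n) : ℤ → G) 0) (j : ℤ) (t : ℤ) :
    ((b⁻¹ * shP T n j b : PS T n) : ℤ → G) t = ((b⁻¹ * shP T n j b : PS T n) : ℤ → G) 0 := by
  have hn : Group.IsNilpotent (Gam T n) := gam_nilp
  set y : Gam T n := (inl b)⁻¹ * sg T n * inl b with hy
  have hyz : ∀ j : ℤ, y ^ j = inl (b⁻¹ * shP T n j b) * (sg T n) ^ j := by
    intro j
    rw [← conj_sh, hy]
    have h1 := conj_zpow (i := j) (a := (inl b : Gam T n)⁻¹) (b := sg T n)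
    rw [inv_inv] at h1
    exact h1
  have h1 : Commute (y ^ k) (sg T n) := by
    apply sg_comm
    intro t
    rw [← zpow_natCast, hyz, left_mul_sg]
    exact h t
  have h2 : Commute y (sg T n) := root_comm_nilp (Gam T n) (gam_tf hG) y (sg T n) k hk h1
  have h3 : Commute (y ^ j) (sg T n) := h2.zpow_left j
  have h4 := comm_sg h3 t
  rw [hyz, left_mul_sg] at h4
  exact h4

theorem per_const (hG : TorsionFree G) {b : PS T n} {k : ℕ} (hk : 0 < k)
    (h : shP T n k b = b) (t : ℤ) : (b : ℤ → G) t = (b : ℤ → G) 0 := by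
  have hn : Group.IsNilpotent (Gam T n) := gam_nilp
  have h1 : Commute ((sg T n) ^ k) (inl b : Gam T n) := by
    have h2 := conj_sh b k
    rw [h, inv_mul_cancel, map_one, one_mul, zpow_natCast] at h2
    have h3 := congrArg (fun z => (inl b : Gam T n) * z) h2
    simp only [← mul_assoc, mul_inv_cancel, one_mul] at h3
    exact h3
  have h2 := root_comm_nilp (Gam T n) (gam_tf hG) (sg T n) (inl b) k hk h1
  exact comm_sg h2.symm t

theorem class_const (hG : TorsionFree G) (𝓕 : Flt T n) {q : ℕ} (hq : 0 < q) (r : ℤ) (i : ℕ) :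
    ∀ (b : PS T n), b ∈ 𝓕.H i → ∀ c : G, (∀ t : ℤ, (b : ℤ → G) (r + q * t) = c) → b ∈ 𝓕.H 0 := by
  induction i with
  | zero =>
    intro b hb _ _
    exact hb
  | succ i ih =>
    intro b hb c hc
    have h1 := 𝓕.shf i b hb q
    have h2 : ∀ t : ℤ, ((b⁻¹ * shP T n q b : PS T n) : ℤ → G) (r + q * t) = 1 := by
      intro t
      show ((b : ℤ → G) (r + q * t))⁻¹ * (b : ℤ → G) (r + q * t + q) = 1
      have e : r + (q : ℤ) * t + q = r + q * (t + 1) := by ring
      rw [e, hc, hc, inv_mul_cancel]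
    have h3 := (𝓕.zero _).1 (ih _ h1 1 h2)
    have h4 : b⁻¹ * shP T n q b = 1 := by
      apply Subtype.ext
      funext t
      rw [h3 t, ← h3 (r + q * 0), h2 0]
      rfl
    rw [𝓕.zero]
    exact per_const hG hq (inv_mul_eq_one.1 h4).symm

end tf

section indep

variable {G M : Type} [Group G] [AddCommGroup M] [DistribMulAction G M] {ι : Type} {T : ι → G}
  {n : ℕ} (𝓕 : Flt T n)

/-- reduced families -/
def Red (L : List (PS T n × M)) : Prop :=
  (∀ x ∈ L, x.2 ≠ 0) ∧ L.Pairwise fun x y => x.1⁻¹ * y.1 ∉ 𝓕.H 0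

theorem psi_flatMap (L : List (PS T n × M)) (f : PS T n × M → List (PS T n × M)) (t : ℤ) :
    psi (L.flatMap f) t = (L.map fun x => psi (f x) t).sum := by
  induction L with
  | nil => rfl
  | cons x L ih => rw [List.flatMap_cons, psi_append, ih, List.map_cons, List.sum_cons]

open Classical in
/-- merged differences -/
def mg (h : ℤ) (x : PS T n × M) : List (PS T n × M) :=
  if x.1⁻¹ * shP T n h x.1 ∈ 𝓕.H 0 then
    [(x.1, ((x.1⁻¹ * shP T n h x.1 : PS T n) : ℤ → G) 0 • x.2 - x.2)]
  else [(shP T n h x.1, x.2), (x.1, -x.2)]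

theorem psi_mg (h : ℤ) (x : PS T n × M) (t : ℤ) :
    psi (mg 𝓕 h x) t = (x.1 : ℤ → G) (t + h) • x.2 - (x.1 : ℤ → G) t • x.2 := by
  classical
  unfold mg
  split_ifs with hx
  · rw [psi_cons, psi_nil, add_zero]
    show (x.1 : ℤ → G) t • (((x.1⁻¹ * shP T n h x.1 : PS T n) : ℤ → G) 0 • x.2 - x.2) = _
    rw [smul_sub, ← mul_smul, ← (𝓕.zero _).1 hx t]
    show ((x.1 : ℤ → G) t * (((x.1 : ℤ → G) t)⁻¹ * (x.1 : ℤ → G) (t + h))) • x.2 - _ = _
    rw [mul_inv_cancel_left]
  · rw [psi_cons, psi_cons, psi_nil, add_zero]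
    show (x.1 : ℤ → G) (t + h) • x.2 + (x.1 : ℤ → G) t • (-x.2) = _
    rw [smul_neg, sub_eq_add_neg]

theorem mg_mem {h : ℤ} {x y : PS T n × M} (hy : y ∈ mg 𝓕 h x) :
    y.1 = x.1 ∨ y.1 = shP T n h x.1 := by
  classical
  unfold mg at hy
  split_ifs at hy with hx
  · rw [List.mem_singleton] at hy
    rw [hy]
    exact Or.inl rfl
  · rw [List.mem_cons, List.mem_singleton] at hy
    rcases hy with rfl | rfl
    · exact Or.inr rfl
    · exact Or.inl rfl

theorem mem_mg {h : ℤ} {x : PS T n × M} : ∃ y ∈ mg 𝓕 h x, y.1 = x.1 := by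
  classical
  unfold mg
  split_ifs with hx
  · exact ⟨_, List.mem_singleton_self _, rfl⟩
  · exact ⟨_, List.mem_cons_of_mem _ (List.mem_singleton_self _), rfl⟩

variable {𝓕}

theorem red_trL {b₁ : PS T n} {L : List (PS T n × M)} (h : Red 𝓕 L) : Red 𝓕 (trL b₁ L) := by
  refine ⟨?_, ?_⟩
  · intro y hy
    obtain ⟨x, hx, rfl⟩ := List.mem_map.1 hy
    exact h.1 x hx
  · unfold trL
    rw [List.pairwise_map]
    refine h.2.imp fun {x y} hxy => ?_
    have e : (b₁⁻¹ * x.1)⁻¹ * (b₁⁻¹ * y.1) = x.1⁻¹ * y.1 := by group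
    rw [e]
    exact hxy

variable [Group.IsNilpotent G]

theorem exists_h (hG : TorsionFree G) (L : List (PS T n × M)) :
    ∃ h : ℕ, 0 < h ∧ ∀ x ∈ L, ∀ y ∈ L, x.1⁻¹ * y.1 ∉ 𝓕.H 0 →
      (shP T n h x.1)⁻¹ * y.1 ∉ 𝓕.H 0 := by
  classical
  have hsub : ∀ x y : PS T n × M, Set.Subsingleton {h : ℕ | 0 < h ∧ x.1⁻¹ * y.1 ∉ 𝓕.H 0 ∧
      (shP T n h x.1)⁻¹ * y.1 ∈ 𝓕.H 0} := by
    have key : ∀ (x y : PS T n × M) (h h' : ℕ), h < h' → 0 < h → x.1⁻¹ * y.1 ∉ 𝓕.H 0 →
        (shP T n h x.1)⁻¹ * y.1 ∈ 𝓕.H 0 → (shP T n h' x.1)⁻¹ * y.1 ∈ 𝓕.H 0 → False := by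
      intro x y h h' hlt h0 hne h1 h2
      have h3 : (shP T n h x.1)⁻¹ * shP T n h' x.1 ∈ 𝓕.H 0 := by
        have h4 := mul_mem h1 (inv_mem h2)
        have e : (shP T n h x.1)⁻¹ * y.1 * ((shP T n h' x.1)⁻¹ * y.1)⁻¹ =
            (shP T n h x.1)⁻¹ * shP T n h' x.1 := by group
        rwa [e] at h4
      have h4 : shP T n h (x.1⁻¹ * shP T n ((h' - h : ℕ) : ℤ) x.1) ∈ 𝓕.H 0 := by
        rw [map_mul, map_inv, shP_shP]
        have e : (h : ℤ) + ((h' - h : ℕ) : ℤ) = h' := by
          rw [Nat.cast_sub hlt.le]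
          ring
        rw [e]
        exact h3
      rw [shP_mem_iff] at h4
      have h5 := lin_all hG (by omega) ((𝓕.zero _).1 h4) h
      have h6 : x.1⁻¹ * shP T n h x.1 ∈ 𝓕.H 0 := (𝓕.zero _).2 h5
      apply hne
      have h7 := mul_mem h6 h1
      have e : x.1⁻¹ * shP T n h x.1 * ((shP T n h x.1)⁻¹ * y.1) = x.1⁻¹ * y.1 := by group
      rwa [e] at h7
    intro x y h hh h' hh'
    rcases lt_trichotomy h h' with hlt | heq | hgt
    · exact (key x y h h' hlt hh.1 hh.2.1 hh.2.2 hh'.2.2).elim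
    · exact heq
    · exact (key x y h' h hgt hh'.1 hh'.2.1 hh'.2.2 hh.2.2).elim
  have hfin : Set.Finite (⋃ x ∈ {x | x ∈ L}, ⋃ y ∈ {y | y ∈ L}, {h : ℕ | 0 < h ∧
      x.1⁻¹ * y.1 ∉ 𝓕.H 0 ∧ (shP T n h x.1)⁻¹ * y.1 ∈ 𝓕.H 0}) := by
    apply Set.Finite.biUnion (List.finite_toSet L)
    intro x _
    apply Set.Finite.biUnion (List.finite_toSet L)
    intro y _
    exact (hsub x y).finite
  obtain ⟨h, hh⟩ := (hfin.union (Set.finite_singleton 0)).exists_notMem
  rw [Set.mem_union, not_or] at hh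
  have h0 : 0 < h := Nat.pos_of_ne_zero hh.2
  refine ⟨h, h0, fun x hx y hy hxy hbad => hh.1 ?_⟩
  simp only [Set.mem_iUnion]
  exact ⟨x, hx, y, hy, h0, hxy, hbad⟩

/-- **Independence.** -/
theorem indep (hG : TorsionFree G) (hfree : ∀ g : G, g ≠ 1 → ∀ u : M, g • u = u → u = 0)
    (w : Fin 𝓕.s → ℕ) : ∀ L : List (PS T n × M), wt 𝓕 (sq L) = w → Red 𝓕 L → L ≠ [] →
      ¬ ∀ t, psi L t = 0 := by
  classical
  induction w using (lx_wf 𝓕.s).induction with
  | h w ih =>
    -- families without constants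
    have hA : ∀ L : List (PS T n × M), wt 𝓕 (sq L) = w → Red 𝓕 L → L ≠ [] →
        (∀ b ∈ sq L, b ∉ 𝓕.H 0) → ¬ ∀ t, psi L t = 0 := by
      intro L hw hR hne h0 hz
      obtain ⟨b₁, hb₁⟩ := exists_trL hne h0
      rw [hw] at hb₁
      refine ih _ hb₁ (trL b₁ L) rfl (red_trL hR) ?_ ?_
      · intro h1
        exact hne (List.map_eq_nil_iff.1 h1)
      · intro t
        rw [psi_trL, hz, smul_zero]
    intro L hw hR hne hz
    by_cases hnc : nc 𝓕 L = []
    · -- all terms are constant
      have hall : ∀ x ∈ L, x.1 ∈ 𝓕.H 0 := by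
        intro x hx
        by_contra hcon
        have h1 : x ∈ nc 𝓕 L := (mem_nc 𝓕).2 ⟨hx, hcon⟩
        rw [hnc] at h1
        exact absurd h1 List.not_mem_nil
      rcases L with _ | ⟨x, L⟩
      · exact hne rfl
      · rcases L with _ | ⟨y, L⟩
        · have h1 := hz 0
          rw [psi_cons, psi_nil, add_zero] at h1
          exact hR.1 x List.mem_cons_self ((smul_eq_zero_iff_eq _).1 h1)
        · have h1 := (List.pairwise_cons.1 hR.2).1 y List.mem_cons_self
          exact h1 (mul_mem (inv_mem (hall x List.mem_cons_self))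
            (hall y (List.mem_cons_of_mem _ List.mem_cons_self)))
    · set L₀ := nc 𝓕 L with hL₀
      have hmem : ∀ x, x ∈ L₀ ↔ x ∈ L ∧ x.1 ∉ 𝓕.H 0 := fun x => mem_nc 𝓕
      have hR₀ : L₀.Pairwise fun x y => x.1⁻¹ * y.1 ∉ 𝓕.H 0 := List.Pairwise.filter _ hR.2
      obtain ⟨h, hh0, hh⟩ := exists_h (𝓕 := 𝓕) hG L₀
      have hne1 : L₀.flatMap (mg 𝓕 h) ≠ [] := by
        intro h1
        rw [List.flatMap_eq_nil_iff] at h1
        obtain ⟨x, hx⟩ := List.exists_mem_of_ne_nil _ hnc
        obtain ⟨y, hy, _⟩ := mem_mg 𝓕 (h := (h : ℤ)) (x := x)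
        rw [h1 x hx] at hy
        exact absurd hy List.not_mem_nil
      refine hA (L₀.flatMap (mg 𝓕 h)) ?_ ?_ hne1 ?_ ?_
      · rw [← hw]
        apply wt_sh (k := (h : ℤ))
        · intro b hb
          obtain ⟨y, hy, rfl⟩ := mem_sq.1 hb
          obtain ⟨x, hx, hyx⟩ := List.mem_flatMap.1 hy
          rcases mg_mem 𝓕 hyx with e | e
          · exact Or.inl (mem_sq.2 ⟨x, ((hmem x).1 hx).1, e.symm⟩)
          · exact Or.inr ⟨x.1, mem_sq.2 ⟨x, ((hmem x).1 hx).1, rfl⟩, e⟩
        · intro b hb hb0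
          obtain ⟨x, hx, rfl⟩ := mem_sq.1 hb
          obtain ⟨y, hy, e⟩ := mem_mg 𝓕 (h := (h : ℤ)) (x := x)
          exact mem_sq.2 ⟨y, List.mem_flatMap.2 ⟨x, (hmem x).2 ⟨hx, hb0⟩, hy⟩, e⟩
      · refine ⟨?_, ?_⟩
        · intro y hy
          obtain ⟨x, hx, hyx⟩ := List.mem_flatMap.1 hy
          have hx0 := hR.1 x ((hmem x).1 hx).1
          unfold mg at hyx
          split_ifs at hyx with hc
          · rw [List.mem_singleton] at hyx
            rw [hyx]
            show ((x.1⁻¹ * shP T n h x.1 : PS T n) : ℤ → G) 0 • x.2 - x.2 ≠ 0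
            intro h1
            rw [sub_eq_zero] at h1
            by_cases hg1 : ((x.1⁻¹ * shP T n h x.1 : PS T n) : ℤ → G) 0 = 1
            · have h2 : x.1⁻¹ * shP T n h x.1 = 1 := by
                apply Subtype.ext
                funext t
                rw [(𝓕.zero _).1 hc t, hg1]
                rfl
              have h3 := per_const hG hh0 (inv_mul_eq_one.1 h2).symm
              exact ((hmem x).1 hx).2 ((𝓕.zero _).2 h3)
            · exact hx0 (hfree _ hg1 _ h1)
          · rw [List.mem_cons, List.mem_singleton] at hyx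
            rcases hyx with rfl | rfl
            · exact hx0
            · exact neg_ne_zero.2 hx0
        · rw [List.pairwise_flatMap]
          refine ⟨?_, ?_⟩
          · intro x hx
            unfold mg
            split_ifs with hc
            · exact List.pairwise_singleton _ _
            · rw [List.pairwise_cons]
              refine ⟨?_, List.pairwise_singleton _ _⟩
              intro y hy
              rw [List.mem_singleton] at hy
              rw [hy]
              show (shP T n h x.1)⁻¹ * x.1 ∉ 𝓕.H 0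
              intro h1
              apply hc
              have h2 := inv_mem h1
              rwa [mul_inv_rev, inv_inv] at h2
          · refine (List.Pairwise.and_mem.1 hR₀).imp fun {x y} hxy => ?_
            obtain ⟨hx, hy, hxy⟩ := hxy
            have hyx : y.1⁻¹ * x.1 ∉ 𝓕.H 0 := by
              intro h1
              apply hxy
              have h2 := inv_mem h1
              rwa [mul_inv_rev, inv_inv] at h2
            intro a ha b hb
            rcases mg_mem 𝓕 ha with ea | ea <;> rcases mg_mem 𝓕 hb with eb | eb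
            · rw [ea, eb]
              exact hxy
            · rw [ea, eb]
              intro h1
              apply hh y hy x hx hyx
              have h2 := inv_mem h1
              rwa [mul_inv_rev, inv_inv] at h2
            · rw [ea, eb]
              exact hh x hx y hy hxy
            · rw [ea, eb, ← map_inv, ← map_mul, shP_mem_iff]
              exact hxy
      · intro b hb
        obtain ⟨y, hy, rfl⟩ := mem_sq.1 hb
        obtain ⟨x, hx, hyx⟩ := List.mem_flatMap.1 hy
        rcases mg_mem 𝓕 hyx with e | e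
        · rw [e]
          exact ((hmem x).1 hx).2
        · rw [e, shP_mem_iff]
          exact ((hmem x).1 hx).2
      · intro t
        rw [psi_flatMap]
        have e : (L₀.map fun x => psi (mg 𝓕 h x) t) =
            L₀.map fun x => (x.1 : ℤ → G) (t + h) • x.2 - (x.1 : ℤ → G) t • x.2 := by
          apply List.map_congr_left
          intro x _
          exact psi_mg 𝓕 h x t
        rw [e]
        have e2 : (L₀.map fun x => (x.1 : ℤ → G) (t + h) • x.2 - (x.1 : ℤ → G) t • x.2).sum =
            psi L₀ (t + h) - psi L₀ t := by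
          unfold psi
          induction L₀ with
          | nil => simp
          | cons x L' ih' => simp only [List.map_cons, List.sum_cons, ih']; abel
        rw [e2, hL₀, psi_nc, hz, hz, sub_zero]

end indep

end

end Pool.Agent.W5h43.NA
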