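import Pool.Agent.W5h43.NA.Seq
import Pool.Agent.Helper294.HallC.CycAll
import Pool.Agent.Helper294.HallM.Final

/-!
# Periods of the functions `∑ b(t) u` are bounded
-/

set_option autoImplicit false

namespace Pool.Agent.W5h43.NA

open Pool.Agent.Helper294.HallC (PC FGM Stb Cyc cyc_all)
open Pool.Agent.TH635.AA (Pol Pol_const)

section sub

variable {Γ A : Type} [Group Γ] [AddCommGroup A] [DistribMulAction Γ A]

/-- the action on a stable subgroup -/
@[reducible] def subAct (B : AddSubgroup A) (hB : Stb Γ B) : DistribMulAction Γ B where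
  smul g x := ⟨g • (x : A), hB g x x.2⟩
  one_smul x := Subtype.ext (one_smul Γ (x : A))
  mul_smul g h x := Subtype.ext (mul_smul g h (x : A))
  smul_zero g := Subtype.ext (smul_zero (A := A) g)
  smul_add g x y := Subtype.ext (smul_add g (x : A) (y : A))

variable (Γ)

/-- the submodule generated by a finite set -/
def gsp (S : Set A) : AddSubgroup A := AddSubgroup.closure {a : A | ∃ g : Γ, ∃ s ∈ S, a = g • s}

variable {Γ}

theorem gsp_stb (S : Set A) : Stb Γ (gsp Γ S) := by
  intro g x hx
  unfold gsp at hx ⊢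
  induction hx using AddSubgroup.closure_induction with
  | mem x hx =>
    obtain ⟨g', s, hs, rfl⟩ := hx
    rw [← mul_smul]
    exact AddSubgroup.subset_closure ⟨_, s, hs, rfl⟩
  | zero => rw [smul_zero]; exact AddSubgroup.zero_mem _
  | add x y _ _ hx hy => rw [smul_add]; exact AddSubgroup.add_mem _ hx hy
  | neg x _ hx => rw [smul_neg]; exact AddSubgroup.neg_mem _ hx

theorem mem_gsp {S : Set A} {s : A} (hs : s ∈ S) : s ∈ gsp Γ S :=
  AddSubgroup.subset_closure ⟨1, s, hs, (one_smul _ _).symm⟩

theorem gsp_fgm (S : Finset A) :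
    @FGM Γ (gsp Γ (S : Set A)) _ _ (subAct _ (gsp_stb _)) := by
  classical
  let _ : DistribMulAction Γ (gsp Γ (S : Set A)) := subAct _ (gsp_stb _)
  let f : {x // x ∈ S} → gsp Γ (S : Set A) := fun s => ⟨s.1, mem_gsp (Finset.mem_coe.2 s.2)⟩
  refine ⟨S.attach.image f, ?_⟩
  rw [eq_top_iff]
  rintro ⟨x, hx⟩ _
  have key : ∀ x ∈ gsp Γ (S : Set A), ∀ hx : x ∈ gsp Γ (S : Set A),
      (⟨x, hx⟩ : gsp Γ (S : Set A)) ∈ AddSubgroup.closure {a : gsp Γ (S : Set A) | ∃ g : Γ,
        ∃ s ∈ S.attach.image f, a = g • s} := by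
    intro x hx
    unfold gsp at hx
    induction hx using AddSubgroup.closure_induction with
    | mem x hx =>
      intro hx'
      obtain ⟨g, s, hs, rfl⟩ := hx
      apply AddSubgroup.subset_closure
      refine ⟨g, f ⟨s, Finset.mem_coe.1 hs⟩, ?_, rfl⟩
      rw [Finset.mem_image]
      exact ⟨_, Finset.mem_attach _ _, rfl⟩
    | zero =>
      intro _
      exact AddSubgroup.zero_mem _
    | add x y hx hy ihx ihy =>
      intro hxy
      exact AddSubgroup.add_mem _ (ihx hx) (ihy hy)
    | neg x hx ihx =>
      intro _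
      exact AddSubgroup.neg_mem _ (ihx hx)
  exact key x hx hx

end sub

variable {G M : Type} [Group G] [AddCommGroup M] [DistribMulAction G M] {ι : Type} {T : ι → G}
  {n : ℕ}

/-- functions on `ℤ` -/
def Fn (M : Type) : Type := ℤ → M

instance : AddCommGroup (Fn M) := inferInstanceAs (AddCommGroup (ℤ → M))

/-- the action of sequences and shift on functions -/
instance actFn : DistribMulAction (Gam T n) (Fn M) where
  smul x F := fun t => (x.left : ℤ → G) t • F (t + x.right.toAdd)
  one_smul F := by
    funext t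
    show (1 : G) • F (t + 0) = F t
    rw [one_smul, add_zero]
  mul_smul x y F := by
    funext t
    show ((x.left : ℤ → G) t * (y.left : ℤ → G) (t + x.right.toAdd)) •
      F (t + (x.right.toAdd + y.right.toAdd)) = (x.left : ℤ → G) t •
        (y.left : ℤ → G) (t + x.right.toAdd) • F (t + x.right.toAdd + y.right.toAdd)
    rw [mul_smul, add_assoc]
  smul_zero x := by
    funext t
    show (x.left : ℤ → G) t • (0 : M) = 0
    rw [smul_zero]
  smul_add x F F' := by
    funext t
    show (x.left : ℤ → G) t • (F (t + x.right.toAdd) + F' (t + x.right.toAdd)) =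
      (x.left : ℤ → G) t • F (t + x.right.toAdd) + (x.left : ℤ → G) t • F' (t + x.right.toAdd)
    rw [smul_add]

theorem actFn_apply (x : Gam T n) (F : Fn M) (t : ℤ) :
    (x • F : Fn M) t = (x.left : ℤ → G) t • F (t + x.right.toAdd) := rfl

/-- the function of a family -/
def psi (L : List (PS T n × M)) (t : ℤ) : M := (L.map fun x => (x.1 : ℤ → G) t • x.2).sum

theorem psi_nil (t : ℤ) : psi ([] : List (PS T n × M)) t = 0 := rfl

theorem psi_cons (x : PS T n × M) (L : List (PS T n × M)) (t : ℤ) :
    psi (x :: L) t = (x.1 : ℤ → G) t • x.2 + psi L t := by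
  unfold psi
  rw [List.map_cons, List.sum_cons]

theorem psi_append (L L' : List (PS T n × M)) (t : ℤ) : psi (L ++ L') t = psi L t + psi L' t := by
  unfold psi
  rw [List.map_append, List.sum_append]

theorem const_mem (hn : 1 ≤ n) (hT : Subgroup.closure (Set.range T) = ⊤) (g : G) :
    (fun _ => g : ℤ → G) ∈ PS T n := by
  have hg : g ∈ Subgroup.closure (Set.range T) := by
    rw [hT]
    exact Subgroup.mem_top g
  induction hg using Subgroup.closure_induction with
  | mem g hg =>
    obtain ⟨i, rfl⟩ := hg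
    apply Subgroup.subset_closure
    refine ⟨i, fun _ => 1, Pol_const hn 1, ?_⟩
    funext t
    rw [zpow_one]
  | one => exact one_mem _
  | mul g h _ _ ih ih' => exact mul_mem ih ih'
  | inv g _ ih => exact inv_mem ih

/-- constant functions -/
def cst (u : M) : Fn M := fun _ => u

/-- the function of a family -/
def psiF (L : List (PS T n × M)) : Fn M := psi L

/-- the function of one term -/
def ter (b : PS T n) (u : M) : Fn M := fun t => (b : ℤ → G) t • u

/-- the module of all functions -/
theorem psi_mem (hn : 1 ≤ n) (hT : Subgroup.closure (Set.range T) = ⊤) {S : Set M}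
    (hS : gsp G S = ⊤) (L : List (PS T n × M)) :
    psiF L ∈ gsp (Gam T n) (cst '' S) := by
  induction L with
  | nil => exact AddSubgroup.zero_mem _
  | cons x L ih =>
    have e : psiF (x :: L) = ter x.1 x.2 + psiF L := by
      funext t
      exact psi_cons x L t
    rw [e]
    refine AddSubgroup.add_mem _ ?_ ih
    obtain ⟨b, u⟩ := x
    have hu : u ∈ gsp G S := by
      rw [hS]
      exact AddSubgroup.mem_top u
    show ter b u ∈ _
    clear e
    unfold gsp at hu
    induction hu using AddSubgroup.closure_induction with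
    | mem u hu =>
      obtain ⟨g, s, hs, rfl⟩ := hu
      apply AddSubgroup.subset_closure
      refine ⟨SemidirectProduct.inl (b * ⟨_, const_mem hn hT g⟩), cst s, ⟨s, hs, rfl⟩, ?_⟩
      funext t
      show (b : ℤ → G) t • g • s = ((b : ℤ → G) t * g) • s
      rw [mul_smul]
    | zero =>
      have e0 : ter b (0 : M) = 0 := by
        funext t
        exact smul_zero _
      rw [e0]
      exact AddSubgroup.zero_mem _
    | add u v _ _ hu hv =>
      have e0 : ter b (u + v) = ter b u + ter b v := by
        funext t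
        exact smul_add _ _ _
      rw [e0]
      exact AddSubgroup.add_mem _ hu hv
    | neg u _ hu =>
      have e0 : ter b (-u) = -ter b u := by
        funext t
        exact smul_neg _ _
      rw [e0]
      exact AddSubgroup.neg_mem _ hu

/-- dilation of a family -/
def dilL (r q : ℤ) (L : List (PS T n × M)) : List (PS T n × M) :=
  L.map fun x => (⟨_, PS_dil x.1.2 r q⟩, x.2)

theorem psi_dilL (r q : ℤ) (L : List (PS T n × M)) (t : ℤ) :
    psi (dilL r q L) t = psi L (r + q * t) := by
  unfold psi dilL
  rw [List.map_map]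
  rfl

/-- **The periods are bounded.** -/
theorem per_bound [Finite ι] [Group.IsNilpotent G] (hn : 1 ≤ n)
    (hT : Subgroup.closure (Set.range T) = ⊤) (hM : FGM G M) :
    ∃ e : ℕ, 0 < e ∧ ∀ L : List (PS T n × M), ∀ k : ℕ, 0 < k → (∀ t, psi L (t + k) = psi L t) →
      ∀ t, psi L (t + e) = psi L t := by
  classical
  obtain ⟨S, hS⟩ := hM
  have hS' : gsp G (S : Set M) = ⊤ := hS
  let S' : Finset (Fn M) := S.image cst
  have hSS : (S' : Set (Fn M)) = cst '' (S : Set M) := Finset.coe_image
  let _ : DistribMulAction (Gam T n) (gsp (Gam T n) (S' : Set (Fn M))) := subAct _ (gsp_stb _)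
  have hC : Cyc (Gam T n) (gsp (Gam T n) (S' : Set (Fn M))) :=
    cyc_all Pool.Agent.Helper294.HallM.hypp Pool.Agent.Helper294.HallM.hyp0 gam_pc (gsp_fgm S')
  obtain ⟨_, e, he, h⟩ := hC
  refine ⟨e, he, fun L k hk hper t => ?_⟩
  have hmem : psiF L ∈ gsp (Gam T n) (S' : Set (Fn M)) := by
    rw [hSS]
    exact psi_mem hn hT hS' L
  let g : Gam T n := SemidirectProduct.inr (Multiplicative.ofAdd (1 : ℤ))
  have hg : ∀ j : ℕ, ∀ t : ℤ, ((g ^ j • (⟨psiF L, hmem⟩ : gsp (Gam T n) (S' : Set (Fn M)))) :
      gsp (Gam T n) (S' : Set (Fn M))).1 t = psi L (t + j) := by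
    intro j t
    have e1 : g ^ j = SemidirectProduct.inr (Multiplicative.ofAdd (j : ℤ)) := by
      show (SemidirectProduct.inr (Multiplicative.ofAdd (1 : ℤ)) : Gam T n) ^ j = _
      rw [← map_pow]
      congr 1
      rw [← ofAdd_nsmul, nsmul_eq_mul, mul_one]
    rw [e1]
    show (1 : G) • psi L (t + j) = psi L (t + j)
    rw [one_smul]
  have h1 := (h g ⟨psiF L, hmem⟩).2 ⟨k, hk, by
    apply Subtype.ext
    funext t
    rw [hg k t]
    exact hper t⟩
  have h2 := congrFun (congrArg Subtype.val h1) t
  rw [hg e t] at h2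
  exact h2

end Pool.Agent.W5h43.NA
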