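import Pool.Agent.W5h43.NA.Filt
import Pool.Agent.TH635.AA.Pet

/-!
# Phases and zeros of the functions `∑ b(t) u`
-/

set_option autoImplicit false
set_option linter.unusedSectionVars false

namespace Pool.Agent.W5h43.NA

open Pool.Agent.TH635.AA (Pol Pol_const Pol_zero_fun dd_succ card_sq_le)
open Pool.Agent.Helper294.HallC (FGM)

noncomputable section

variable {G M : Type} [Group G] [AddCommGroup M] [DistribMulAction G M] {ι : Type} {T : ι → G}
  {n : ℕ}

open Classical in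
/-- the sequences of a family -/
def sq (L : List (PS T n × M)) : Finset (PS T n) := (L.map Prod.fst).toFinset

theorem mem_sq {L : List (PS T n × M)} {b : PS T n} : b ∈ sq L ↔ ∃ x ∈ L, x.1 = b := by
  classical
  unfold sq
  rw [List.mem_toFinset, List.mem_map]

theorem sq_card (L : List (PS T n × M)) : (sq L).card ≤ L.length := by
  classical
  unfold sq
  refine (List.toFinset_card_le _).trans ?_
  rw [List.length_map]

/-- translation -/
def trL (b₁ : PS T n) (L : List (PS T n × M)) : List (PS T n × M) :=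
  L.map fun x => (b₁⁻¹ * x.1, x.2)

theorem psi_trL (b₁ : PS T n) (L : List (PS T n × M)) (t : ℤ) :
    psi (trL b₁ L) t = ((b₁ : ℤ → G) t)⁻¹ • psi L t := by
  induction L with
  | nil => rw [trL, List.map_nil, psi_nil, smul_zero]
  | cons x L ih =>
    have e : trL b₁ (x :: L) = (b₁⁻¹ * x.1, x.2) :: trL b₁ L := rfl
    rw [e, psi_cons, psi_cons, ih, smul_add]
    congr 1
    show (((b₁ : ℤ → G) t)⁻¹ * (x.1 : ℤ → G) t) • x.2 = _
    rw [mul_smul]

theorem mem_sq_trL {b₁ b : PS T n} {L : List (PS T n × M)} :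
    b ∈ sq (trL b₁ L) ↔ b₁ * b ∈ sq L := by
  rw [mem_sq, mem_sq]
  constructor
  · rintro ⟨y, hy, rfl⟩
    obtain ⟨x, hx, rfl⟩ := List.mem_map.1 hy
    exact ⟨x, hx, (mul_inv_cancel_left _ _).symm⟩
  · rintro ⟨x, hx, hxb⟩
    refine ⟨(b₁⁻¹ * x.1, x.2), List.mem_map.2 ⟨x, hx, rfl⟩, ?_⟩
    show b₁⁻¹ * x.1 = b
    rw [hxb, inv_mul_cancel_left]

variable (𝓕 : Flt T n)

open Classical in
/-- the nonconstant part -/
def nc (L : List (PS T n × M)) : List (PS T n × M) := L.filter fun x => decide (x.1 ∉ 𝓕.H 0)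

theorem mem_nc {L : List (PS T n × M)} {x : PS T n × M} : x ∈ nc 𝓕 L ↔ x ∈ L ∧ x.1 ∉ 𝓕.H 0 := by
  classical
  unfold nc
  rw [List.mem_filter, decide_eq_true_iff]

theorem psi_nc (L : List (PS T n × M)) (t h : ℤ) :
    psi (nc 𝓕 L) (t + h) - psi (nc 𝓕 L) t = psi L (t + h) - psi L t := by
  classical
  induction L with
  | nil => rfl
  | cons x L ih =>
    by_cases hx : x.1 ∈ 𝓕.H 0
    · have e : nc 𝓕 (x :: L) = nc 𝓕 L := List.filter_cons_of_neg (by simpa using hx)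
      rw [e, ih, psi_cons, psi_cons, (𝓕.zero x.1).1 hx (t + h), (𝓕.zero x.1).1 hx t,
        add_sub_add_left_eq_sub]
    · have e : nc 𝓕 (x :: L) = x :: nc 𝓕 L := List.filter_cons_of_pos (by simpa using hx)
      rw [e, psi_cons, psi_cons, psi_cons, psi_cons, add_sub_add_comm, ih, add_sub_add_comm]

/-- differences -/
def difL (h : ℤ) (L : List (PS T n × M)) : List (PS T n × M) :=
  ((nc 𝓕 L).map fun x => (shP T n h x.1, x.2)) ++ (nc 𝓕 L).map fun x => (x.1, -x.2)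

theorem psi_difL (h : ℤ) (L : List (PS T n × M)) (t : ℤ) :
    psi (difL 𝓕 h L) t = psi L (t + h) - psi L t := by
  rw [← psi_nc 𝓕 L t h, difL, psi_append, sub_eq_add_neg]
  congr 1
  · unfold psi
    rw [List.map_map]
    rfl
  · induction nc 𝓕 L with
    | nil => rw [List.map_nil, psi_nil, neg_zero]
    | cons x L ih => rw [List.map_cons, psi_cons, psi_cons, ih, smul_neg, neg_add]

theorem length_difL (h : ℤ) (L : List (PS T n × M)) : (difL 𝓕 h L).length ≤ 2 * L.length := by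
  classical
  have h1 : (nc 𝓕 L).length ≤ L.length := List.length_filter_le _ _
  rw [difL, List.length_append, List.length_map, List.length_map]
  omega

theorem mem_sq_difL {h : ℤ} {L : List (PS T n × M)} {b : PS T n} :
    b ∈ sq (difL 𝓕 h L) ↔
      (∃ b' ∈ sq L, b' ∉ 𝓕.H 0 ∧ b = shP T n h b') ∨ (b ∈ sq L ∧ b ∉ 𝓕.H 0) := by
  rw [mem_sq, difL]
  constructor
  · rintro ⟨y, hy, rfl⟩
    rcases List.mem_append.1 hy with hy | hy
    · obtain ⟨x, hx, rfl⟩ := List.mem_map.1 hy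
      rw [mem_nc] at hx
      exact Or.inl ⟨x.1, mem_sq.2 ⟨x, hx.1, rfl⟩, hx.2, rfl⟩
    · obtain ⟨x, hx, rfl⟩ := List.mem_map.1 hy
      rw [mem_nc] at hx
      exact Or.inr ⟨mem_sq.2 ⟨x, hx.1, rfl⟩, hx.2⟩
  · rintro (⟨b', hb', hb0, rfl⟩ | ⟨hb, hb0⟩)
    · obtain ⟨x, hx, rfl⟩ := mem_sq.1 hb'
      exact ⟨(shP T n h x.1, x.2), List.mem_append.2 (Or.inl (List.mem_map.2
        ⟨x, (mem_nc 𝓕).2 ⟨hx, hb0⟩, rfl⟩)), rfl⟩
    · obtain ⟨x, hx, rfl⟩ := mem_sq.1 hb
      exact ⟨(x.1, -x.2), List.mem_append.2 (Or.inr (List.mem_map.2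
        ⟨x, (mem_nc 𝓕).2 ⟨hx, hb0⟩, rfl⟩)), rfl⟩

theorem difL_nc {h : ℤ} {L : List (PS T n × M)} {b : PS T n} (hb : b ∈ sq (difL 𝓕 h L)) :
    b ∉ 𝓕.H 0 := by
  rcases (mem_sq_difL 𝓕).1 hb with ⟨b', _, hb0, rfl⟩ | ⟨_, hb0⟩
  · rwa [shP_mem_iff]
  · exact hb0

theorem wt_difL (h : ℤ) (L : List (PS T n × M)) : wt 𝓕 (sq (difL 𝓕 h L)) = wt 𝓕 (sq L) := by
  apply wt_sh (k := h)
  · intro b hb
    rcases (mem_sq_difL 𝓕).1 hb with ⟨b', hb', _, rfl⟩ | ⟨hb, _⟩
    · exact Or.inr ⟨b', hb', rfl⟩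
    · exact Or.inl hb
  · intro b hb hb0
    exact (mem_sq_difL 𝓕).2 (Or.inr ⟨hb, hb0⟩)

variable {𝓕}

theorem exists_trL {L : List (PS T n × M)} (hL : L ≠ []) (h0 : ∀ b ∈ sq L, b ∉ 𝓕.H 0) :
    ∃ b₁, lx (wt 𝓕 (sq (trL b₁ L))) (wt 𝓕 (sq L)) := by
  obtain ⟨x, hx⟩ := List.exists_mem_of_ne_nil L hL
  obtain ⟨b₁, _, h⟩ := exists_tr (𝓕 := 𝓕) (S := sq L) ⟨x.1, mem_sq.2 ⟨x, hx, rfl⟩⟩ h0
    (S' := fun b₁ => sq (trL b₁ L)) fun b₁ b => mem_sq_trL
  exact ⟨b₁, h⟩

/-- **Phases are polynomial.** -/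
theorem phase {K : AddSubgroup M} (hK : ∀ (g : G), ∀ x ∈ K, g • x = x) (w : Fin 𝓕.s → ℕ) :
    ∀ L : List (PS T n × M), wt 𝓕 (sq L) = w → (∀ t, psi L t ∈ K) → ∃ k, Pol k (psi L) := by
  induction w using (lx_wf 𝓕.s).induction with
  | h w ih =>
    intro L hw hLK
    have hw1 : wt 𝓕 (sq (difL 𝓕 1 L)) = w := by rw [wt_difL, hw]
    have hK1 : ∀ t, psi (difL 𝓕 1 L) t ∈ K := by
      intro t
      rw [psi_difL]
      exact K.sub_mem (hLK _) (hLK _)
    have h1 : ∃ k, Pol k (psi (difL 𝓕 1 L)) := by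
      by_cases hne : difL 𝓕 1 L = []
      · refine ⟨0, ?_⟩
        rw [hne]
        intro t
        rfl
      · obtain ⟨b₁, hb₁⟩ := exists_trL hne fun b hb => difL_nc 𝓕 hb
        rw [hw1] at hb₁
        have e : psi (trL b₁ (difL 𝓕 1 L)) = psi (difL 𝓕 1 L) := by
          funext t
          rw [psi_trL, hK _ _ (hK1 t)]
        have h2 := ih _ hb₁ (trL b₁ (difL 𝓕 1 L)) rfl (by
          intro t
          rw [e]
          exact hK1 t)
        rwa [e] at h2
    obtain ⟨k, hk⟩ := h1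
    refine ⟨k + 1, fun t => ?_⟩
    rw [dd_succ]
    have e : (fun t => psi L (t + 1) - psi L t) = psi (difL 𝓕 1 L) := by
      funext t
      rw [psi_difL]
    rw [e]
    exact hk t

/-! ### zeros -/

/-- few zeros -/
def ZB (f : ℤ → M) (C δ : ℝ) : Prop :=
  ∀ N : ℕ, 1 ≤ N → ∀ Z : Finset ℕ, (∀ t ∈ Z, t < N ∧ f (t : ℤ) = 0) →
    (Z.card : ℝ) ≤ C * (N : ℝ) ^ (1 - δ)

/-- zero or few zeros on residue classes -/
def AZ (f : ℤ → M) (q : ℕ) (C δ : ℝ) : Prop :=
  ∀ r : ℤ, (∀ t : ℤ, f (r + q * t) = 0) ∨ ZB (fun t => f (r + q * t)) C δ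

omit [DistribMulAction G M] in
theorem ZB.mono {f : ℤ → M} {C C' δ δ' : ℝ} (hC : 0 ≤ C) (h1 : C ≤ C') (h2 : δ' ≤ δ)
    (h : ZB f C δ) : ZB f C' δ' := by
  intro N hN Z hZ
  refine (h N hN Z hZ).trans ?_
  have hN1 : (1 : ℝ) ≤ N := by exact_mod_cast hN
  have h3 : (N : ℝ) ^ (1 - δ) ≤ (N : ℝ) ^ (1 - δ') :=
    Real.rpow_le_rpow_of_exponent_le hN1 (by linarith)
  have h4 : (0 : ℝ) ≤ (N : ℝ) ^ (1 - δ) := Real.rpow_nonneg (by positivity) _
  exact mul_le_mul h1 h3 h4 (hC.trans h1)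

omit [DistribMulAction G M] in
theorem ZB.dil {f : ℤ → M} {C δ : ℝ} {m : ℕ} (hm : 1 ≤ m) (hC : 0 ≤ C) (hδ : 0 ≤ δ)
    (hδ1 : δ ≤ 1) (h : ZB f C δ) : ZB (fun t => f (m * t)) (C * m) δ := by
  classical
  intro N hN Z hZ
  have h1 := h (m * N) (Nat.mul_pos hm hN) (Z.image fun t => m * t) (by
    intro s hs
    obtain ⟨t, ht, rfl⟩ := Finset.mem_image.1 hs
    refine ⟨Nat.mul_lt_mul_of_pos_left (hZ t ht).1 hm, ?_⟩
    have := (hZ t ht).2
    push_cast
    exact this)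
  rw [Finset.card_image_of_injective _ (fun a b hab => Nat.eq_of_mul_eq_mul_left hm hab)] at h1
  refine h1.trans ?_
  rw [mul_assoc]
  apply mul_le_mul_of_nonneg_left _ hC
  have hm1 : (1 : ℝ) ≤ m := by exact_mod_cast hm
  push_cast
  rw [Real.mul_rpow (by positivity) (by positivity)]
  apply mul_le_mul_of_nonneg_right _ (Real.rpow_nonneg (by positivity) _)
  calc (m : ℝ) ^ (1 - δ) ≤ (m : ℝ) ^ (1 : ℝ) := Real.rpow_le_rpow_of_exponent_le hm1 (by linarith)
    _ = m := Real.rpow_one _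

omit [DistribMulAction G M] in
theorem AZ.refine {f : ℤ → M} {q m : ℕ} {C δ : ℝ} (hm : 1 ≤ m) (hC : 0 ≤ C) (hδ : 0 ≤ δ)
    (hδ1 : δ ≤ 1) (h : AZ f q C δ) : AZ f (q * m) (C * m) δ := by
  intro r
  have e : ∀ t : ℤ, r + ((q * m : ℕ) : ℤ) * t = r + q * (m * t) := by
    intro t
    push_cast
    ring
  rcases h r with h1 | h1
  · left
    intro t
    rw [e]
    exact h1 _
  · right
    have h2 := h1.dil hm hC hδ hδ1
    simp only [e]
    exact h2

omit [DistribMulAction G M] in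
theorem AZ.mono {f : ℤ → M} {q : ℕ} {C C' δ δ' : ℝ} (hC : 0 ≤ C) (h1 : C ≤ C') (h2 : δ' ≤ δ)
    (h : AZ f q C δ) : AZ f q C' δ' := fun r => (h r).imp_right fun h3 => h3.mono hC h1 h2

omit [DistribMulAction G M] in
theorem AZ.congr {f g : ℤ → M} {q : ℕ} {C δ : ℝ} (hfg : ∀ t, g t = 0 → f t = 0)
    (hgf : ∀ t, f t = 0 → g t = 0) (h : AZ f q C δ) : AZ g q C δ := by
  intro r
  rcases h r with h1 | h1
  · exact Or.inl fun t => hgf _ (h1 t)
  · exact Or.inr fun N hN Z hZ => h1 N hN Z fun t ht => ⟨(hZ t ht).1, hfg _ (hZ t ht).2⟩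

/-- the dichotomy for a class of families -/
def Dich (P : List (PS T n × M) → Prop) : Prop :=
  ∃ q : ℕ, 1 ≤ q ∧ ∃ C δ : ℝ, 0 < C ∧ 0 < δ ∧ δ ≤ 1 ∧ ∀ L, P L → AZ (psi L) q C δ

theorem Dich_mono {P Q : List (PS T n × M) → Prop} (h : Dich Q) (hPQ : ∀ L, P L → Q L) :
    Dich P := by
  obtain ⟨q, hq, C, δ, hC, hδ, hδ1, h⟩ := h
  exact ⟨q, hq, C, δ, hC, hδ, hδ1, fun L hL => h L (hPQ L hL)⟩

theorem Dich_or {P Q : List (PS T n × M) → Prop} (h : Dich P) (h' : Dich Q) :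
    Dich fun L => P L ∨ Q L := by
  obtain ⟨q, hq, C, δ, hC, hδ, hδ1, h⟩ := h
  obtain ⟨q', hq', C', δ', hC', hδ', hδ1', h'⟩ := h'
  refine ⟨q * q', Nat.mul_pos hq hq', C * q' + C' * q, min δ δ', ?_, lt_min hδ hδ',
    (min_le_left _ _).trans hδ1, ?_⟩
  · have h1 : (0 : ℝ) < q' := by exact_mod_cast hq'
    have h2 : (0 : ℝ) < q := by exact_mod_cast hq
    positivity
  · rintro L (hL | hL)
    · have h1 := (h L hL).refine hq' hC.le hδ.le hδ1
      exact h1.mono (by positivity) (le_add_of_nonneg_right (by positivity)) (min_le_left _ _)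
    · have h1 := (h' L hL).refine hq hC'.le hδ'.le hδ1'
      rw [mul_comm q' q] at h1
      exact h1.mono (by positivity) (le_add_of_nonneg_left (by positivity)) (min_le_right _ _)

theorem Dich_finset {κ : Type} (I : Finset κ) (P : κ → List (PS T n × M) → Prop)
    (h : ∀ i ∈ I, Dich (P i)) : Dich fun L => ∃ i ∈ I, P i L := by
  classical
  induction I using Finset.induction_on with
  | empty =>
    refine ⟨1, le_rfl, 1, 1, one_pos, one_pos, le_rfl, ?_⟩
    rintro L ⟨i, hi, _⟩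
    exact absurd hi (Finset.notMem_empty i)
  | insert a I ha ih =>
    have h1 := Dich_or (h a (Finset.mem_insert_self a I))
      (ih fun i hi => h i (Finset.mem_insert_of_mem hi))
    apply Dich_mono h1
    rintro L ⟨i, hi, hL⟩
    rcases Finset.mem_insert.mp hi with rfl | hi
    · exact Or.inl hL
    · exact Or.inr ⟨i, hi, hL⟩

/-- the numerical part of the differencing step -/
theorem sq_bound {C δ : ℝ} (hC : 0 ≤ C) (hδ1 : δ ≤ 1) {N : ℕ} (hN : 1 ≤ N)
    {Z : Finset ℕ} (hZ : ∀ t ∈ Z, t < N)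
    (h : ∀ k ∈ Finset.Ico 1 N, ((Z.filter fun t => t + k ∈ Z).card : ℝ) ≤ C * (N : ℝ) ^ (1 - δ)) :
    (Z.card : ℝ) ≤ (1 + 2 * C) * (N : ℝ) ^ (1 - δ / 2) := by
  classical
  have hL0 : (0 : ℝ) < N := by exact_mod_cast hN
  have hL1 : (1 : ℝ) ≤ N := by exact_mod_cast hN
  have hZL : Z.card ≤ N := by
    have : Z ⊆ Finset.range N := fun t ht => Finset.mem_range.mpr (hZ t ht)
    simpa using Finset.card_le_card this
  have h1 := card_sq_le Z hZ
  have h3 : (∑ k ∈ Finset.Ico 1 N, ((Z.filter fun t => t + k ∈ Z).card : ℝ)) ≤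
      N * (C * (N : ℝ) ^ (1 - δ)) := by
    refine (Finset.sum_le_sum h).trans ?_
    rw [Finset.sum_const, nsmul_eq_mul, Nat.card_Ico]
    apply mul_le_mul_of_nonneg_right _ (by positivity)
    exact_mod_cast Nat.sub_le _ _
  have h4 : ((Z.card : ℝ)) ^ 2 ≤ Z.card + 2 * (N * (C * (N : ℝ) ^ (1 - δ))) := by
    have h5 : ((Z.card : ℝ)) ^ 2 ≤
        Z.card + 2 * ∑ k ∈ Finset.Ico 1 N, ((Z.filter fun t => t + k ∈ Z).card : ℝ) := by
      exact_mod_cast h1
    linarith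
  have hZL' : (Z.card : ℝ) ≤ N := by exact_mod_cast hZL
  set X : ℝ := (N : ℝ) ^ (1 - δ / 2) with hX
  have hX0 : 0 < X := Real.rpow_pos_of_pos hL0 _
  have hXX : X * X = N * (N : ℝ) ^ (1 - δ) := by
    rw [hX, ← Real.rpow_add hL0]
    conv_rhs => rw [← Real.rpow_one_add' hL0.le (by linarith)]
    congr 1
    ring
  have hXL : (N : ℝ) ≤ X * X := by
    rw [hXX]
    have : (1 : ℝ) ≤ (N : ℝ) ^ (1 - δ) := Real.one_le_rpow hL1 (by linarith)
    nlinarith
  have h6 : ((Z.card : ℝ)) ^ 2 ≤ (1 + 2 * C) * (X * X) := by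
    have h7 : N * (C * (N : ℝ) ^ (1 - δ)) = C * (X * X) := by
      rw [hXX]
      ring
    rw [h7] at h4
    nlinarith [hXL]
  have hM : (1 : ℝ) ≤ 1 + 2 * C := by linarith
  have h8 : (1 + 2 * C) * (X * X) ≤ ((1 + 2 * C) * X) ^ 2 := by
    have : (0 : ℝ) ≤ X * X := by positivity
    nlinarith [mul_le_mul_of_nonneg_right hM (by positivity : (0 : ℝ) ≤ (1 + 2 * C) * (X * X))]
  exact (pow_le_pow_iff_left₀ (Nat.cast_nonneg _) (by positivity) two_ne_zero).mp (h6.trans h8)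

/-- the step from families without constants -/
theorem step_A {e : ℕ} (he : 0 < e)
    (hper : ∀ L : List (PS T n × M), ∀ k : ℕ, 0 < k → (∀ t, psi L (t + k) = psi L t) →
      ∀ t, psi L (t + e) = psi L t) {w : Fin 𝓕.s → ℕ} {J : ℕ}
    (hB : Dich fun L : List (PS T n × M) => L.length ≤ 2 * J ∧ (∀ b ∈ sq L, b ∉ 𝓕.H 0) ∧
      wt 𝓕 (sq L) = w) :
    Dich fun L : List (PS T n × M) => L.length ≤ J ∧ wt 𝓕 (sq L) = w := by
  classical
  obtain ⟨q, hq, C, δ, hC, hδ, hδ1, h⟩ := hB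
  have heR : (0 : ℝ) < e := by exact_mod_cast he
  refine ⟨q * e, Nat.mul_pos hq he, 1 + 2 * (C * e), δ / 2, by positivity, by positivity,
    by linarith, ?_⟩
  rintro L ⟨hLJ, hLw⟩ r
  have hd : ∀ k : ℕ, AZ (psi (difL 𝓕 ((q * e * k : ℕ) : ℤ) L)) q C δ := by
    intro k
    apply h
    exact ⟨(length_difL 𝓕 _ L).trans (Nat.mul_le_mul_left 2 hLJ), fun b hb => difL_nc 𝓕 hb,
      by rw [wt_difL, hLw]⟩
  by_cases hbad : ∃ k : ℕ, 0 < k ∧ ∀ t : ℤ, psi (difL 𝓕 ((q * e * k : ℕ) : ℤ) L) (r + q * t) = 0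
  · obtain ⟨k, hk, hk0⟩ := hbad
    have hp1 : ∀ t, psi (dilL r q L) (t + ((e * k : ℕ) : ℤ)) = psi (dilL r q L) t := by
      intro t
      have h1 := hk0 t
      rw [psi_difL, sub_eq_zero] at h1
      rw [psi_dilL, psi_dilL, ← h1]
      congr 1
      push_cast
      ring
    have hp2 := hper _ (e * k) (Nat.mul_pos he hk) hp1
    have hp3 : Function.Periodic (psi (dilL r q L)) (e : ℤ) := hp2
    have hcst : ∀ t : ℤ, psi L (r + ((q * e : ℕ) : ℤ) * t) = psi L r := by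
      intro t
      have h1 := hp3.int_mul_eq t
      rw [psi_dilL, psi_dilL, Int.cast_id] at h1
      have e1 : r + ((q * e : ℕ) : ℤ) * t = r + q * (t * e) := by
        push_cast
        ring
      rw [e1, h1, mul_zero, add_zero]
    by_cases h0 : psi L r = 0
    · left
      intro t
      rw [hcst, h0]
    · right
      intro N hN Z hZ
      have hZe : Z = ∅ := by
        by_contra hne
        obtain ⟨t, ht⟩ := Finset.nonempty_iff_ne_empty.mpr hne
        have h1 := (hZ t ht).2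
        simp only at h1
        rw [hcst] at h1
        exact h0 h1
      rw [hZe, Finset.card_empty, Nat.cast_zero]
      positivity
  · push Not at hbad
    right
    intro N hN Z hZ
    apply sq_bound (C := C * e) (by positivity) hδ1 hN fun t ht => (hZ t ht).1
    intro k hk
    rw [Finset.mem_Ico] at hk
    have h1 : ZB (fun t => psi (difL 𝓕 ((q * e * k : ℕ) : ℤ) L) (r + q * t)) C δ := by
      rcases hd k r with h2 | h2
      · obtain ⟨t, ht⟩ := hbad k (by omega)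
        exact absurd (h2 t) ht
      · exact h2
    have h2 := h1.dil he hC.le hδ.le hδ1 N hN (Z.filter fun t => t + k ∈ Z) (by
      intro t ht
      rw [Finset.mem_filter] at ht
      refine ⟨(hZ t ht.1).1, ?_⟩
      have h3 := (hZ t ht.1).2
      have h4 := (hZ _ ht.2).2
      simp only at h3 h4 ⊢
      rw [psi_difL]
      have e1 : r + (q : ℤ) * ((e : ℤ) * (t : ℤ)) = r + ((q * e : ℕ) : ℤ) * t := by
        push_cast
        ring
      have e2 : r + (q : ℤ) * ((e : ℤ) * (t : ℤ)) + ((q * e * k : ℕ) : ℤ) =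
          r + ((q * e : ℕ) : ℤ) * ((t + k : ℕ) : ℤ) := by
        push_cast
        ring
      rw [e2, e1, h3, h4, sub_zero])
    exact h2

theorem dich_wt {e : ℕ} (he : 0 < e)
    (hper : ∀ L : List (PS T n × M), ∀ k : ℕ, 0 < k → (∀ t, psi L (t + k) = psi L t) →
      ∀ t, psi L (t + e) = psi L t) (w : Fin 𝓕.s → ℕ) :
    ∀ J : ℕ, Dich fun L : List (PS T n × M) => L.length ≤ J ∧ wt 𝓕 (sq L) = w := by
  classical
  induction w using (lx_wf 𝓕.s).induction with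
  | h w ih =>
    intro J
    apply step_A he hper
    have hI := Dich_finset (M := M) (T := T) (n := n)
      ((Fintype.piFinset fun _ : Fin 𝓕.s => Finset.range (2 * J + 1)).filter fun w' => lx w' w)
      (fun w' (L : List (PS T n × M)) => L.length ≤ 2 * J ∧ wt 𝓕 (sq L) = w')
      (fun w' hw' => ih w' (Finset.mem_filter.mp hw').2 (2 * J))
    obtain ⟨q, hq, C, δ, hC, hδ, hδ1, h⟩ := hI
    refine ⟨q, hq, C, δ, hC, hδ, hδ1, ?_⟩
    rintro L ⟨hLJ, hL0, hLw⟩
    by_cases hne : L = []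
    · intro r
      left
      intro t
      rw [hne, psi_nil]
    · obtain ⟨b₁, hb₁⟩ := exists_trL hne hL0
      rw [hLw] at hb₁
      have hlen : (trL b₁ L).length ≤ 2 * J := by
        rw [trL, List.length_map]
        exact hLJ
      have h1 := h (trL b₁ L) ⟨wt 𝓕 (sq (trL b₁ L)), by
        rw [Finset.mem_filter, Fintype.mem_piFinset]
        refine ⟨fun i => ?_, hb₁⟩
        rw [Finset.mem_range, Nat.lt_succ_iff]
        exact ((tp_card 𝓕).trans (sq_card _)).trans hlen, hlen, rfl⟩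
      apply h1.congr
      · intro t ht
        rw [psi_trL, ht, smul_zero]
      · intro t ht
        rw [psi_trL] at ht
        exact (smul_eq_zero_iff_eq _).1 ht

/-- **Zeros of the functions `∑ b(t) u`, uniformly.** -/
theorem dich_all [Finite ι] [Group.IsNilpotent G] (hn : 1 ≤ n)
    (hT : Subgroup.closure (Set.range T) = ⊤) (hM : FGM G M) (J : ℕ) :
    Dich fun L : List (PS T n × M) => L.length ≤ J := by
  classical
  obtain ⟨𝓕⟩ := exists_flt (T := T) (n := n)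
  obtain ⟨e, he, hper⟩ := per_bound (T := T) hn hT hM
  have hI := Dich_finset (M := M) (T := T) (n := n)
    (Fintype.piFinset fun _ : Fin 𝓕.s => Finset.range (J + 1))
    (fun w (L : List (PS T n × M)) => L.length ≤ J ∧ wt 𝓕 (sq L) = w)
    (fun w _ => dich_wt he hper w J)
  apply Dich_mono hI
  intro L hL
  refine ⟨wt 𝓕 (sq L), ?_, hL, rfl⟩
  rw [Fintype.mem_piFinset]
  intro i
  rw [Finset.mem_range, Nat.lt_succ_iff]
  exact ((tp_card 𝓕).trans (sq_card _)).trans hL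

/-- **The values.** -/
theorem values [Finite ι] [Group.IsNilpotent G] (hn : 1 ≤ n)
    (hT : Subgroup.closure (Set.range T) = ⊤) (hM : FGM G M) (L : List (PS T n × M)) :
    ∃ q : ℕ, 1 ≤ q ∧ ∃ C δ : ℝ, 0 < C ∧ 0 < δ ∧ δ ≤ 1 ∧ ∀ r : ℤ,
      (∀ t : ℤ, psi L (r + q * t) = psi L r) ∨
        ∀ w : M, ZB (fun t => psi L (r + q * t) - w) C δ := by
  obtain ⟨q, hq, C, δ, hC, hδ, hδ1, h⟩ := dich_all (T := T) (M := M) hn hT hM (L.length + 1)
  refine ⟨q, hq, C, δ, hC, hδ, hδ1, fun r => ?_⟩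
  have e : ∀ (w : M) (t : ℤ), psi ((1, -w) :: L) t = psi L t - w := by
    intro w t
    rw [psi_cons]
    show (1 : G) • (-w) + psi L t = _
    rw [one_smul, neg_add_eq_sub]
  by_cases hc : ∃ w : M, ∀ t : ℤ, psi L (r + q * t) = w
  · obtain ⟨w, hw⟩ := hc
    left
    intro t
    have h0 := hw 0
    rw [mul_zero, add_zero] at h0
    rw [hw, h0]
  · right
    intro w
    rcases h ((1, -w) :: L) (le_of_eq List.length_cons) r with h1 | h1
    · exact absurd ⟨w, fun t => sub_eq_zero.1 (by rw [← e]; exact h1 t)⟩ hc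
    · intro N hN Z hZ
      exact h1 N hN Z fun t ht => ⟨(hZ t ht).1, by
        have := (hZ t ht).2
        simp only at this ⊢
        rw [e]
        exact this⟩

end

end Pool.Agent.W5h43.NA
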