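import Pool.Agent.TH635.AA.Pol
import Pool.Agent.H648R4.Nilp
import Pool.Agent.H53R2.FinNil

/-!
# Polynomial sequences in a nilpotent group, together with the shift, form a nilpotent group
-/

set_option autoImplicit false

namespace Pool.Agent.W5h43.NA

open Pool.Agent.TH635.AA (Pol Pol_diff dd_succ Pol_add Pol_neg Pol_zero_fun Pol_const Pol_sub
  Pol_mono Pol_one_iff dd_zero Pol_shift)
open Subgroup commutatorElement

section pol

variable {N : Type*} [AddCommGroup N]

theorem Pol_dil {n : ℕ} {f : ℤ → N} (hf : Pol n f) (r q : ℤ) :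
    Pol n (fun t => f (r + q * t)) := by
  induction n generalizing f with
  | zero => exact fun t => hf _
  | succ n ih =>
    intro t
    rw [dd_succ]
    have h1 := ih (Pol_diff hf q)
    have e : (fun t => f (r + q * (t + 1)) - f (r + q * t)) =
        fun t => (fun s => f (s + q) - f s) (r + q * t) := by
      funext t
      show _ = f (r + q * t + q) - f (r + q * t)
      congr 2
      ring
    rw [e]
    exact h1 t

/-- integer valued polynomials -/
def IV (n : ℕ) : AddSubgroup (ℤ → ℤ) where
  carrier := {z | Pol n z}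
  zero_mem' := Pol_zero_fun n
  add_mem' := fun ha hb => Pol_add ha hb
  neg_mem' := fun ha => Pol_neg ha

theorem mem_IV {n : ℕ} {z : ℤ → ℤ} : z ∈ IV n ↔ Pol n z := Iff.rfl

theorem IV_inj {n : ℕ} {z : ℤ → ℤ} (hz : Pol n z) (h0 : ∀ i : Fin n, z i = 0) : z = 0 := by
  induction n generalizing z with
  | zero => exact funext hz
  | succ n ih =>
    have h1 : (fun t => z (t + 1) - z t) = 0 := by
      apply ih (Pol_diff hz 1)
      intro i
      have h2 := h0 i.castSucc
      have h3 := h0 i.succ
      simp only [Fin.val_castSucc, Fin.val_succ, Nat.cast_add, Nat.cast_one] at h2 h3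
      rw [h2, h3, sub_zero]
    have h2 : Pol 1 z := by
      intro t
      have := congrFun h1 t
      exact this
    have h3 := h0 0
    simp only [Fin.val_zero, Nat.cast_zero] at h3
    funext t
    rw [Pol_one_iff.mp h2 t, h3]
    rfl

theorem IV_fg (n : ℕ) : (IV n).FG := by
  let f : (AddSubgroup.toIntSubmodule (IV n)) →ₗ[ℤ] (Fin n → ℤ) :=
    { toFun := fun z i => (z : ℤ → ℤ) (i : ℕ)
      map_add' := fun _ _ => rfl
      map_smul' := fun _ _ => rfl }
  have hf : Function.Injective f := by
    rw [injective_iff_map_eq_zero]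
    intro z hz
    apply Subtype.ext
    exact IV_inj z.2 fun i => congrFun hz i
  have h1 : Module.Finite ℤ (AddSubgroup.toIntSubmodule (IV n)) := Module.Finite.of_injective f hf
  have h2 : AddGroup.FG (AddSubgroup.toIntSubmodule (IV n)) := Module.Finite.iff_addGroup_fg.1 h1
  exact (AddGroup.fg_iff_addSubgroup_fg (IV n)).1 h2

end pol

variable {G : Type} [Group G] {ι : Type}

/-- shift -/
def sh (k : ℤ) : (ℤ → G) ≃* (ℤ → G) where
  toFun b := fun n => b (n + k)
  invFun b := fun n => b (n - k)
  left_inv b := by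
    funext n
    show b (n - k + k) = b n
    rw [sub_add_cancel]
  right_inv b := by
    funext n
    show b (n + k - k) = b n
    rw [add_sub_cancel_right]
  map_mul' _ _ := rfl

theorem sh_apply (k : ℤ) (b : ℤ → G) (n : ℤ) : sh k b n = b (n + k) := rfl

/-- powers of the generators -/
def gen (T : ι → G) (n : ℕ) : Set (ℤ → G) := {b | ∃ i, ∃ z ∈ IV n, b = fun t => T i ^ z t}

/-- polynomial sequences -/
def PS (T : ι → G) (n : ℕ) : Subgroup (ℤ → G) := closure (gen T n)

theorem PS_dil {T : ι → G} {n : ℕ} {b : ℤ → G} (hb : b ∈ PS T n) (r q : ℤ) :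
    (fun t => b (r + q * t)) ∈ PS T n := by
  let f : (ℤ → G) →* (ℤ → G) :=
    { toFun := fun b t => b (r + q * t)
      map_one' := rfl
      map_mul' := fun _ _ => rfl }
  have h1 : PS T n ≤ (PS T n).comap f := by
    conv_lhs => rw [PS]
    rw [closure_le]
    rintro _ ⟨i, z, hz, rfl⟩
    exact subset_closure ⟨i, _, Pol_dil hz r q, rfl⟩
  exact h1 hb

theorem PS_sh {T : ι → G} {n : ℕ} {b : ℤ → G} (hb : b ∈ PS T n) (k : ℤ) : sh k b ∈ PS T n := by
  have h := PS_dil hb k 1
  have e : (fun t => b (k + 1 * t)) = sh k b := by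
    funext t
    rw [sh_apply]
    congr 1
    ring
  rwa [e] at h

variable (T : ι → G) (n : ℕ)

/-- shift of polynomial sequences -/
def shP (k : ℤ) : PS T n ≃* PS T n where
  toFun b := ⟨sh k b, PS_sh b.2 k⟩
  invFun b := ⟨sh (-k) b, PS_sh b.2 (-k)⟩
  left_inv b := by
    apply Subtype.ext
    funext t
    show (b : ℤ → G) (t + -k + k) = b.1 t
    rw [neg_add_cancel_right]
  right_inv b := by
    apply Subtype.ext
    funext t
    show (b : ℤ → G) (t + k + -k) = b.1 t
    rw [add_neg_cancel_right]
  map_mul' _ _ := rfl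

theorem shP_apply (k : ℤ) (b : PS T n) (t : ℤ) :
    ((shP T n k b : PS T n) : ℤ → G) t = (b : ℤ → G) (t + k) := rfl

/-- the action of `ℤ` -/
def shA : Multiplicative ℤ →* MulAut (PS T n) where
  toFun k := shP T n k.toAdd
  map_one' := by
    apply MulEquiv.ext
    intro b
    apply Subtype.ext
    funext t
    show (b : ℤ → G) (t + 0) = b.1 t
    rw [add_zero]
  map_mul' k l := by
    apply MulEquiv.ext
    intro b
    apply Subtype.ext
    funext t
    show (b : ℤ → G) (t + (k.toAdd + l.toAdd)) = b.1 (t + k.toAdd + l.toAdd)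
    rw [add_assoc]

theorem shA_apply (k : Multiplicative ℤ) (b : PS T n) : shA T n k b = shP T n k.toAdd b := rfl

/-- polynomial sequences and the shift -/
abbrev Gam := (PS T n) ⋊[shA T n] Multiplicative ℤ

variable {T n}

theorem ps_nilp [Group.IsNilpotent G] : Group.IsNilpotent (PS T n) := by
  have h : Group.IsNilpotent (ℤ → G) :=
    Group.isNilpotent_pi_of_bounded_class (Group.nilpotencyClass G) fun _ => le_rfl
  infer_instance

theorem gam_nilp [Group.IsNilpotent G] : Group.IsNilpotent (Gam T n) := by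
  have hps : Group.IsNilpotent (PS T n) := ps_nilp
  set N : Subgroup (Gam T n) := (SemidirectProduct.inl : PS T n →* Gam T n).range with hNdef
  have hNn : N.Normal := by
    rw [hNdef, SemidirectProduct.range_inl_eq_ker_rightHom]
    infer_instance
  obtain ⟨c, hc⟩ := Subgroup.nilpotent_iff_lowerCentralSeries.1 hps
  have hN : N.lowerCentralSeries c = ⊥ := by
    rw [hNdef, MonoidHom.range_eq_map, ← Subgroup.map_lowerCentralSeries, hc, Subgroup.map_bot]
  -- the descending series
  let V : ℕ → Subgroup (Gam T n) := fun m =>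
    (closure {b : PS T n | ∃ i, ∃ z ∈ IV m, (b : ℤ → G) = fun t => T i ^ z t}).map
      (SemidirectProduct.inl : PS T n →* Gam T n)
  let W : ℕ → Subgroup (Gam T n) := fun m => ⁅N, N⁆ ⊔ V m
  have hVN : ∀ m, V m ≤ N := by
    rintro m _ ⟨b, _, rfl⟩
    exact ⟨b, rfl⟩
  have hNN : ⁅N, N⁆ ≤ N := commutator_le_left N N
  have hWN : ∀ m, W m ≤ N := fun m => sup_le hNN (hVN m)
  have hconj : ∀ m, ∀ a ∈ N, ∀ y ∈ W m, a * y * a⁻¹ ∈ W m := by
    intro m a ha y hy
    have e : a * y * a⁻¹ = ⁅a, y⁆ * y := by
      rw [commutatorElement_def]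
      group
    rw [e]
    exact mul_mem (mem_sup_left (commutator_mem_commutator ha (hWN m hy))) hy
  have hgen : ∀ m, m + 1 ≤ n → ∀ v ∈ V (m + 1), ∀ x : Gam T n, ⁅v, x⁆ ∈ W m := by
    rintro m hm _ ⟨b, hb, rfl⟩ x
    induction hb using closure_induction with
    | mem b hb =>
      obtain ⟨i, z, hz, hbz⟩ := hb
      have hx : x = SemidirectProduct.inl x.left * SemidirectProduct.inr x.right :=
        (SemidirectProduct.inl_left_mul_inr_right x).symm
      set v : Gam T n := SemidirectProduct.inl b with hv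
      set y : Gam T n := SemidirectProduct.inl x.left with hy
      set s : Gam T n := SemidirectProduct.inr x.right with hs
      have e : ⁅v, x⁆ = ⁅v, y⁆ * (y * ⁅v, s⁆ * y⁻¹) := by
        rw [hx, commutatorElement_def, commutatorElement_def, commutatorElement_def]
        group
      rw [e]
      refine mul_mem (mem_sup_left (commutator_mem_commutator ⟨b, rfl⟩ ⟨x.left, rfl⟩))
        (hconj m _ ⟨x.left, rfl⟩ _ (mem_sup_right ?_))
      have e2 : ⁅v, s⁆ = SemidirectProduct.inl (b * (shA T n x.right b)⁻¹) := by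
        rw [map_mul, ← map_inv (shA T n x.right) b, SemidirectProduct.inl_aut,
          commutatorElement_def, hv, hs]
        simp only [map_inv, mul_assoc]
      rw [e2]
      refine ⟨_, subset_closure ⟨i, fun t => z t - z (t + x.right.toAdd), ?_, ?_⟩, rfl⟩
      · rw [mem_IV]
        have h1 : Pol m (fun t => z (t + x.right.toAdd) - z t) := Pol_diff hz _
        have h2 := Pol_neg h1
        simpa only [neg_sub] using h2
      · funext t
        show (b : ℤ → G) t * ((b : ℤ → G) (t + x.right.toAdd))⁻¹ = _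
        rw [hbz]
        show T i ^ z t * (T i ^ z (t + x.right.toAdd))⁻¹ = _
        rw [zpow_sub]
    | one =>
      rw [map_one, commutatorElement_one_left]
      exact one_mem _
    | mul b b' _ _ ih ih' =>
      rw [map_mul]
      set v : Gam T n := SemidirectProduct.inl b
      set v' : Gam T n := SemidirectProduct.inl b'
      have e : ⁅v * v', x⁆ = (v * ⁅v', x⁆ * v⁻¹) * ⁅v, x⁆ := by
        rw [commutatorElement_def, commutatorElement_def, commutatorElement_def]
        group
      rw [e]
      exact mul_mem (hconj m _ ⟨b, rfl⟩ _ ih') ih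
    | inv b _ ih =>
      rw [map_inv]
      set v : Gam T n := SemidirectProduct.inl b
      have e : ⁅v⁻¹, x⁆ = v⁻¹ * (⁅v, x⁆)⁻¹ * (v⁻¹)⁻¹ := by
        rw [commutatorElement_def, commutatorElement_def]
        group
      rw [e]
      exact hconj m _ (inv_mem (⟨b, rfl⟩ : v ∈ N)) _ (inv_mem ih)
  have hstep : ∀ m, m + 1 ≤ n → ⁅W (m + 1), (⊤ : Subgroup (Gam T n))⁆ ≤ W m := by
    intro m hm
    rw [commutator_le]
    intro w hw x _
    obtain ⟨c, hc, v, hv, rfl⟩ := mem_sup_of_normal_left.1 hw
    have e : ⁅c * v, x⁆ = (c * ⁅v, x⁆ * c⁻¹) * ⁅c, x⁆ := by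
      rw [commutatorElement_def, commutatorElement_def, commutatorElement_def]
      group
    rw [e]
    refine mul_mem (hconj m c (hNN hc) _ (hgen m hm v hv x)) (mem_sup_left ?_)
    have hnorm : (⁅N, N⁆ : Subgroup (Gam T n)).Normal := inferInstance
    exact (commutator_le_left ⁅N, N⁆ ⊤) (commutator_mem_commutator hc (mem_top x))
  have hNW : N ≤ W n := by
    refine le_trans ?_ le_sup_right
    rw [hNdef, MonoidHom.range_eq_map]
    apply Subgroup.map_mono
    have h1 : closure (((↑) : PS T n → (ℤ → G)) ⁻¹' gen T n) = ⊤ :=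
      closure_closure_coe_preimage
    rw [← h1]
    apply Subgroup.closure_mono
    rintro b ⟨i, z, hz, hb⟩
    exact ⟨i, z, hz, hb⟩
  have hlcs : ∀ j, j ≤ n → (⊤ : Subgroup (Gam T n)).lowerCentralSeries (1 + j) ≤ W (n - j) := by
    intro j
    induction j with
    | zero =>
      intro _
      refine le_trans ?_ hNW
      rw [add_zero, Subgroup.lowerCentralSeries_succ, Subgroup.lowerCentralSeries_zero, commutator_le]
      intro x _ y _
      rw [hNdef, SemidirectProduct.range_inl_eq_ker_rightHom, MonoidHom.mem_ker,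
        map_commutatorElement, commutatorElement_eq_one_iff_mul_comm, mul_comm]
    | succ j ih =>
      intro hj
      have e : n - j = (n - (j + 1)) + 1 := by omega
      rw [← add_assoc, Subgroup.lowerCentralSeries_succ]
      refine (commutator_mono (ih (by omega)) le_rfl).trans ?_
      rw [e]
      exact hstep _ (by omega)
  have hW0 : W 0 ≤ ⁅N, N⁆ := by
    refine sup_le le_rfl ?_
    rintro _ ⟨b, hb, rfl⟩
    induction hb using closure_induction with
    | mem b hb =>
      obtain ⟨i, z, hz, hb⟩ := hb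
      have h1 : b = 1 := by
        apply Subtype.ext
        rw [hb]
        funext t
        have : z t = 0 := hz t
        rw [this, zpow_zero]
        rfl
      rw [h1, map_one]
      exact one_mem _
    | one =>
      rw [map_one]
      exact one_mem _
    | mul b b' _ _ ih ih' =>
      rw [map_mul]
      exact mul_mem ih ih'
    | inv b _ ih =>
      rw [map_inv]
      exact inv_mem ih
  have hfin : (⊤ : Subgroup (Gam T n)).lowerCentralSeries (1 + n) ≤ ⁅N, N⁆ := by
    have h := hlcs n le_rfl
    rw [Nat.sub_self] at h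
    exact h.trans hW0
  obtain ⟨m, hm⟩ := Pool.Agent.H648R4.hall (le_top : N ≤ ⊤) hN hfin
  exact Subgroup.nilpotent_iff_lowerCentralSeries.2 ⟨m, hm⟩

theorem ps_fg [Finite ι] : (PS T n).FG := by
  obtain ⟨S, hS⟩ := IV_fg n
  have hfin : Set.Finite (⋃ i : ι, (fun z : ℤ → ℤ => (fun t => T i ^ z t : ℤ → G)) '' (S : Set (ℤ → ℤ))) :=
    Set.finite_iUnion fun i => S.finite_toSet.image _
  rw [Subgroup.fg_iff]
  refine ⟨_, ?_, hfin⟩
  apply le_antisymm
  · rw [closure_le]
    intro b hb
    rw [Set.mem_iUnion] at hb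
    obtain ⟨i, z, hz, rfl⟩ := hb
    refine subset_closure ⟨i, z, ?_, rfl⟩
    rw [← hS]
    exact AddSubgroup.subset_closure hz
  · rw [PS, closure_le]
    rintro _ ⟨i, z, hz, rfl⟩
    rw [← hS] at hz
    show (fun t => T i ^ z t) ∈ Subgroup.closure _
    induction hz using AddSubgroup.closure_induction with
    | mem z hz => exact subset_closure (Set.mem_iUnion.2 ⟨i, z, hz, rfl⟩)
    | zero =>
      have e : (fun t => T i ^ (0 : ℤ → ℤ) t) = (1 : ℤ → G) := by
        funext t
        simp
      rw [e]
      exact one_mem _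
    | add z z' _ _ h h' =>
      have e : (fun t => T i ^ (z + z') t) = (fun t => T i ^ z t) * fun t => T i ^ z' t := by
        funext t
        simp [zpow_add]
      rw [e]
      exact mul_mem h h'
    | neg z _ h =>
      have e : (fun t => T i ^ (-z) t) = (fun t => T i ^ z t)⁻¹ := by
        funext t
        simp
      rw [e]
      exact inv_mem h

theorem gam_fg [Finite ι] : Group.FG (Gam T n) := by
  obtain ⟨S, hS⟩ := (ps_fg (T := T) (n := n))
  have h1 : Group.FG (PS T n) := (Group.fg_iff_subgroup_fg _).2 ⟨S, hS⟩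
  obtain ⟨S', hS'⟩ := h1.out
  rw [Group.fg_iff]
  refine ⟨(SemidirectProduct.inl : PS T n →* Gam T n) '' (S' : Set (PS T n)) ∪
    {(SemidirectProduct.inr (Multiplicative.ofAdd (1 : ℤ)) : Gam T n)}, ?_,
    (S'.finite_toSet.image _).union (Set.finite_singleton _)⟩
  rw [eq_top_iff]
  intro x _
  rw [← SemidirectProduct.inl_left_mul_inr_right x]
  apply mul_mem
  · have h2 : (⊤ : Subgroup (PS T n)).map (SemidirectProduct.inl : PS T n →* Gam T n) ≤
        closure ((SemidirectProduct.inl : PS T n →* Gam T n) '' (S' : Set (PS T n)) ∪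
          {(SemidirectProduct.inr (Multiplicative.ofAdd (1 : ℤ)) : Gam T n)}) := by
      rw [← hS', MonoidHom.map_closure]
      exact Subgroup.closure_mono Set.subset_union_left
    exact h2 ⟨x.left, mem_top _, rfl⟩
  · have e : (SemidirectProduct.inr x.right : Gam T n) =
        (SemidirectProduct.inr (Multiplicative.ofAdd (1 : ℤ)) : Gam T n) ^ x.right.toAdd := by
      rw [← map_zpow]
      congr 1
      rw [← ofAdd_zsmul, smul_eq_mul, mul_one, ofAdd_toAdd]
    rw [e]
    apply zpow_mem
    apply Subgroup.subset_closure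
    exact Set.mem_union_right _ (Set.mem_singleton _)

theorem gam_pc [Finite ι] [Group.IsNilpotent G] : Pool.Agent.Helper294.HallC.PC (Gam T n) := by
  have h1 : Group.IsNilpotent (Gam T n) := gam_nilp
  have h2 : Group.FG (Gam T n) := gam_fg
  have h3 : Group.IsSolvable (Gam T n) := inferInstance
  exact ⟨h3, Pool.Agent.H53R2.nil_maxC _⟩

end Pool.Agent.W5h43.NA
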